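import Pool.Agent.UW1.Defs

/-!
# UW1 package Compact: two compactness lemmas for maps into a realization

PROOF of `unif`. For each `x : S` let `s` be a face with `f x` supported in `s`. The finitely many
coordinate functions `f · v`, `v ∈ s`, are continuous, so on a neighbourhood `U_x` of `x`
`|f y v - f x v| < η / (4 (s.card + 1))` for all `v ∈ s`. For `y ∈ U_x`, `w ∉ s`:
`0 ≤ f y w ≤ 1 - ∑ v ∈ s, f y v = ∑ v ∈ s, (f x v - f y v) < η / 4` (all coordinates of a point of
`K.real` are nonnegative and every finite sum of them is at most `1`). So for `y, y' ∈ U_x` all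
coordinates differ by less than `η`. Conclude with the Lebesgue number lemma
(`lebesgue_number_lemma_of_metric`).

PROOF of `sep`. Otherwise for every `n > 0` the closed set
`Z n = {(x, y) | (∀ v, |f x v - f y v| ≤ 2 / n) ∧ w' ≤ dist (g x) (g y)}` of the compact space
`S × S` is nonempty; it is decreasing in `n`, so the intersection contains some `(x, y)`
(`IsCompact.nonempty_iInter_of_directed_nonempty_isCompact_isClosed` or sequences). Then
`f x v = f y v` for all `v`, so `dist (g x) (g y) ≤ w < w'`. Contradiction.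
-/

namespace UW1

universe u

private theorem real_nonneg {V : Type u} {K : Complex V} {c : V → ℝ} (hc : c ∈ K.real) (v : V) :
    0 ≤ c v := by
  obtain ⟨s, _, h1, h2, _⟩ := hc
  by_cases hv : v ∈ s
  · exact h1 v hv
  · rw [h2 v hv]

private theorem real_sum_le {V : Type u} {K : Complex V} {c : V → ℝ} (hc : c ∈ K.real)
    (T : Finset V) : ∑ v ∈ T, c v ≤ 1 := by
  classical
  have h0 := real_nonneg hc
  obtain ⟨s, _, _, h2, h3⟩ := hc
  calc ∑ v ∈ T, c v ≤ ∑ v ∈ T ∪ s, c v :=
        Finset.sum_le_sum_of_subset_of_nonneg Finset.subset_union_left fun v _ _ => h0 v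
    _ = ∑ v ∈ s, c v := by
        symm
        exact Finset.sum_subset Finset.subset_union_right fun v _ hv => h2 v hv
    _ = 1 := h3

/-- Near every point all coordinates are almost constant. -/
private theorem unif_local {V : Type u} (K : Complex V) {S : Type*} [MetricSpace S]
    (f : S → V → ℝ) (hf : Continuous f) (hfK : ∀ x, f x ∈ K.real) (η : ℝ) (hη : 0 < η) (x : S) :
    ∃ U : Set S, IsOpen U ∧ x ∈ U ∧ ∀ y ∈ U, ∀ z ∈ U, ∀ v, |f y v - f z v| < η := by
  classical
  obtain ⟨s, _, _, h2, h3⟩ := hfK x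
  obtain ⟨ε, hε⟩ : ∃ ε : ℝ, ε = η / (4 * (s.card + 1)) := ⟨_, rfl⟩
  have hk : (0 : ℝ) < 4 * ((s.card : ℝ) + 1) := by positivity
  have hε0 : 0 < ε := by
    rw [hε]
    positivity
  have hεk : ε * (4 * ((s.card : ℝ) + 1)) = η := by
    rw [hε]
    exact div_mul_cancel₀ _ hk.ne'
  have hk0 : (0 : ℝ) ≤ s.card := by positivity
  have hkε : (s.card : ℝ) * ε ≤ η / 4 := by nlinarith
  have h4ε : 4 * ε ≤ η := by nlinarith [mul_nonneg hk0 hε0.le]
  have hev : ∀ᶠ y in nhds x, ∀ v ∈ s, |f y v - f x v| < ε := by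
    rw [Filter.eventually_all_finset]
    intro v _
    have hcv : Continuous fun y => |f y v - f x v| :=
      (((continuous_apply v).comp hf).sub continuous_const).abs
    have h5 : |f x v - f x v| < ε := by
      rw [sub_self, abs_zero]
      exact hε0
    exact (hcv.tendsto x).eventually (gt_mem_nhds h5)
  obtain ⟨U, hUs, hUo, hxU⟩ := mem_nhds_iff.1 hev
  have hout : ∀ y ∈ U, ∀ v, v ∉ s → 0 ≤ f y v ∧ f y v ≤ η / 4 := by
    intro y hy v hv
    refine ⟨real_nonneg (hfK y) v, ?_⟩
    have h5 := real_sum_le (hfK y) (insert v s)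
    rw [Finset.sum_insert hv] at h5
    have h6 : ∑ u ∈ s, (f x u - f y u) ≤ ∑ _u ∈ s, ε := by
      refine Finset.sum_le_sum fun u hu => ?_
      have h7 := (abs_lt.1 (hUs hy u hu)).1
      linarith
    rw [Finset.sum_const, nsmul_eq_mul, Finset.sum_sub_distrib, h3] at h6
    linarith
  refine ⟨U, hUo, hxU, fun y hy z hz v => ?_⟩
  by_cases hv : v ∈ s
  · have h5 := abs_lt.1 (hUs hy v hv)
    have h6 := abs_lt.1 (hUs hz v hv)
    rw [abs_lt]
    constructor <;> linarith [h5.1, h5.2, h6.1, h6.2]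
  · have h5 := hout y hy v hv
    have h6 := hout z hz v hv
    rw [abs_lt]
    constructor <;> linarith [h5.1, h5.2, h6.1, h6.2]

theorem unif {V : Type u} (K : Complex V) {S : Type*} [MetricSpace S] [CompactSpace S]
    (f : S → V → ℝ) (hf : Continuous f) (hfK : ∀ x, f x ∈ K.real) (η : ℝ) (hη : 0 < η) :
    ∃ δ > 0, ∀ x y : S, dist x y < δ → ∀ v, |f x v - f y v| < η := by
  choose U hUo hxU hU using unif_local K f hf hfK η hη
  obtain ⟨δ, hδ, h⟩ := lebesgue_number_lemma_of_metric (s := (Set.univ : Set S)) isCompact_univ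
    hUo (fun x _ => Set.mem_iUnion.2 ⟨x, hxU x⟩)
  refine ⟨δ, hδ, fun x y hxy v => ?_⟩
  obtain ⟨i, hi⟩ := h x (Set.mem_univ x)
  refine hU i x (hi (Metric.mem_ball_self hδ)) y (hi ?_) v
  rw [Metric.mem_ball, dist_comm]
  exact hxy

theorem sep {V : Type u} {S Q : Type*} [MetricSpace S] [CompactSpace S] [MetricSpace Q]
    (f : S → V → ℝ) (hf : Continuous f) (g : S → Q) (hg : Continuous g) (w w' : ℝ) (hw : w < w')
    (hfib : ∀ x y, f x = f y → dist (g x) (g y) ≤ w) :
    ∃ n : ℕ, 0 < n ∧ ∀ x y : S, (∀ v, |f x v - f y v| ≤ 2 / n) → dist (g x) (g y) < w' := by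
  by_contra hcon
  push Not at hcon
  have h1 : ∀ n : ℕ, ∃ z : S × S, (∀ v, |f z.1 v - f z.2 v| ≤ 2 / ((n : ℝ) + 1)) ∧
      w' ≤ dist (g z.1) (g z.2) := by
    intro n
    obtain ⟨x, y, h2, h3⟩ := hcon (n + 1) (Nat.succ_pos n)
    refine ⟨(x, y), fun v => ?_, h3⟩
    have h4 := h2 v
    push_cast at h4
    exact h4
  choose z hz1 hz2 using h1
  obtain ⟨a, φ, hφ, ha⟩ := CompactSpace.tendsto_subseq z
  have hx : Filter.Tendsto (fun n => (z (φ n)).1) Filter.atTop (nhds a.1) :=
    (continuous_fst.tendsto a).comp ha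
  have hy : Filter.Tendsto (fun n => (z (φ n)).2) Filter.atTop (nhds a.2) :=
    (continuous_snd.tendsto a).comp ha
  have hfe : f a.1 = f a.2 := by
    funext v
    have hcv : Continuous fun x => f x v := (continuous_apply v).comp hf
    have h2 : Filter.Tendsto (fun n => |f (z (φ n)).1 v - f (z (φ n)).2 v|) Filter.atTop
        (nhds |f a.1 v - f a.2 v|) :=
      (((hcv.tendsto _).comp hx).sub ((hcv.tendsto _).comp hy)).abs
    have h3 : Filter.Tendsto (fun n => 2 / (((φ n : ℕ) : ℝ) + 1)) Filter.atTop (nhds 0) := by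
      have h4 : Filter.Tendsto (fun n : ℕ => (2 : ℝ) / ((n : ℝ) + 1)) Filter.atTop (nhds 0) := by
        have h5 := (tendsto_one_div_add_atTop_nhds_zero_nat (𝕜 := ℝ)).const_mul 2
        rw [mul_zero] at h5
        refine h5.congr fun n => ?_
        rw [mul_one_div]
      exact h4.comp hφ.tendsto_atTop
    have h4 : |f a.1 v - f a.2 v| ≤ 0 := le_of_tendsto_of_tendsto' h2 h3 fun n => hz1 (φ n) v
    have h5 := abs_nonpos_iff.1 h4
    linarith
  have h2 : Filter.Tendsto (fun n => dist (g (z (φ n)).1) (g (z (φ n)).2)) Filter.atTop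
      (nhds (dist (g a.1) (g a.2))) :=
    ((hg.tendsto _).comp hx).dist ((hg.tendsto _).comp hy)
  have h3 : w' ≤ dist (g a.1) (g a.2) := ge_of_tendsto' h2 fun n => hz2 (φ n)
  have h4 := hfib _ _ hfe
  linarith

end UW1
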