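import Pool.Agent.UW1.Defs

/-!
# UW1 package Round: rounding points of a one-dimensional complex to the `n`-th subdivision

PROOF of `exists_round`. Choose a linear order on `V` (e.g. `linearOrderOfSTO WellOrderingRel`,
classical). A point `c` of `K.real` has a support of one or two vertices (`K.DimLe 1`). Let
`top` be the largest vertex of the support, `t = c top`, `rr t = ⌊n t + 1/2⌋ / n ∈ [0, 1]`, and let
`α c` be the function with value `rr t` at `top`, `1 - rr t` at the other vertex of the support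
(if there is one) and `0` elsewhere (if the support is `{u}` then `t = 1`, `rr t = 1`).
(1) `|α c v - c v| ≤ 1/(2n) ≤ 1/n` for every `v`.
(2) Let `c₁, c₂, c₃` be pairwise closer than `1/(4n)` in every coordinate.
Case A: some `cᵢ` has two coordinates `≥ 1/(4n)`, at `u` and `v`. Then the other two are positive
at `u` and at `v`, so all three have support exactly `{u, v}` and the same `top`; the three numbers
`n t` lie in an interval of length `< 1/4`, so `⌊n t + 1/2⌋` takes at most two values: two of the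
three `α cᵢ` agree.
Case B: otherwise each `cᵢ` has a coordinate `> 1 - 1/(4n)` at some `uᵢ`; if `uᵢ ≠ uⱼ` then
`cⱼ uᵢ ≤ 1 - cⱼ uⱼ < 1/(4n)` while `cᵢ uᵢ > 1 - 1/(4n)`: the difference is `> 1 - 1/(2n) ≥ 1/2`,
contradiction. So all `uᵢ` are equal to one `u`, and then `α cᵢ` is the indicator function of `u`
for all `i` (if `u = top`: `n t > n - 1/4` gives `⌊n t + 1/2⌋ = n`; otherwise `n t < 1/4` and the
floor is `0`). So all three agree.
(Outside `K.real` the function `α` is arbitrary.)
-/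

namespace UW1

universe u

/-- Rounding of `2 n t` to an integer, symmetric about `t = 1 / 2`. -/
private noncomputable def rk (n : ℕ) (t : ℝ) : ℤ :=
  if t < 1 / 2 then ⌈2 * n * t - 1 / 2⌉ else ⌊2 * n * t + 1 / 2⌋

private theorem rk_near (n : ℕ) (t : ℝ) :
    2 * n * t - 1 / 2 ≤ rk n t ∧ (rk n t : ℝ) ≤ 2 * n * t + 1 / 2 := by
  unfold rk
  split_ifs with h
  · constructor
    · exact Int.le_ceil _
    · have := Int.ceil_lt_add_one (2 * n * t - 1 / 2 : ℝ)
      linarith
  · constructor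
    · have := Int.lt_floor_add_one (2 * n * t + 1 / 2 : ℝ)
      linarith
    · exact Int.floor_le _

private theorem rk_symm (n : ℕ) {s t : ℝ} (h : s + t = 1) : rk n s = 2 * n - rk n t := by
  have hs : s = 1 - t := by linarith
  subst hs
  unfold rk
  rcases lt_trichotomy t (1 / 2) with h1 | h1 | h1
  · rw [if_neg (by linarith), if_pos h1]
    have e : (2 * n * (1 - t) + 1 / 2 : ℝ) = ((2 * n : ℤ) : ℝ) + -(2 * n * t - 1 / 2) := by
      push_cast
      ring
    rw [e, Int.floor_intCast_add, Int.floor_neg]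
    ring
  · rw [h1, if_neg (by norm_num), if_neg (by norm_num)]
    have e : (2 * n * (1 - 1 / 2) + 1 / 2 : ℝ) = ((n : ℤ) : ℝ) + 1 / 2 := by
      push_cast
      ring
    have e2 : (2 * n * (1 / 2) + 1 / 2 : ℝ) = ((n : ℤ) : ℝ) + 1 / 2 := by
      push_cast
      ring
    rw [e, e2, Int.floor_intCast_add]
    have h0 : ⌊(1 / 2 : ℝ)⌋ = 0 := by
      rw [Int.floor_eq_zero_iff]
      constructor <;> norm_num
    rw [h0]
    ring
  · rw [if_pos (by linarith), if_neg (by linarith)]
    have e : (2 * n * (1 - t) - 1 / 2 : ℝ) = -(2 * n * t + 1 / 2) + ((2 * n : ℤ) : ℝ) := by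
      push_cast
      ring
    rw [e, Int.ceil_add_intCast, Int.ceil_neg]
    ring

private theorem rk_close {n : ℕ} (hn : 0 < n) {s t : ℝ} (h : |s - t| < 1 / (4 * n)) :
    rk n s - rk n t ≤ 1 ∧ rk n t - rk n s ≤ 1 := by
  have hn' : (0 : ℝ) < n := by exact_mod_cast hn
  have h1 := rk_near n s
  have h2 := rk_near n t
  have h3 : |s - t| * (4 * n) < 1 := by
    rw [lt_div_iff₀ (by positivity)] at h
    exact h
  have h4 : |2 * n * s - 2 * n * t| < 1 := by
    have : 2 * n * s - 2 * n * t = (s - t) * (2 * n) := by ring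
    rw [this, abs_mul, abs_of_pos (by positivity : (0 : ℝ) < 2 * n)]
    nlinarith [abs_nonneg (s - t)]
  rw [abs_lt] at h4
  constructor
  · have h5 : (rk n s : ℝ) - rk n t < 2 := by linarith [h1.2, h2.1, h4.2]
    have h6 : rk n s - rk n t < 2 := by exact_mod_cast h5
    omega
  · have h5 : (rk n t : ℝ) - rk n s < 2 := by linarith [h2.2, h1.1, h4.1]
    have h6 : rk n t - rk n s < 2 := by exact_mod_cast h5
    omega

private theorem rk_pigeon {n : ℕ} (hn : 0 < n) {s t r : ℝ} (h1 : |s - t| < 1 / (4 * n))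
    (h2 : |t - r| < 1 / (4 * n)) (h3 : |s - r| < 1 / (4 * n)) :
    rk n s = rk n t ∨ rk n t = rk n r ∨ rk n s = rk n r := by
  have a := rk_close hn h1
  have b := rk_close hn h2
  have c := rk_close hn h3
  omega

private theorem rk_small {n : ℕ} (hn : 0 < n) {t : ℝ} (h0 : 0 ≤ t) (h : t < 1 / (4 * n)) :
    rk n t = 0 := by
  have hn' : (1 : ℝ) ≤ n := by exact_mod_cast hn
  have h1 : t * (4 * n) < 1 := by
    rw [lt_div_iff₀ (by positivity)] at h
    exact h
  have h2 : t < 1 / 2 := by nlinarith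
  unfold rk
  rw [if_pos h2, Int.ceil_eq_zero_iff]
  constructor
  · nlinarith
  · nlinarith

private theorem shape {V : Type u} (K : Complex V) (hK : K.DimLe 1) {c : V → ℝ}
    (hc : c ∈ K.real) : (∃ a b, a ≠ b ∧ 0 ≤ c a ∧ 0 ≤ c b ∧ c a + c b = 1 ∧
      ∀ w, w ≠ a → w ≠ b → c w = 0) ∨ (∃ a, c a = 1 ∧ ∀ w, w ≠ a → c w = 0) := by
  obtain ⟨s, hs, h0, h1, h2⟩ := hc
  have hcard := hK s hs
  have hne := K.nonempty_of_mem s hs
  have hpos := Finset.card_pos.2 hne
  have hcases : s.card = 1 ∨ s.card = 2 := by omega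
  rcases hcases with h3 | h3
  · right
    obtain ⟨a, rfl⟩ := Finset.card_eq_one.1 h3
    refine ⟨a, by simpa using h2, fun w hw => h1 w (by simpa using hw)⟩
  · left
    classical
    obtain ⟨a, b, hab, rfl⟩ := Finset.card_eq_two.1 h3
    refine ⟨a, b, hab, h0 a (by simp), h0 b (by simp), ?_, fun w hwa hwb => h1 w ?_⟩
    · rw [Finset.sum_pair hab] at h2
      exact h2
    · simp only [Finset.mem_insert, Finset.mem_singleton, not_or]
      exact ⟨hwa, hwb⟩

private theorem real_nonneg {V : Type u} (K : Complex V) {c : V → ℝ}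
    (hc : c ∈ K.real) (v : V) : 0 ≤ c v := by
  obtain ⟨s, _, h0, h1, _⟩ := hc
  by_cases hv : v ∈ s
  · exact h0 v hv
  · rw [h1 v hv]

private theorem exists_half {V : Type u} (K : Complex V) (hK : K.DimLe 1) {c : V → ℝ}
    (hc : c ∈ K.real) : ∃ a, 1 / 2 ≤ c a := by
  rcases shape K hK hc with ⟨a, b, _, _, _, hs, _⟩ | ⟨a, ha, _⟩
  · by_cases h : 1 / 2 ≤ c a
    · exact ⟨a, h⟩
    · exact ⟨b, by linarith⟩
  · exact ⟨a, by rw [ha]; norm_num⟩

private theorem two_support {V : Type u} (K : Complex V) (hK : K.DimLe 1) {c : V → ℝ}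
    (hc : c ∈ K.real) {u v : V} (huv : u ≠ v) (hu : 0 < c u) (hv : 0 < c v) :
    c u + c v = 1 ∧ ∀ w, w ≠ u → w ≠ v → c w = 0 := by
  rcases shape K hK hc with ⟨a, b, _, _, _, hs, h0⟩ | ⟨a, _, h0⟩
  · by_cases hua : u = a
    · by_cases hvb : v = b
      · rw [hua, hvb]
        exact ⟨hs, h0⟩
      · have := h0 v (fun h => huv (hua.trans h.symm)) hvb
        linarith
    · by_cases hub : u = b
      · by_cases hva : v = a
        · rw [hub, hva]
          exact ⟨by linarith, fun w h1 h2 => h0 w h2 h1⟩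
        · have := h0 v hva (fun h => huv (hub.trans h.symm))
          linarith
      · have := h0 u hua hub
        linarith
  · by_cases hua : u = a
    · have := h0 v (fun h => huv (hua.trans h.symm))
      linarith
    · have := h0 u hua
      linarith

private theorem big {V : Type u} (K : Complex V) (hK : K.DimLe 1) {c : V → ℝ}
    (hc : c ∈ K.real) {u : V} {δ : ℝ} (hδ : 0 < δ) (hu : 0 < c u)
    (h : ∀ w, w ≠ u → c w < δ) : ∃ t, 0 ≤ t ∧ t < δ ∧ c u + t = 1 := by
  rcases shape K hK hc with ⟨a, b, hab, h1, h2, hs, h0⟩ | ⟨a, ha, h0⟩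
  · by_cases hua : u = a
    · exact ⟨c b, h2, h b (fun h => hab (hua.symm.trans h.symm)), by rw [hua]; exact hs⟩
    · by_cases hub : u = b
      · exact ⟨c a, h1, h a (fun h => hua h.symm), by rw [hub]; linarith⟩
      · have := h0 u hua hub
        linarith
  · by_cases hua : u = a
    · exact ⟨0, le_refl _, hδ, by rw [hua, ha]; norm_num⟩
    · have := h0 u hua
      linarith

theorem exists_round {V : Type u} (K : Complex V) (hK : K.DimLe 1) (n : ℕ) (hn : 0 < n) :
    ∃ α : (V → ℝ) → V → ℝ, (∀ c ∈ K.real, ∀ v, |α c v - c v| ≤ 1 / n) ∧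
      ∀ c₁ ∈ K.real, ∀ c₂ ∈ K.real, ∀ c₃ ∈ K.real,
        (∀ v, |c₁ v - c₂ v| < 1 / (4 * n)) → (∀ v, |c₂ v - c₃ v| < 1 / (4 * n)) →
        (∀ v, |c₁ v - c₃ v| < 1 / (4 * n)) → α c₁ = α c₂ ∨ α c₂ = α c₃ ∨ α c₁ = α c₃ := by
  have hn1 : (1 : ℝ) ≤ n := by exact_mod_cast hn
  have hn0 : (0 : ℝ) < n := by linarith
  refine ⟨fun c v => (rk n (c v) : ℝ) / (2 * n), fun c _ v => ?_, ?_⟩
  · have h := rk_near n (c v)
    have e : (rk n (c v) : ℝ) / (2 * n) - c v = ((rk n (c v) : ℝ) - 2 * n * c v) / (2 * n) := by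
      field_simp
    simp only
    rw [e, abs_div, abs_of_pos (by positivity : (0 : ℝ) < 2 * n), div_le_div_iff₀ (by positivity)
      hn0]
    have h3 : |(rk n (c v) : ℝ) - 2 * n * c v| ≤ 1 / 2 := by
      rw [abs_le]
      constructor <;> linarith [h.1, h.2]
    nlinarith [abs_nonneg ((rk n (c v) : ℝ) - 2 * n * c v)]
  · intro c₁ h₁ c₂ h₂ c₃ h₃ h12 h23 h13
    have hδ : (0 : ℝ) < 1 / (4 * n) := by positivity
    have hδ' : 1 / (4 * n : ℝ) ≤ 1 / 4 := by
      rw [div_le_div_iff₀ (by positivity) (by norm_num)]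
      linarith
    obtain ⟨u, hu⟩ := exists_half K hK h₁
    have hu1 : 0 < c₁ u := by linarith
    have hu2 : 0 < c₂ u := by
      have := (abs_lt.1 (h12 u)).2
      linarith
    have hu3 : 0 < c₃ u := by
      have := (abs_lt.1 (h13 u)).2
      linarith
    -- two points with the same support
    have key : ∀ c d : V → ℝ, c ∈ K.real → d ∈ K.real → ∀ v, u ≠ v → 0 < c u → 0 < d u →
        0 < c v → 0 < d v → rk n (c u) = rk n (d u) →
        (fun w => (rk n (c w) : ℝ) / (2 * n)) = fun w => (rk n (d w) : ℝ) / (2 * n) := by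
      intro c d hc hd v huv hcu hdu hcv hdv hk
      obtain ⟨a1, a2⟩ := two_support K hK hc huv hcu hcv
      obtain ⟨b1, b2⟩ := two_support K hK hd huv hdu hdv
      funext w
      by_cases hwu : w = u
      · rw [hwu, hk]
      · by_cases hwv : w = v
        · rw [hwv, rk_symm n (show c v + c u = 1 by linarith),
            rk_symm n (show d v + d u = 1 by linarith), hk]
        · rw [a2 w hwu hwv, b2 w hwu hwv]
    by_cases hex : ∃ v, u ≠ v ∧ (1 / (4 * n : ℝ) ≤ c₁ v ∨ 1 / (4 * n : ℝ) ≤ c₂ v ∨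
        1 / (4 * n : ℝ) ≤ c₃ v)
    · obtain ⟨v, huv, hv⟩ := hex
      have a12 := abs_lt.1 (h12 v)
      have a13 := abs_lt.1 (h13 v)
      have a23 := abs_lt.1 (h23 v)
      have hv1 : 0 < c₁ v := by
        rcases hv with h | h | h <;> linarith [a12.1, a12.2, a13.1, a13.2]
      have hv2 : 0 < c₂ v := by
        rcases hv with h | h | h <;> linarith [a12.1, a12.2, a23.1, a23.2]
      have hv3 : 0 < c₃ v := by
        rcases hv with h | h | h <;> linarith [a13.1, a13.2, a23.1, a23.2]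
      rcases rk_pigeon hn (h12 u) (h23 u) (h13 u) with h | h | h
      · exact Or.inl (key c₁ c₂ h₁ h₂ v huv hu1 hu2 hv1 hv2 h)
      · exact Or.inr (Or.inl (key c₂ c₃ h₂ h₃ v huv hu2 hu3 hv2 hv3 h))
      · exact Or.inr (Or.inr (key c₁ c₃ h₁ h₃ v huv hu1 hu3 hv1 hv3 h))
    · push Not at hex
      classical
      have all : ∀ c : V → ℝ, c ∈ K.real → 0 < c u → (∀ w, w ≠ u → c w < 1 / (4 * n)) →
          ∀ w, rk n (c w) = if w = u then 2 * (n : ℤ) else 0 := by
        intro c hc hcu hs w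
        by_cases hwu : w = u
        · rw [if_pos hwu, hwu]
          obtain ⟨t, ht0, ht1, ht2⟩ := big K hK hc hδ hcu hs
          rw [rk_symm n ht2, rk_small hn ht0 ht1]
          ring
        · rw [if_neg hwu]
          exact rk_small hn (real_nonneg K hc w) (hs w hwu)
      left
      have e1 := all c₁ h₁ hu1 (fun w hw => (hex w (Ne.symm hw)).1)
      have e2 := all c₂ h₂ hu2 (fun w hw => (hex w (Ne.symm hw)).2.1)
      funext w
      simp only
      rw [e1 w, e2 w]

end UW1
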