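import Pool.Agent.UW1.Sperner
import Pool.Agent.UW1.Round
import Pool.Agent.UW1.Compact

/-!
# UW1 package Bottle: a simply connected space of small one-dimensional width is a bottleneck
space

PROOF of `bottleneck_of_map`. Let `γ` be a geodesic on `[0, ℓ]` from `a` to `b`, `F` a set in
which `a` and `b` are joined, `P : Path a b` with values in `F`, `t₀ ∈ [0, ℓ]`. If `ℓ = 0` take
`z = a`. Let `σ : Path a b`, `σ u = γ (ℓ u)` (use `γ` composed with the projection to `[0, ℓ]`;
`γ` is continuous on `[0, ℓ]` by `isom`). `Q` is simply connected, so there is a homotopy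
`H : Path.Homotopy σ P` (`SimplyConnectedSpace.paths_homotopic`), a continuous map on
`S = unitInterval × unitInterval` (first variable: homotopy parameter) with
`H (0, u) = σ u`, `H (1, u) = P u`, `H (_, 0) = a`, `H (_, 1) = b`.
Put `f = F₁ ∘ H` (`F₁` the given map), `g = H`; `sep` gives `n` such that points of `S` whose
`f`-coordinates differ by at most `2/n` have `H`-images at distance `< w'`. Take `α` from
`exists_round K hK n`, and `δ` from `unif` for `η = 1/(4n)`. Put `u₀ = t₀ / ℓ`.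
ARCS: arc 0 = `{(0, u) | u ≤ u₀}`, arc 1 = `{(0, u) | u₀ ≤ u}`, arc 2 = `{(1, u)}`, and the points
`(_, 0)` have the same `f`-value as `(0,0)` and `(1,0)`, the points `(_, 1)` that of `(0,1)`,
`(1,1)`. For a value `a'` of `α` let `T a'` be the set of `c : Fin 3` such that some point `q`
of arc `c` has `α (f q) = a'`.
Case 1: some `a'` has `T a' = univ`: points `q₀ = (0, u₁)`, `u₁ ≤ u₀`, `q₁ = (0, u₂)`, `u₀ ≤ u₂`,
`q₂ = (1, u₃)` with `|f qᵢ v - a' v| ≤ 1/n`, so the coordinates of `f qᵢ`, `f qⱼ` differ by at most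
`2/n` and `H q₀ = γ (ℓ u₁)`, `H q₁ = γ (ℓ u₂)`, `H q₂ = P u₃` are at mutual distance `< w'`. Thus
`ℓ (u₂ - u₁) < w'`, one of `t₀ - ℓ u₁`, `ℓ u₂ - t₀` is `≤ w'/2`, and
`dist (γ t₀) (P u₃) ≤ w'/2 + w' = 3 w'/2`.
Case 2: for every value `a'` choose a label `lab a' ∉ T a'`. Take `N` with `1/N < δ/2` and such
that `u₀` is approximated: the grid must contain `u₀`. Easiest: use the grid points
`(j/N, θ(i/N))` where `θ : [0,1] → [0,1]` is the piecewise linear (or any Lipschitz) map; or simply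
choose the horizontal grid `x_i = i u₀ / N` for `i ≤ N` and `x_i = u₀ + (i - N)(1 - u₀)/N` for
`N ≤ i ≤ 2N`, so `n := 2N`, `m := N`, and `2N` rows `y_j = j/(2N)`. Define
`L i j = lab (α (f (y_j, x_i)))`. Boundary conditions of `sperner_square (2N) N`: left column: the
value is that of a point of arc 0 and of arc 2, so the label is `1`; right column: arcs 1 and 2,
so the label is `0`; top row (`y = 1`): arc 2, label `≠ 2`; bottom row: arc 0 for `i ≤ N`, label
`≠ 0`; arc 1 for `N ≤ i`, label `≠ 1`. `sperner_square` gives a cell containing all three labels;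
the corners of a cell are at distance `< δ` (`unitInterval × unitInterval` has the sup metric and
the mesh is `≤ 1/N`), so their `f`-values are pairwise `1/(4n)`-close and `α` takes at most two
values on three of them, hence `lab ∘ α ∘ f` takes at most two values: contradiction.
-/

open Set

namespace UW1

universe u

/-- clamped point of the unit interval -/
private noncomputable def bclamp (t : ℝ) : unitInterval := Set.projIcc 0 1 zero_le_one t

private lemma bclamp_dist (s t : ℝ) : dist (bclamp s) (bclamp t) ≤ |s - t| := by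
  have h := (LipschitzWith.projIcc (a := (0:ℝ)) (b := 1) zero_le_one).dist_le_mul s t
  simpa [bclamp, Real.dist_eq] using h

private lemma bclamp_coe (t : ℝ) : ((bclamp t : unitInterval) : ℝ) = max 0 (min 1 t) := by
  simp [bclamp, Set.coe_projIcc]

private lemma bclamp_zero {t : ℝ} (h : t ≤ 0) : bclamp t = 0 := by
  apply Subtype.ext
  rw [bclamp_coe]
  have : min 1 t ≤ 0 := le_trans (min_le_right _ _) h
  simpa using this

private lemma bclamp_one {t : ℝ} (h : 1 ≤ t) : bclamp t = 1 := by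
  apply Subtype.ext
  rw [bclamp_coe, min_eq_left h]
  simp

private lemma bclamp_le {s t : ℝ} (h0 : 0 ≤ s) (h : t ≤ s) :
    ((bclamp t : unitInterval) : ℝ) ≤ s := by
  rw [bclamp_coe]
  exact max_le h0 (le_trans (min_le_right _ _) h)

private lemma le_bclamp {s t : ℝ} (h1 : s ≤ 1) (h : s ≤ t) :
    s ≤ ((bclamp t : unitInterval) : ℝ) := by
  rw [bclamp_coe]
  exact le_trans (le_min h1 h) (le_max_right _ _)

private lemma fin3_of_ne_ne {x : Fin 3} (h0 : x ≠ 0) (h2 : x ≠ 2) : x = 1 := by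
  fin_cases x <;> simp_all

private lemma fin3_of_ne_ne' {x : Fin 3} (h0 : x ≠ 1) (h2 : x ≠ 2) : x = 0 := by
  fin_cases x <;> simp_all

/-- the three arcs of the boundary of the square -/
private def barc (u₀ : ℝ) (c : Fin 3) (q : unitInterval × unitInterval) : Prop :=
  (c = 0 → q.1 = 0 ∧ (q.2 : ℝ) ≤ u₀) ∧ (c = 1 → q.1 = 0 ∧ u₀ ≤ (q.2 : ℝ)) ∧ (c = 2 → q.1 = 1)

theorem bottleneck_of_map {Q : Type u} [MetricSpace Q] [SimplyConnectedSpace Q] {V : Type u}
    (K : Complex V) (hK : K.DimLe 1) (F₁ : Q → V → ℝ) (hF : Continuous F₁)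
    (hFK : ∀ x, F₁ x ∈ K.real) (w w' : ℝ) (hw0 : 0 ≤ w) (hw : w < w')
    (hfib : ∀ x y, F₁ x = F₁ y → dist x y ≤ w) : Bottleneck (3 * w' / 2) Q := by
  intro a b γ ℓ hγ F hJ t₀ ht₀
  rcases eq_or_lt_of_le hγ.nonneg with hℓ | hℓ
  · have ht : t₀ = 0 := le_antisymm (by rw [hℓ]; exact ht₀.2) ht₀.1
    refine ⟨a, hJ.source_mem, ?_⟩
    rw [ht, hγ.start, dist_self]
    linarith
  set P := hJ.somePath with hPdef
  have hPmem : ∀ t, P t ∈ F := hJ.somePath_mem
  have hmem : ∀ u : unitInterval, ℓ * (u : ℝ) ∈ Icc (0:ℝ) ℓ := by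
    intro u
    refine ⟨mul_nonneg hℓ.le u.2.1, ?_⟩
    have := u.2.2
    nlinarith
  have hcont : Continuous (fun u : unitInterval => γ (ℓ * (u : ℝ))) := by
    refine (LipschitzWith.of_dist_le_mul (K := Real.toNNReal ℓ) ?_).continuous
    intro s t
    rw [hγ.isom _ (hmem s) _ (hmem t), ← mul_sub, abs_mul, abs_of_pos hℓ,
      Real.coe_toNNReal _ hℓ.le, Subtype.dist_eq, Real.dist_eq]
  let σ : Path a b :=
    { toFun := fun u => γ (ℓ * (u : ℝ))
      continuous_toFun := hcont
      source' := by simp [hγ.start]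
      target' := by simp [hγ.finish] }
  have hσ : ∀ u : unitInterval, σ u = γ (ℓ * (u : ℝ)) := fun _ => rfl
  obtain ⟨H⟩ := SimplyConnectedSpace.paths_homotopic σ P
  set g : unitInterval × unitInterval → Q := fun q => H q with hg
  have hgc : Continuous g := H.continuous
  have hg0 : ∀ u, g (0, u) = γ (ℓ * (u : ℝ)) := by
    intro u
    exact ContinuousMap.HomotopyWith.apply_zero H u
  have hg1 : ∀ u, g (1, u) = P u := by
    intro u
    exact ContinuousMap.HomotopyWith.apply_one H u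
  have hga : ∀ s, g (s, 0) = a := fun s => H.source s
  have hgb : ∀ s, g (s, 1) = b := fun s => H.target s
  set f : unitInterval × unitInterval → V → ℝ := fun q => F₁ (g q) with hf
  have hfc : Continuous f := hF.comp hgc
  have hfK : ∀ q, f q ∈ K.real := fun q => hFK _
  obtain ⟨n, hn, hsep⟩ := sep f hfc g hgc w w' hw (fun x y h => hfib _ _ h)
  obtain ⟨α, hα1, hα2⟩ := exists_round K hK n hn
  have hnR : (0:ℝ) < n := by exact_mod_cast hn
  obtain ⟨δ, hδ, hunif⟩ := unif K f hfc hfK (1 / (4 * n)) (by positivity)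
  have hclose : ∀ x y, α (f x) = α (f y) → dist (g x) (g y) < w' := by
    intro x y hxy
    apply hsep
    intro v
    have h1 := hα1 (f x) (hfK x) v
    have h2 := hα1 (f y) (hfK y) v
    rw [hxy] at h1
    have h3 : f x v - f y v = (α (f y) v - f y v) - (α (f y) v - f x v) := by ring
    rw [h3]
    have h4 := abs_sub (α (f y) v - f y v) (α (f y) v - f x v)
    have h5 : (2:ℝ) / n = 1 / n + 1 / n := by ring
    rw [h5]
    linarith
  set u₀ : ℝ := t₀ / ℓ with hu₀
  have hu0 : 0 ≤ u₀ := div_nonneg ht₀.1 hℓ.le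
  have hu1 : u₀ ≤ 1 := by rw [hu₀, div_le_one hℓ]; exact ht₀.2
  have htu : t₀ = ℓ * u₀ := by rw [hu₀]; field_simp
  by_cases hT : ∃ a' : V → ℝ, ∀ c : Fin 3, ∃ q, barc u₀ c q ∧ α (f q) = a'
  · obtain ⟨a', ha'⟩ := hT
    obtain ⟨⟨s0, u1⟩, h0, e0⟩ := ha' 0
    obtain ⟨⟨s1, u2⟩, h1, e1⟩ := ha' 1
    obtain ⟨⟨s2, u3⟩, h2, e2⟩ := ha' 2
    obtain ⟨h0a, h0b⟩ := h0.1 rfl
    obtain ⟨h1a, h1b⟩ := h1.2.1 rfl
    have h2a := h2.2.2 rfl
    simp only at h0a h0b h1a h1b h2a
    subst h0a h1a h2a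
    have d01 := hclose _ _ (e0.trans e1.symm)
    have d02 := hclose _ _ (e0.trans e2.symm)
    have d12 := hclose _ _ (e1.trans e2.symm)
    rw [hg0, hg0, hγ.isom _ (hmem u1) _ (hmem u2)] at d01
    rw [hg0, hg1] at d02 d12
    have ht₀' : t₀ ∈ Icc 0 ℓ := ht₀
    have k1 : ℓ * (u1 : ℝ) ≤ t₀ := by rw [htu]; exact mul_le_mul_of_nonneg_left h0b hℓ.le
    have k2 : t₀ ≤ ℓ * (u2 : ℝ) := by rw [htu]; exact mul_le_mul_of_nonneg_left h1b hℓ.le
    have c1 : dist (γ t₀) (γ (ℓ * (u1 : ℝ))) = t₀ - ℓ * (u1 : ℝ) := by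
      rw [hγ.isom _ ht₀' _ (hmem u1), abs_of_nonneg (by linarith)]
    have c2 : dist (γ t₀) (γ (ℓ * (u2 : ℝ))) = ℓ * (u2 : ℝ) - t₀ := by
      rw [hγ.isom _ ht₀' _ (hmem u2), abs_of_nonpos (by linarith)]
      ring
    have c3 : ℓ * (u2 : ℝ) - ℓ * (u1 : ℝ) < w' := by
      have := neg_abs_le (ℓ * (u1 : ℝ) - ℓ * (u2 : ℝ))
      linarith
    refine ⟨P u3, hPmem u3, ?_⟩
    rcases le_total (t₀ - ℓ * (u1 : ℝ)) (w' / 2) with hh | hh
    · have := dist_triangle (γ t₀) (γ (ℓ * (u1 : ℝ))) (P u3)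
      linarith
    · have := dist_triangle (γ t₀) (γ (ℓ * (u2 : ℝ))) (P u3)
      linarith
  · exfalso
    push Not at hT
    choose lab hlab using hT
    have hlab' : ∀ (c : Fin 3) (q : unitInterval × unitInterval), barc u₀ c q →
        lab (α (f q)) ≠ c := by
      intro c q hq hc
      exact hlab (α (f q)) q (by rw [hc]; exact hq) rfl
    obtain ⟨N, hN⟩ := exists_nat_gt (1 / δ)
    have hNR : (0:ℝ) < N := lt_trans (by positivity) hN
    have hNδ : 1 / (N : ℝ) < δ := by
      rw [div_lt_iff₀ hNR]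
      rw [div_lt_iff₀ hδ] at hN
      linarith
    set X : ℕ → unitInterval := fun i => bclamp (u₀ + ((i : ℝ) - N) / N) with hX
    set Y : ℕ → unitInterval := fun j => bclamp ((j : ℝ) / (2 * N)) with hY
    set L : ℕ → ℕ → Fin 3 := fun i j => lab (α (f (Y j, X i))) with hL
    have hX0 : X 0 = 0 := by
      apply bclamp_zero
      have : (((0:ℕ) : ℝ) - N) / N = -1 := by
        push_cast
        field_simp
        ring
      rw [this]
      linarith
    have hX2 : X (2 * N) = 1 := by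
      apply bclamp_one
      have : (((2 * N : ℕ) : ℝ) - N) / N = 1 := by
        push_cast
        field_simp
        ring
      rw [this]
      linarith
    have hXle : ∀ i ≤ N, ((X i : unitInterval) : ℝ) ≤ u₀ := by
      intro i hi
      apply bclamp_le hu0
      have h1 : (i : ℝ) ≤ N := by exact_mod_cast hi
      have : ((i : ℝ) - N) / N ≤ 0 := div_nonpos_of_nonpos_of_nonneg (by linarith) hNR.le
      linarith
    have hXge : ∀ i, N ≤ i → u₀ ≤ ((X i : unitInterval) : ℝ) := by
      intro i hi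
      apply le_bclamp hu1
      have h1 : (N : ℝ) ≤ i := by exact_mod_cast hi
      have : 0 ≤ ((i : ℝ) - N) / N := div_nonneg (by linarith) hNR.le
      linarith
    have hY0 : Y 0 = 0 := by
      apply bclamp_zero
      simp
    have hY2 : Y (2 * N) = 1 := by
      apply bclamp_one
      have : ((2 * N : ℕ) : ℝ) / (2 * N) = 1 := by
        push_cast
        field_simp
      rw [this]
    have hfa : ∀ s, f (s, 0) = f (0, 0) := by
      intro s
      simp only [hf, hga]
    have hfb : ∀ s, f (s, 1) = f (0, 1) := by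
      intro s
      simp only [hf, hgb]
    have harc00 : barc u₀ 0 (0, 0) := by
      refine ⟨fun _ => ⟨rfl, by simpa using hu0⟩, fun h => by simp at h, fun h => by simp at h⟩
    have harc1 : barc u₀ 1 (0, 1) := by
      refine ⟨fun h => by simp at h, fun _ => ⟨rfl, by simpa using hu1⟩, fun h => by simp at h⟩
    have harc2 : ∀ u, barc u₀ 2 (1, u) := by
      intro u
      exact ⟨fun h => by simp at h, fun h => by simp at h, fun _ => rfl⟩
    have hleft : ∀ j ≤ 2 * N, L 0 j = 1 := by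
      intro j _
      have e1 : L 0 j = lab (α (f (0, 0))) := by
        simp only [hL, hX0]
        rw [hfa]
      have e2 : L 0 j = lab (α (f (1, 0))) := by
        rw [e1, hfa 1]
      refine fin3_of_ne_ne ?_ ?_
      · rw [e1]; exact hlab' 0 _ harc00
      · rw [e2]; exact hlab' 2 _ (harc2 0)
    have hright : ∀ j ≤ 2 * N, L (2 * N) j = 0 := by
      intro j _
      have e1 : L (2 * N) j = lab (α (f (0, 1))) := by
        simp only [hL, hX2]
        rw [hfb]
      have e2 : L (2 * N) j = lab (α (f (1, 1))) := by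
        rw [e1, hfb 1]
      refine fin3_of_ne_ne' ?_ ?_
      · rw [e1]; exact hlab' 1 _ harc1
      · rw [e2]; exact hlab' 2 _ (harc2 1)
    have htop : ∀ i ≤ 2 * N, L i (2 * N) ≠ 2 := by
      intro i _
      simp only [hL, hY2]
      exact hlab' 2 _ (harc2 _)
    have hbl : ∀ i ≤ N, L i 0 ≠ 0 := by
      intro i hi
      simp only [hL, hY0]
      exact hlab' 0 _ ⟨fun _ => ⟨rfl, hXle i hi⟩, fun h => by simp at h, fun h => by simp at h⟩
    have hbr : ∀ i, N ≤ i → i ≤ 2 * N → L i 0 ≠ 1 := by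
      intro i hi _
      simp only [hL, hY0]
      exact hlab' 1 _ ⟨fun h => by simp at h, fun _ => ⟨rfl, hXge i hi⟩, fun h => by simp at h⟩
    obtain ⟨i, _, j, _, hall⟩ := sperner_square (2 * N) N (by omega) L hleft hright htop hbl hbr
    have hdist : ∀ a b c d : ℕ, a ≤ 1 → b ≤ 1 → c ≤ 1 → d ≤ 1 →
        dist (Y (j + b), X (i + a)) (Y (j + d), X (i + c)) < δ := by
      intro a b c d ha hb hc hd
      have ha' : (a : ℝ) ≤ 1 := by exact_mod_cast ha
      have hb' : (b : ℝ) ≤ 1 := by exact_mod_cast hb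
      have hc' : (c : ℝ) ≤ 1 := by exact_mod_cast hc
      have hd' : (d : ℝ) ≤ 1 := by exact_mod_cast hd
      have ha0 : (0 : ℝ) ≤ a := Nat.cast_nonneg a
      have hb0 : (0 : ℝ) ≤ b := Nat.cast_nonneg b
      have hc0 : (0 : ℝ) ≤ c := Nat.cast_nonneg c
      have hd0 : (0 : ℝ) ≤ d := Nat.cast_nonneg d
      rw [Prod.dist_eq]
      refine max_lt ?_ ?_
      · refine lt_of_le_of_lt (bclamp_dist _ _) ?_
        have e : ((j + b : ℕ) : ℝ) / (2 * N) - ((j + d : ℕ) : ℝ) / (2 * N) =
            ((b : ℝ) - d) / (2 * N) := by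
          push_cast
          ring
        rw [e, abs_div, abs_of_pos (by positivity : (0:ℝ) < 2 * N)]
        have h1 : |(b : ℝ) - d| ≤ 1 := by rw [abs_le]; constructor <;> linarith
        calc |(b : ℝ) - d| / (2 * N) ≤ 1 / (2 * N) := by gcongr
          _ ≤ 1 / N := by
              apply one_div_le_one_div_of_le hNR
              linarith
          _ < δ := hNδ
      · refine lt_of_le_of_lt (bclamp_dist _ _) ?_
        have e : (u₀ + (((i + a : ℕ) : ℝ) - N) / N) - (u₀ + (((i + c : ℕ) : ℝ) - N) / N) =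
            ((a : ℝ) - c) / N := by
          push_cast
          ring
        rw [e, abs_div, abs_of_pos hNR]
        have h1 : |(a : ℝ) - c| ≤ 1 := by rw [abs_le]; constructor <;> linarith
        calc |(a : ℝ) - c| / N ≤ 1 / N := by gcongr
          _ < δ := hNδ
    obtain ⟨a0, b0, ha0, hb0, l0⟩ := hall 0
    obtain ⟨a1, b1, ha1, hb1, l1⟩ := hall 1
    obtain ⟨a2, b2, ha2, hb2, l2⟩ := hall 2
    have h01 := hunif _ _ (hdist a0 b0 a1 b1 ha0 hb0 ha1 hb1)
    have h12 := hunif _ _ (hdist a1 b1 a2 b2 ha1 hb1 ha2 hb2)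
    have h02 := hunif _ _ (hdist a0 b0 a2 b2 ha0 hb0 ha2 hb2)
    rcases hα2 _ (hfK _) _ (hfK _) _ (hfK _) h01 h12 h02 with h | h | h
    · have e : L (i + a0) (j + b0) = L (i + a1) (j + b1) := congrArg lab h
      rw [l0, l1] at e
      simp at e
    · have e : L (i + a1) (j + b1) = L (i + a2) (j + b2) := congrArg lab h
      rw [l1, l2] at e
      simp at e
    · have e : L (i + a0) (j + b0) = L (i + a2) (j + b2) := congrArg lab h
      rw [l0, l2] at e
      simp at e

end UW1
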