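import Pool.Agent.UW1.Defs

/-!
# UW1 package Exit: first and last passage of a level by a path

PROOF of `exit_level`. Let `P` be a path from `a` to `b` inside `F`, `T = sSup {t | f (P t) ≤ s}`
(a nonempty closed subset of `[0,1]`, it contains `0`). Then `f (P T) ≤ s` and `f (P t) > s` for
`t > T`; if `T < 1` continuity gives `f (P T) ≥ s`; if `T = 1` then `f b ≤ s ≤ f b`. So
`c = P T` has `f c = s`, and the restriction of `P` to `[T, 1]` stays in `F ∩ {s ≤ f}`.

PROOF of `touch_level`. Let `P` be a path from `a` to `b` in `F`. If `s ≤ f (P t)` for all `t`: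
first alternative. Otherwise `f (P t₀) < s` for some `t₀`; apply `exit_level` to the restriction
of `P` to `[t₀, 1]` and to the reversed restriction to `[0, t₀]` (i.e. `JoinedIn F (P t₀) a`).
-/

open Set

namespace UW1

private theorem sub_join {Q : Type*} [TopologicalSpace Q] {g : ℝ → Q} (hg : Continuous g)
    {u v : ℝ} {G : Set Q} (h : ∀ t ∈ uIcc u v, g t ∈ G) : JoinedIn G (g u) (g v) := by
  refine JoinedIn.ofLine (f := fun w => g (u + w * (v - u))) ?_ ?_ ?_ ?_
  · exact (hg.comp (by fun_prop)).continuousOn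
  · simp
  · simp
  · rintro _ ⟨w, hw, rfl⟩
    refine h _ ?_
    rw [mem_uIcc]
    have hw0 : 0 ≤ w := hw.1
    have hw1 : w ≤ 1 := hw.2
    rcases le_total u v with huv | huv
    · left
      constructor <;> nlinarith
    · right
      constructor <;> nlinarith

private theorem extend_mem {Q : Type*} [TopologicalSpace Q] {F : Set Q} {a b : Q}
    (P : Path a b) (hP : ∀ t, P t ∈ F) (t : ℝ) : P.extend t ∈ F := by
  have h := P.extend_range
  have h1 : P.extend t ∈ range P.extend := mem_range_self t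
  rw [h] at h1
  obtain ⟨u, hu⟩ := h1
  rw [← hu]
  exact hP u

theorem exit_level {Q : Type*} [TopologicalSpace Q] {f : Q → ℝ} (hf : Continuous f)
    {F : Set Q} {a b : Q} {s : ℝ} (h : JoinedIn F a b) (ha : f a ≤ s) (hb : s ≤ f b) :
    ∃ c ∈ F, f c = s ∧ JoinedIn (F ∩ {z | s ≤ f z}) c b := by
  obtain ⟨P, hP⟩ := h
  have hg : Continuous P.extend := P.continuous_extend
  have hF := extend_mem P hP
  have hfg : Continuous fun t : ℝ => f (P.extend t) := hf.comp hg
  set S : Set ℝ := Icc 0 1 ∩ {t | f (P.extend t) ≤ s} with hS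
  have hScl : IsCompact S := isCompact_Icc.inter_right (isClosed_le hfg continuous_const)
  have hSne : S.Nonempty := ⟨0, by simp, by simpa using ha⟩
  have hT : sSup S ∈ S := hScl.sSup_mem hSne
  set T := sSup S with hTd
  have hT0 : 0 ≤ T := hT.1.1
  have hT1 : T ≤ 1 := hT.1.2
  have hgt : ∀ t ∈ Ioc T 1, s ≤ f (P.extend t) := by
    intro t ht
    by_contra hlt
    have : t ∈ S := ⟨⟨hT0.trans ht.1.le, ht.2⟩, (not_le.1 hlt).le⟩
    exact absurd (le_csSup hScl.bddAbove this) (not_le.2 ht.1)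
  have hsT : s ≤ f (P.extend T) := by
    rcases hT1.lt_or_eq with h1 | h1
    · have hcl : IsClosed {t : ℝ | s ≤ f (P.extend t)} := isClosed_le continuous_const hfg
      have h2 : closure (Ioc T 1) ⊆ {t : ℝ | s ≤ f (P.extend t)} :=
        hcl.closure_subset_iff.2 hgt
      rw [closure_Ioc h1.ne] at h2
      exact h2 ⟨le_refl _, hT1⟩
    · rw [h1, P.extend_one]
      exact hb
  refine ⟨P.extend T, hF T, le_antisymm hT.2 hsT, ?_⟩
  have hj : JoinedIn (F ∩ {z | s ≤ f z}) (P.extend T) (P.extend 1) := by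
    refine sub_join hg fun t ht => ⟨hF t, ?_⟩
    rw [uIcc_of_le hT1] at ht
    rcases ht.1.lt_or_eq with h1 | h1
    · exact hgt t ⟨h1, ht.2⟩
    · rw [← h1]
      exact hsT
  rwa [P.extend_one] at hj

theorem touch_level {Q : Type*} [TopologicalSpace Q] {f : Q → ℝ} (hf : Continuous f)
    {F : Set Q} {a b : Q} {s : ℝ} (h : JoinedIn F a b) (ha : s ≤ f a) (hb : s ≤ f b) :
    JoinedIn (F ∩ {z | s ≤ f z}) a b ∨
      ((∃ c ∈ F, f c = s ∧ JoinedIn (F ∩ {z | s ≤ f z}) c a) ∧
        ∃ c ∈ F, f c = s ∧ JoinedIn (F ∩ {z | s ≤ f z}) c b) := by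
  obtain ⟨P, hP⟩ := h
  have hg : Continuous P.extend := P.continuous_extend
  have hF := extend_mem P hP
  by_cases hall : ∀ t : ℝ, s ≤ f (P.extend t)
  · left
    have hj : JoinedIn (F ∩ {z | s ≤ f z}) (P.extend 0) (P.extend 1) :=
      sub_join hg fun t _ => ⟨hF t, hall t⟩
    rwa [P.extend_one, P.extend_zero] at hj
  · right
    push Not at hall
    obtain ⟨t, ht⟩ := hall
    have hja : JoinedIn F (P.extend t) (P.extend 0) := sub_join hg fun t _ => hF t
    have hjb : JoinedIn F (P.extend t) (P.extend 1) := sub_join hg fun t _ => hF t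
    rw [P.extend_zero] at hja
    rw [P.extend_one] at hjb
    exact ⟨exit_level hf hja ht.le ha, exit_level hf hjb ht.le hb⟩

end UW1
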