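import Pool.Agent.UW1.Orbit
import Pool.Agent.UW1.Exit

/-!
# UW1 package Chi: the function `chi` along translates of a geodesic through `x`

Write `E = Eg G x r`, `O = Orb G x r`, `𝒮 = Out G x r s`, `δ z = infDist z O` (continuous),
`up = γ '' Icc τ ℓ`, `dn = γ '' Icc 0 τ`, `P₊ = Gate G x r s up`, `P₋ = Gate G x r s dn`.
PROOFS.
`chi_eq_of_joined`: `JoinedIn.trans`.
`chi_smul`: for `e ∈ E` translation by `e` preserves `𝒮`, the sphere and the gate sets (the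
condition `∃ k, ∃ a ∈ A, c = k • a` is invariant under all of `G`); map the path by `e • ·`,
resp. by `e⁻¹ • ·`.
`param_ge` : let `a = γ u`, `u ∈ [0, ℓ]`, `k : G` with `k • a ∈ Sph`. Then `r - 2 C ≤ |u - τ|`:
`dist (k • a) (k • x) = dist (γ u) (γ τ) = |u - τ|`. If `k ∈ E` then `k • x ∈ O`, so
`s ≤ |u - τ|`. If `k ∉ E`, take `o ∈ O` with `dist (k • a) o = s`; by `far`
`2 r ≤ dist (k • x) o ≤ |u - τ| + s`, so `|u - τ| ≥ 2 r - s = r - 2 C`.
`claimA`: `c = k • γ u`, `c' = k' • γ u'` with `u ∈ [τ, ℓ]`, `u' ∈ [0, τ]`. If they are joined in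
`𝒮` then `gate` (with `orb_joined`) gives `dist c c' ≤ 6 C`; but
`dist (k • γ u) (k' • γ u') = dist (γ u) ((k⁻¹ * k') • γ u') ≥ |u - u'| = |u - τ| + |τ - u'|
≥ 2 (r - 2 C) > 6 C` as `r > 5 C`. Contradiction.
`own`: `k ∈ E`. The translate `k • γ` joins `k • x` (with `δ = 0 ≤ s`) to `k • γ ℓ` inside
`F = (k • ·) '' up`, and `δ (k • γ ℓ) ≥ s`: for `o = e • x`,
`dist (k • γ ℓ) (e • x) = dist (γ ℓ) ((k⁻¹ * e) • γ τ) ≥ ℓ - τ > s` by `min`. `exit_level` gives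
`c ∈ F`, `δ c = s`, i.e. `c ∈ P₊`, joined in `𝒮` to `k • γ ℓ`: so `chi = 1`. In the same way
`k • γ 0` is joined in `𝒮` to some `c' ∈ P₋`; if it were joined to some `c ∈ P₊` then `c` and `c'`
would be joined in `𝒮`, contradicting `claimA`: so `chi (k • γ 0) = 0`.
`foreign`: `k ∉ E`. `δ (k • x) ≥ 2 r ≥ s` by `far` (`r > 5 C > 2 C`), and `δ (k • γ ℓ)`,
`δ (k • γ 0) ≥ s` as above (the lower bound holds for all `k : G`). Apply `touch_level` to the
path from `k • x` to `k • γ ℓ` inside `(k • ·) '' up`: either `k • x` and `k • γ ℓ` are joined in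
`𝒮`, so `chi` agrees; or both are joined in `𝒮` to points of `P₊`, so both values of `chi` are
`1`. Apply `touch_level` to the path from `k • x` to `k • γ 0` inside `(k • ·) '' dn`: either they
are joined in `𝒮`, or both are joined in `𝒮` to points of `P₋`, and then both values are `0` by
`claimA`. In all cases `chi (k • γ ℓ) = chi (k • x) = chi (k • γ 0)`.
-/

open Set Metric

namespace UW1

/-- `γ` is a geodesic on `[0, ℓ]` whose projection to the quotient by `G` is still a geodesic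
(`min`), which passes through `x` at time `τ` and leaves the `s`-ball around `x` on both sides. -/
structure Cross (G : Type*) {Q : Type*} [MetricSpace Q] [Group G] [MulAction G Q]
    (γ : ℝ → Q) (ℓ τ s : ℝ) (x : Q) : Prop where
  geod : IsGeod γ ℓ (γ 0) (γ ℓ)
  low : s < τ
  high : s < ℓ - τ
  mid : γ τ = x
  min : ∀ u ∈ Icc 0 ℓ, ∀ t ∈ Icc 0 ℓ, ∀ g : G, |u - t| ≤ dist (γ u) (g • γ t)

variable {G Q : Type*} [MetricSpace Q] [Group G] [MulAction G Q] [IsIsometricSMul G Q]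
  {x : Q} {r s C : ℝ}

private theorem chi_joined_map {X Y : Type*} [TopologicalSpace X] [TopologicalSpace Y]
    {f : X → Y} (hf : Continuous f) {F : Set X} {F' : Set Y} (hFF : ∀ z ∈ F, f z ∈ F') {a b : X}
    (h : JoinedIn F a b) : JoinedIn F' (f a) (f b) := by
  obtain ⟨p, hp⟩ := h
  exact ⟨p.map hf, fun t => hFF _ (hp t)⟩

private theorem chi_joined_smul {e : G} {F F' : Set Q} (hFF : ∀ z ∈ F, e • z ∈ F') {a b : Q}
    (h : JoinedIn F a b) : JoinedIn F' (e • a) (e • b) :=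
  chi_joined_map (isometry_smul Q e).continuous hFF h

theorem chi_eq_of_joined {A : Set Q} {z z' : Q} (h : JoinedIn (Out G x r s) z z') :
    chi G x r s A z = chi G x r s A z' := by
  have h1 : (∃ c ∈ Gate G x r s A, JoinedIn (Out G x r s) c z) ↔
      ∃ c ∈ Gate G x r s A, JoinedIn (Out G x r s) c z' :=
    ⟨fun ⟨c, hc, hj⟩ => ⟨c, hc, hj.trans h⟩, fun ⟨c, hc, hj⟩ => ⟨c, hc, hj.trans h.symm⟩⟩
  classical
  exact if_congr h1 rfl rfl

private theorem chi_gate_smul {A : Set Q} {e : G} (he : e ∈ Eg G x r) {c : Q}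
    (hc : c ∈ Gate G x r s A) : e • c ∈ Gate G x r s A := by
  obtain ⟨h1, k, a, ha, rfl⟩ := hc
  exact ⟨(smul_mem_sph_iff he).2 h1, e * k, a, ha, (mul_smul e k a).symm⟩

theorem chi_smul {A : Set Q} {e : G} (he : e ∈ Eg G x r) (z : Q) :
    chi G x r s A (e • z) = chi G x r s A z := by
  have key : ∀ (e : G), e ∈ Eg G x r → ∀ z, (∃ c ∈ Gate G x r s A,
      JoinedIn (Out G x r s) c z) → ∃ c ∈ Gate G x r s A, JoinedIn (Out G x r s) c (e • z) := by
    rintro e he z ⟨c, hc, hj⟩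
    exact ⟨e • c, chi_gate_smul he hc,
      chi_joined_smul (fun v hv => (smul_mem_out_iff he).2 hv) hj⟩
  have h1 : (∃ c ∈ Gate G x r s A, JoinedIn (Out G x r s) c (e • z)) ↔
      ∃ c ∈ Gate G x r s A, JoinedIn (Out G x r s) c z := by
    refine ⟨fun h => ?_, key e he z⟩
    have h2 := key e⁻¹ ((Eg G x r).inv_mem he) _ h
    rwa [inv_smul_smul] at h2
  classical
  exact if_congr h1 rfl rfl

omit [IsIsometricSMul G Q] in
private theorem chi_tau {γ : ℝ → Q} {ℓ τ : ℝ} (hX : Cross G γ ℓ τ s x) (hs : 0 < s) :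
    τ ∈ Icc 0 ℓ := by
  have h1 := hX.low
  have h2 := hX.high
  exact ⟨by linarith, by linarith⟩

private theorem chi_param {γ : ℝ → Q} {ℓ τ : ℝ} (hX : Cross G γ ℓ τ s x) (hC : 0 < C)
    (hr : 5 * C < r) (hs : s = r + 2 * C) {u : ℝ} (hu : u ∈ Icc 0 ℓ) {k : G}
    (hk : k • γ u ∈ Sph G x r s) : r - 2 * C ≤ |u - τ| := by
  have hτ := chi_tau hX (by linarith)
  have h1 : dist (k • γ u) (k • x) = |u - τ| := by
    rw [dist_smul, ← hX.mid]
    exact hX.geod.isom u hu τ hτ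
  obtain ⟨hO, o, ho, hd⟩ := hk
  by_cases hkE : k ∈ Eg G x r
  · have h2 := hO (k • x) (smul_mem_orb hkE self_mem_orb)
    rw [h1] at h2
    linarith
  · have h2 := far hkE ho
    have h3 := dist_triangle (k • x) (k • γ u) o
    rw [dist_comm (k • x) (k • γ u), h1, hd] at h3
    linarith

private theorem chi_two {γ : ℝ → Q} {ℓ τ : ℝ} (hX : Cross G γ ℓ τ s x) {u t : ℝ}
    (hu : u ∈ Icc 0 ℓ) (ht : t ∈ Icc 0 ℓ) (k k' : G) :
    |u - t| ≤ dist (k • γ u) (k' • γ t) := by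
  have h1 := hX.min u hu t ht (k⁻¹ * k')
  have h2 : dist (k • γ u) (k' • γ t) = dist (γ u) ((k⁻¹ * k') • γ t) := by
    rw [mul_smul, ← dist_smul k (γ u), smul_inv_smul]
  rwa [h2]

theorem claimA (hQ : Geodesic Q) (hL : LocFin G Q) (hC : 0 < C) (hr : 5 * C < r)
    (hs : s = r + 2 * C) (hB : Bottleneck C Q) {γ : ℝ → Q} {ℓ τ : ℝ}
    (hX : Cross G γ ℓ τ s x) {c c' : Q} (hc : c ∈ Gate G x r s (γ '' Icc τ ℓ))
    (hc' : c' ∈ Gate G x r s (γ '' Icc 0 τ)) : ¬ JoinedIn (Out G x r s) c c' := by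
  intro hj
  have hτ := chi_tau hX (by linarith)
  have h1 : dist c c' ≤ 6 * C := gate hQ hC.le (by linarith) hs hB (Orb G x r)
    (orb_joined hQ (by linarith)) hc.1.2 hc'.1.2 hj
  obtain ⟨hcS, k, _, ⟨u, hu, rfl⟩, rfl⟩ := hc
  obtain ⟨hcS', k', _, ⟨u', hu', rfl⟩, rfl⟩ := hc'
  have hu1 : u ∈ Icc 0 ℓ := ⟨hτ.1.trans hu.1, hu.2⟩
  have hu2 : u' ∈ Icc 0 ℓ := ⟨hu'.1, hu'.2.trans hτ.2⟩
  have h2 := chi_param hX hC hr hs hu1 hcS
  have h3 := chi_param hX hC hr hs hu2 hcS'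
  have h4 := chi_two hX hu1 hu2 k k'
  rw [abs_of_nonneg (by linarith [hu.1])] at h2
  rw [abs_of_nonpos (by linarith [hu'.2])] at h3
  have h5 := le_abs_self (u - u')
  linarith

/-- Far points of the translates. -/
private theorem chi_far {γ : ℝ → Q} {ℓ τ : ℝ} (hX : Cross G γ ℓ τ s x) (hs : 0 < s) {u : ℝ}
    (hu : u ∈ Icc 0 ℓ) (hus : s ≤ |u - τ|) (k : G) :
    s ≤ infDist (k • γ u) (Orb G x r) := by
  rw [← mem_out_iff]
  rintro _ ⟨e, he, rfl⟩
  have h1 := chi_two hX hu (chi_tau hX hs) k e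
  rw [hX.mid] at h1
  exact hus.trans h1

private theorem chi_sub {F : Set Q} :
    F ∩ {z | s ≤ infDist z (Orb G x r)} ⊆ Out G x r s :=
  fun _ hz => mem_out_iff.2 hz.2

/-- Exit points are gate points. -/
private theorem chi_gate (hL : LocFin G Q) {A : Set Q} {k : G} {c : Q}
    (hc : c ∈ (fun z => k • z) '' A) (hd : infDist c (Orb G x r) = s) : c ∈ Gate G x r s A := by
  obtain ⟨a, ha, rfl⟩ := hc
  exact ⟨(mem_sph_iff hL).2 hd, k, a, ha, rfl⟩

private theorem chi_up {γ : ℝ → Q} {ℓ τ : ℝ} (hX : Cross G γ ℓ τ s x) (hs : 0 < s) (k : G) :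
    JoinedIn ((fun z => k • z) '' (γ '' Icc τ ℓ)) (k • γ τ) (k • γ ℓ) := by
  have hτ := chi_tau hX hs
  exact chi_joined_smul (fun z hz => mem_image_of_mem (fun z => k • z) hz)
    (hX.geod.joinedIn hτ ⟨hτ.1.trans hτ.2, le_rfl⟩ hτ.2)

private theorem chi_dn {γ : ℝ → Q} {ℓ τ : ℝ} (hX : Cross G γ ℓ τ s x) (hs : 0 < s) (k : G) :
    JoinedIn ((fun z => k • z) '' (γ '' Icc 0 τ)) (k • γ τ) (k • γ 0) := by
  have hτ := chi_tau hX hs
  exact (chi_joined_smul (fun z hz => mem_image_of_mem (fun z => k • z) hz)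
    (hX.geod.joinedIn ⟨le_rfl, hτ.1.trans hτ.2⟩ hτ hτ.1)).symm

omit [IsIsometricSMul G Q] in
private theorem chi_one {A : Set Q} {z : Q}
    (h : ∃ c ∈ Gate G x r s A, JoinedIn (Out G x r s) c z) : chi G x r s A z = 1 :=
  if_pos h

private theorem chi_zero (hQ : Geodesic Q) (hL : LocFin G Q) (hC : 0 < C) (hr : 5 * C < r)
    (hs : s = r + 2 * C) (hB : Bottleneck C Q) {γ : ℝ → Q} {ℓ τ : ℝ}
    (hX : Cross G γ ℓ τ s x) {z : Q}
    (h : ∃ c ∈ Gate G x r s (γ '' Icc 0 τ), JoinedIn (Out G x r s) c z) :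
    chi G x r s (γ '' Icc τ ℓ) z = 0 := by
  refine if_neg ?_
  rintro ⟨c, hc, hj⟩
  obtain ⟨c', hc', hj'⟩ := h
  exact claimA hQ hL hC hr hs hB hX hc hc' (hj.trans hj'.symm)

theorem own (hQ : Geodesic Q) (hL : LocFin G Q) (hC : 0 < C) (hr : 5 * C < r)
    (hs : s = r + 2 * C) (hB : Bottleneck C Q) {γ : ℝ → Q} {ℓ τ : ℝ}
    (hX : Cross G γ ℓ τ s x) {k : G} (hk : k ∈ Eg G x r) :
    chi G x r s (γ '' Icc τ ℓ) (k • γ ℓ) = 1 ∧ chi G x r s (γ '' Icc τ ℓ) (k • γ 0) = 0 := by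
  have hs0 : 0 < s := by linarith
  have hτ := chi_tau hX hs0
  have hf : Continuous (fun z => infDist z (Orb G x r)) := continuous_infDist_pt _
  have h0 : infDist (k • γ τ) (Orb G x r) ≤ s := by
    rw [hX.mid, infDist_zero_of_mem (smul_mem_orb hk self_mem_orb)]
    exact hs0.le
  constructor
  · have h1 : s ≤ infDist (k • γ ℓ) (Orb G x r) := by
      refine chi_far hX hs0 ⟨hτ.1.trans hτ.2, le_rfl⟩ ?_ k
      exact hX.high.le.trans (le_abs_self _)
    obtain ⟨c, hc, hd, hj⟩ := exit_level hf (chi_up hX hs0 k) h0 h1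
    exact chi_one ⟨c, chi_gate hL hc hd, hj.mono chi_sub⟩
  · have h1 : s ≤ infDist (k • γ 0) (Orb G x r) := by
      refine chi_far hX hs0 ⟨le_rfl, hτ.1.trans hτ.2⟩ ?_ k
      rw [abs_sub_comm, sub_zero]
      exact hX.low.le.trans (le_abs_self _)
    obtain ⟨c, hc, hd, hj⟩ := exit_level hf (chi_dn hX hs0 k) h0 h1
    exact chi_zero hQ hL hC hr hs hB hX ⟨c, chi_gate hL hc hd, hj.mono chi_sub⟩

theorem foreign (hQ : Geodesic Q) (hL : LocFin G Q) (hC : 0 < C) (hr : 5 * C < r)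
    (hs : s = r + 2 * C) (hB : Bottleneck C Q) {γ : ℝ → Q} {ℓ τ : ℝ}
    (hX : Cross G γ ℓ τ s x) {k : G} (hk : k ∉ Eg G x r) :
    chi G x r s (γ '' Icc τ ℓ) (k • γ ℓ) = chi G x r s (γ '' Icc τ ℓ) (k • γ 0) := by
  have hs0 : 0 < s := by linarith
  have hτ := chi_tau hX hs0
  have hf : Continuous (fun z => infDist z (Orb G x r)) := continuous_infDist_pt _
  have h0 : s ≤ infDist (k • γ τ) (Orb G x r) := by
    rw [← mem_out_iff, hX.mid]
    intro o ho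
    have h1 := far hk ho
    linarith
  have hup : chi G x r s (γ '' Icc τ ℓ) (k • γ τ) = chi G x r s (γ '' Icc τ ℓ) (k • γ ℓ) := by
    have h1 : s ≤ infDist (k • γ ℓ) (Orb G x r) := by
      refine chi_far hX hs0 ⟨hτ.1.trans hτ.2, le_rfl⟩ ?_ k
      exact hX.high.le.trans (le_abs_self _)
    rcases touch_level hf (chi_up hX hs0 k) h0 h1 with h2 |
      ⟨⟨c, hc, hd, hj⟩, ⟨c', hc', hd', hj'⟩⟩
    · exact chi_eq_of_joined (h2.mono chi_sub)
    · rw [chi_one ⟨c, chi_gate hL hc hd, hj.mono chi_sub⟩,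
        chi_one ⟨c', chi_gate hL hc' hd', hj'.mono chi_sub⟩]
  have hdn : chi G x r s (γ '' Icc τ ℓ) (k • γ τ) = chi G x r s (γ '' Icc τ ℓ) (k • γ 0) := by
    have h1 : s ≤ infDist (k • γ 0) (Orb G x r) := by
      refine chi_far hX hs0 ⟨le_rfl, hτ.1.trans hτ.2⟩ ?_ k
      rw [abs_sub_comm, sub_zero]
      exact hX.low.le.trans (le_abs_self _)
    rcases touch_level hf (chi_dn hX hs0 k) h0 h1 with h2 |
      ⟨⟨c, hc, hd, hj⟩, ⟨c', hc', hd', hj'⟩⟩
    · exact chi_eq_of_joined (h2.mono chi_sub)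
    · rw [chi_zero hQ hL hC hr hs hB hX ⟨c, chi_gate hL hc hd, hj.mono chi_sub⟩,
        chi_zero hQ hL hC hr hs hB hX ⟨c', chi_gate hL hc' hd', hj'.mono chi_sub⟩]
  rw [← hup, hdn]

end UW1
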