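import Pool.Agent.UW1.GateLemma

/-!
# UW1 package Conn: lifting connectedness to `Q` without lifting paths

PROOF of `joined_lift`. Put `W = {b ∈ V | ∃ z : Q, p z = b ∧ JoinedIn (p ⁻¹' V) y z}`.
Key fact: if `b, b' ∈ X`, `ball b ε ⊆ V`, `dist b b' < ε` and `z` is a lift of `b` then some lift
`z'` of `b'` is joined to `z` in `p ⁻¹' V`: `attained` gives `g` with
`dist z (g • z'') = dist b b' < ε` for any lift `z''` of `b'`; put `z' = g • z''` (`p z' = b'` by
`IsQuot.map_smul`); a geodesic of `Q` from `z` to `z'` stays in `ball z ε` and `p` is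
`1`-Lipschitz (`le` with `g = 1`), so its image stays in `ball b ε ⊆ V`.
So `W` is open in `V` and `V \ W` is open in `V` (if `b' ∈ V \ W` had points `b ∈ W` arbitrarily
close, apply the key fact to `b'`, `b` and any lift of `b'`: with `ball b' ε ⊆ V` and
`dist b' b < ε`: from the lift `z` of `b` which is joined to `y`, a lift `z'` of `b'` is joined to
`z` by a geodesic contained in `ball z' ε`). `V` is preconnected and `p y ∈ W`, so `W = V`
(`IsPreconnected.subset_of_disjoint` or `isPreconnected_iff_subset_of_disjoint`). Finally a lift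
of `p z` is of the form `g • z` (`IsQuot.exists_smul`).
`IsQuot.map_smul`: `dist (p (g • y)) (p y) ≤ dist (g • y) (g • y) = 0`.
`IsQuot.exists_smul`: `p y = p z` gives `g` with `dist y (g • z) = 0`.
`IsQuot.geodesic`: for `a, b : X` choose lifts with `dist y z = dist a b` (attained), a geodesic
`γ` of `Q` from `y` to `z`, and take `p ∘ γ`: it is `1`-Lipschitz and its endpoints are at distance
`ℓ`, hence it is isometric on `[0, ℓ]`.
-/

open Set Metric

namespace UW1

variable {G Q X : Type*} [MetricSpace Q] [MetricSpace X] [Group G] [MulAction G Q]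
  [IsIsometricSMul G Q] {p : Q → X}

theorem IsQuot.map_smul (hp : IsQuot G p) (g : G) (y : Q) : p (g • y) = p y := by
  have h := hp.le g (g • y) y
  rw [dist_self] at h
  exact dist_le_zero.1 h

theorem IsQuot.exists_smul (hp : IsQuot G p) {y z : Q} (h : p y = p z) :
    ∃ g : G, y = g • z := by
  obtain ⟨g, hg⟩ := hp.attained y z
  rw [h, dist_self] at hg
  exact ⟨g, eq_of_dist_eq_zero hg⟩

theorem IsQuot.lip (hp : IsQuot G p) (y z : Q) : dist (p y) (p z) ≤ dist y z := by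
  have h := hp.le 1 y z
  rwa [one_smul] at h

theorem IsQuot.geodesic (hQ : Geodesic Q) (hp : IsQuot G p) : Geodesic X := by
  intro a b
  obtain ⟨y, rfl⟩ := hp.surj a
  obtain ⟨z, rfl⟩ := hp.surj b
  obtain ⟨g, hg⟩ := hp.attained y z
  obtain ⟨γ, hγ⟩ := hQ y (g • z)
  rw [hg] at hγ
  have key : ∀ s ∈ Icc 0 (dist (p y) (p z)), ∀ t ∈ Icc 0 (dist (p y) (p z)), s ≤ t →
      dist (p (γ s)) (p (γ t)) = t - s := by
    intro s hs t ht hst
    have h1 : dist (p (γ s)) (p (γ t)) ≤ t - s := by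
      refine (hp.lip _ _).trans ?_
      rw [hγ.isom s hs t ht, abs_sub_comm, abs_of_nonneg (sub_nonneg.2 hst)]
    have h0 : (0 : ℝ) ∈ Icc 0 (dist (p y) (p z)) := ⟨le_rfl, dist_nonneg⟩
    have hl : dist (p y) (p z) ∈ Icc 0 (dist (p y) (p z)) := ⟨dist_nonneg, le_rfl⟩
    have h2 : dist (p y) (p (γ s)) ≤ s := by
      refine (hp.lip _ _).trans ?_
      have h3 := hγ.isom 0 h0 s hs
      rw [hγ.start] at h3
      rw [h3, zero_sub, abs_neg, abs_of_nonneg hs.1]
    have h3 : dist (p (γ t)) (p z) ≤ dist (p y) (p z) - t := by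
      rw [← hp.map_smul g z]
      refine (hp.lip _ _).trans ?_
      have h4 := hγ.isom t ht _ hl
      rw [hγ.finish] at h4
      rw [h4, hp.map_smul, abs_sub_comm, abs_of_nonneg (sub_nonneg.2 ht.2)]
    have h4 := dist_triangle4 (p y) (p (γ s)) (p (γ t)) (p z)
    linarith
  refine ⟨fun t => p (γ t), dist_nonneg, ?_, ?_, ?_⟩
  · simp only [hγ.start]
  · simp only [hγ.finish, hp.map_smul]
  · intro s hs t ht
    rcases le_total s t with h | h
    · rw [key s hs t ht h, abs_sub_comm, abs_of_nonneg (sub_nonneg.2 h)]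
    · rw [dist_comm, key t ht s hs h, abs_of_nonneg (sub_nonneg.2 h)]

private theorem conn_key (hQ : Geodesic Q) (hp : IsQuot G p) {V : Set X} {z z' : Q} {ε : ℝ}
    (hV : ball (p z) ε ⊆ V) (hd : dist z z' < ε) : JoinedIn (p ⁻¹' V) z z' := by
  obtain ⟨γ, hγ⟩ := hQ z z'
  have hmem : ∀ t ∈ unitInterval, t * dist z z' ∈ Icc 0 (dist z z') := fun t ht =>
    ⟨mul_nonneg ht.1 dist_nonneg, mul_le_of_le_one_left dist_nonneg ht.2⟩
  refine JoinedIn.ofLine (f := fun t => γ (t * dist z z')) ?_ ?_ ?_ ?_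
  · intro t ht
    rw [Metric.continuousWithinAt_iff]
    intro δ hδ
    refine ⟨δ / (dist z z' + 1), by positivity, fun s hs hst => ?_⟩
    rw [hγ.isom _ (hmem s hs) _ (hmem t ht), ← sub_mul, abs_mul, abs_of_nonneg dist_nonneg]
    rw [Real.dist_eq] at hst
    have h1 : |s - t| * (dist z z' + 1) < δ := (lt_div_iff₀ (by positivity)).1 hst
    have h2 : 0 ≤ |s - t| := abs_nonneg _
    nlinarith
  · simp only [zero_mul, hγ.start]
  · simp only [one_mul, hγ.finish]
  · rintro _ ⟨t, ht, rfl⟩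
    apply hV
    rw [mem_ball, dist_comm]
    refine (hp.lip _ _).trans_lt ?_
    have h0 : (0 : ℝ) ∈ Icc 0 (dist z z') := ⟨le_rfl, dist_nonneg⟩
    have h1 := hγ.isom 0 h0 _ (hmem t ht)
    rw [hγ.start, zero_sub, abs_neg, abs_of_nonneg (hmem t ht).1] at h1
    rw [h1]
    exact (hmem t ht).2.trans_lt hd

theorem joined_lift (hQ : Geodesic Q) (hp : IsQuot G p) {V : Set X} (hV : IsOpen V)
    (hc : IsPreconnected V) {y z : Q} (hy : p y ∈ V) (hz : p z ∈ V) :
    ∃ g : G, JoinedIn (p ⁻¹' V) y (g • z) := by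
  set W : Set X := {b | ∃ z : Q, p z = b ∧ JoinedIn (p ⁻¹' V) y z} with hW
  have h1 : IsOpen (V ∩ W) := by
    rw [Metric.isOpen_iff]
    rintro b ⟨hb, z, rfl, hz⟩
    obtain ⟨ε, hε, hball⟩ := Metric.isOpen_iff.1 hV _ hb
    refine ⟨ε, hε, fun b' hb' => ⟨hball hb', ?_⟩⟩
    obtain ⟨z'', rfl⟩ := hp.surj b'
    obtain ⟨g, hg⟩ := hp.attained z z''
    refine ⟨g • z'', hp.map_smul g z'', hz.trans (conn_key hQ hp hball ?_)⟩
    rw [hg, dist_comm]
    exact hb'
  have h2 : IsOpen (V ∩ Wᶜ) := by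
    rw [Metric.isOpen_iff]
    rintro b' ⟨hb', hn⟩
    obtain ⟨ε, hε, hball⟩ := Metric.isOpen_iff.1 hV _ hb'
    refine ⟨ε, hε, fun b hb => ⟨hball hb, ?_⟩⟩
    rintro ⟨z, rfl, hz⟩
    apply hn
    obtain ⟨z'', rfl⟩ := hp.surj b'
    obtain ⟨g, hg⟩ := hp.attained z z''
    refine ⟨g • z'', hp.map_smul g z'', hz.trans (JoinedIn.symm ?_)⟩
    refine conn_key hQ hp (ε := ε) ?_ ?_
    · rw [hp.map_smul]
      exact hball
    · rw [dist_comm, hg]
      exact hb
  have h3 : V ⊆ V ∩ W := by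
    refine IsPreconnected.subset_left_of_subset_union h1 h2 ?_ ?_ ?_ hc
    · rw [Set.disjoint_left]
      rintro b ⟨-, hb⟩ ⟨-, hb'⟩
      exact hb' hb
    · intro b hb
      by_cases h : b ∈ W
      · exact Or.inl ⟨hb, h⟩
      · exact Or.inr ⟨hb, h⟩
    · exact ⟨p y, hy, hy, y, rfl, JoinedIn.refl hy⟩
  obtain ⟨-, z₀, hz₀, hj⟩ := h3 hz
  obtain ⟨g, rfl⟩ := hp.exists_smul hz₀
  exact ⟨g, hj⟩

end UW1
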