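import Pool.Agent.UW1.Defs

/-!
# UW1 package Local: local isometries and geodesics

PROOFS. `locPath`: open balls are path connected (each point is joined to the centre by a
geodesic inside the ball); `LocallyPathConnectedSpace` from the basis of balls
(`LocallyPathConnectedSpace.of_bases` or whatever the current name is).
`dist_le_of_local`: let `Γ` be continuous on `[0, 1]` and suppose that for every `t ∈ [0, 1]`
there is `ε > 0` with `dist (Γ t) (Γ t') ≤ K |t - t'|` for all `t' ∈ [0, 1]`, `|t - t'| < ε`. Then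
`dist (Γ 0) (Γ 1) ≤ K`: the set of `t ∈ [0, 1]` with `dist (Γ 0) (Γ t) ≤ K t` is closed, contains
`0`, and if it contains `t < 1` then it contains all `t' ∈ (t, t + ε)`
(`IsClosed.Icc_subset_of_forall_exists_gt`).
`LocIso.continuous`: clear. `LocIso.lip`: `Γ = p ∘ γ` (rescaled geodesic from `y` to `z`),
`K = dist y z`. `lift_geod`: let `γ` be a geodesic of `X` from `p y` to `b` of length `ℓ`; lift the
path `u ↦ γ (ℓ u)` to a path `Γ` of `Q` starting at `y` (`IsCoveringMap.liftPath`,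
`liftPath_lifts`, `liftPath_zero`); near each `t`, `Γ t'` lies in the ball of `LocIso` around
`Γ t`, so `dist (Γ t) (Γ t') = dist (γ (ℓ t)) (γ (ℓ t')) = ℓ |t - t'|`; `dist_le_of_local` gives
`dist y (Γ 1) ≤ ℓ = dist (p y) b`, and `p (Γ 1) = b`.
-/

open Set Metric

namespace UW1

/-- `p` is a local isometry: every point has a ball on which `p` preserves distances. -/
def LocIso {Q X : Type*} [MetricSpace Q] [MetricSpace X] (p : Q → X) : Prop :=
  ∀ z : Q, ∃ r > 0, ∀ y ∈ ball z r, ∀ y' ∈ ball z r, dist (p y) (p y') = dist y y'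

/-- a geodesic, rescaled to the unit interval, is continuous -/
private theorem local_cont {X : Type*} [MetricSpace X] {γ : ℝ → X} {ℓ : ℝ} {a b : X}
    (h : IsGeod γ ℓ a b) : ContinuousOn (fun u => γ (ℓ * u)) (Icc 0 1) := by
  have hm : ∀ u ∈ Icc (0 : ℝ) 1, ℓ * u ∈ Icc 0 ℓ := fun u hu =>
    ⟨mul_nonneg h.nonneg hu.1, mul_le_of_le_one_right h.nonneg hu.2⟩
  rw [Metric.continuousOn_iff]
  intro u hu ε hε
  refine ⟨ε / (ℓ + 1), div_pos hε (by linarith [h.nonneg]), fun v hv hvu => ?_⟩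
  rw [h.isom _ (hm v hv) _ (hm u hu), ← mul_sub, abs_mul, abs_of_nonneg h.nonneg]
  rw [Real.dist_eq, lt_div_iff₀ (by linarith [h.nonneg])] at hvu
  nlinarith [abs_nonneg (v - u), h.nonneg]

theorem locPath {X : Type*} [MetricSpace X] (hX : Geodesic X) :
    LocallyPathConnectedSpace X := by
  refine LocallyPathConnectedSpace.of_bases (fun x => nhds_basis_ball (x := x)) ?_
  intro x r hr
  refine ⟨x, mem_ball_self hr, fun {y} hy => ?_⟩
  obtain ⟨γ, hγ⟩ := hX x y
  refine JoinedIn.ofLine (f := fun u => γ (dist x y * u)) (local_cont hγ) ?_ ?_ ?_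
  · simp only [mul_zero]; exact hγ.start
  · simp only [mul_one]; exact hγ.finish
  · rintro _ ⟨u, hu, rfl⟩
    have h1 : dist x (γ (dist x y * u)) = dist x y * u := by
      have h2 := hγ.isom 0 ⟨le_rfl, hγ.nonneg⟩ (dist x y * u)
        ⟨mul_nonneg hγ.nonneg hu.1, mul_le_of_le_one_right hγ.nonneg hu.2⟩
      rw [hγ.start, zero_sub, abs_neg, abs_of_nonneg (mul_nonneg hγ.nonneg hu.1)] at h2
      exact h2
    show γ (dist x y * u) ∈ ball x r
    rw [mem_ball, dist_comm, h1]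
    refine lt_of_le_of_lt (mul_le_of_le_one_right hγ.nonneg hu.2) ?_
    rwa [dist_comm, ← mem_ball]

theorem dist_le_of_local {Y : Type*} [MetricSpace Y] (Γ : ℝ → Y) (K : ℝ)
    (hΓ : ContinuousOn Γ (Icc 0 1))
    (h : ∀ t ∈ Icc (0 : ℝ) 1, ∃ ε > 0, ∀ t' ∈ Icc (0 : ℝ) 1, |t - t'| < ε →
      dist (Γ t) (Γ t') ≤ K * |t - t'|) : dist (Γ 0) (Γ 1) ≤ K := by
  have hcl : IsClosed ({t : ℝ | dist (Γ 0) (Γ t) ≤ K * t} ∩ Icc 0 1) := by
    have h1 := isClosed_Icc.isClosed_le (f := fun t => dist (Γ 0) (Γ t)) (g := fun t => K * t)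
      (s := Icc (0 : ℝ) 1) (by fun_prop) (by fun_prop)
    convert h1 using 1
    ext t
    exact and_comm
  have key : Icc (0 : ℝ) 1 ⊆ {t : ℝ | dist (Γ 0) (Γ t) ≤ K * t} := by
    refine IsClosed.Icc_subset_of_forall_exists_gt hcl ?_ ?_
    · show dist (Γ 0) (Γ 0) ≤ K * 0
      simp
    · rintro t ⟨ht, ht0, ht1⟩ y hy
      obtain ⟨ε, hε, hl⟩ := h t ⟨ht0, ht1.le⟩
      have hy' : t < y := hy
      set t' := min (min y 1) (t + ε / 2) with ht'
      have h1 : t < t' := by
        simp only [ht', lt_min_iff]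
        exact ⟨⟨hy', ht1⟩, by linarith⟩
      have h2 : t' ≤ 1 := (min_le_left _ _).trans (min_le_right _ _)
      have h3 : t' ≤ y := (min_le_left _ _).trans (min_le_left _ _)
      have h4 : t' ≤ t + ε / 2 := min_le_right _ _
      refine ⟨t', ?_, h1, h3⟩
      have h5 := hl t' ⟨by linarith, h2⟩ (by rw [abs_lt]; constructor <;> linarith)
      have h6 : |t - t'| = t' - t := by rw [abs_sub_comm, abs_of_nonneg (by linarith)]
      rw [h6] at h5
      show dist (Γ 0) (Γ t') ≤ K * t'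
      have h7 := dist_triangle (Γ 0) (Γ t) (Γ t')
      have h8 : dist (Γ 0) (Γ t) ≤ K * t := ht
      nlinarith
  have := key (right_mem_Icc.2 zero_le_one)
  simpa using this

variable {Q X : Type*} [MetricSpace Q] [MetricSpace X] {p : Q → X}

theorem LocIso.continuous (hl : LocIso p) : Continuous p := by
  rw [continuous_iff_continuousAt]
  intro z
  obtain ⟨r, hr, h⟩ := hl z
  rw [Metric.continuousAt_iff]
  intro ε hε
  refine ⟨min r ε, lt_min hr hε, fun {y} hy => ?_⟩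
  rw [h y (mem_ball.2 (lt_of_lt_of_le hy (min_le_left _ _))) z (mem_ball_self hr)]
  exact lt_of_lt_of_le hy (min_le_right _ _)

theorem LocIso.lip (hQ : Geodesic Q) (hl : LocIso p) (y z : Q) :
    dist (p y) (p z) ≤ dist y z := by
  obtain ⟨γ, hγ⟩ := hQ y z
  have hc := local_cont hγ
  have hm : ∀ u ∈ Icc (0 : ℝ) 1, dist y z * u ∈ Icc 0 (dist y z) := fun u hu =>
    ⟨mul_nonneg hγ.nonneg hu.1, mul_le_of_le_one_right hγ.nonneg hu.2⟩
  have key := dist_le_of_local (fun u => p (γ (dist y z * u))) (dist y z)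
    (hl.continuous.comp_continuousOn hc) (by
      intro t ht
      obtain ⟨r, hr, h⟩ := hl (γ (dist y z * t))
      obtain ⟨ε, hε, hε'⟩ := Metric.continuousOn_iff.1 hc t ht r hr
      refine ⟨ε, hε, fun t' ht' htt => ?_⟩
      have h1 := hε' t' ht' (by rwa [Real.dist_eq, abs_sub_comm])
      rw [h _ (mem_ball_self hr) _ h1, hγ.isom _ (hm t ht) _ (hm t' ht'), ← mul_sub, abs_mul,
        abs_of_nonneg hγ.nonneg])
  simpa [hγ.start, hγ.finish] using key

theorem lift_geod (hX : Geodesic X) (hp : IsCoveringMap p) (hl : LocIso p) (y : Q) (b : X) :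
    ∃ z : Q, p z = b ∧ dist y z ≤ dist (p y) b := by
  obtain ⟨γ, hγ⟩ := hX (p y) b
  set ℓ := dist (p y) b with hℓ
  have hc := local_cont hγ
  have hm : ∀ u ∈ Icc (0 : ℝ) 1, ℓ * u ∈ Icc 0 ℓ := fun u hu =>
    ⟨mul_nonneg hγ.nonneg hu.1, mul_le_of_le_one_right hγ.nonneg hu.2⟩
  let c : C(unitInterval, X) := ⟨fun u => γ (ℓ * u), by
    have := continuousOn_iff_continuous_domRestrict.1 hc
    exact this⟩
  have hc0 : c 0 = p y := by
    show γ (ℓ * ((0 : unitInterval) : ℝ)) = p y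
    simp [hγ.start]
  set Λ := hp.liftPath c y hc0 with hΛ
  have hΛp : ∀ u, p (Λ u) = c u := fun u => congrFun (hp.liftPath_lifts c y hc0) u
  have hΛ0 : Λ 0 = y := hp.liftPath_zero c y hc0
  let Γ : ℝ → Q := fun t => Λ (projIcc 0 1 zero_le_one t)
  have hΓc : Continuous Γ := Λ.continuous.comp continuous_projIcc
  have hΓp : ∀ t ∈ Icc (0 : ℝ) 1, p (Γ t) = γ (ℓ * t) := by
    intro t ht
    show p (Λ (projIcc 0 1 zero_le_one t)) = _
    rw [hΛp, projIcc_of_mem zero_le_one ht]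
    rfl
  have key := dist_le_of_local Γ ℓ hΓc.continuousOn (by
    intro t ht
    obtain ⟨r, hr, h⟩ := hl (Γ t)
    obtain ⟨ε, hε, hε'⟩ := Metric.continuous_iff.1 hΓc t r hr
    refine ⟨ε, hε, fun t' ht' htt => ?_⟩
    have h1 := hε' t' (by rwa [Real.dist_eq, abs_sub_comm])
    rw [← h _ (mem_ball_self hr) _ h1, hΓp t ht, hΓp t' ht', hγ.isom _ (hm t ht) _ (hm t' ht'),
      ← mul_sub, abs_mul, abs_of_nonneg hγ.nonneg])
  have h0 : Γ 0 = y := by
    show Λ (projIcc 0 1 zero_le_one 0) = y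
    rw [projIcc_left]
    exact hΛ0
  refine ⟨Γ 1, ?_, ?_⟩
  · rw [hΓp 1 ⟨zero_le_one, le_rfl⟩, mul_one, hγ.finish]
  · rwa [h0] at key

end UW1
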