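import Pool.Agent.UW1.Defs

/-!
# UW1 package Nerve: width from a finite cover of multiplicity two

PROOF of `uwfin_of_cover`. Let `V = ULift` of the finite type `𝒲` (as `V : Type u` is needed and
`𝒲 : Set (Set X)`, `X : Type u`, the subtype `↥𝒲` is already in `Type u`: take `V = ↥𝒲`). The
complex `K`: faces are the nonempty finite sets `F` of members with a common point and
`F.card ≤ 2` (closed under nonempty subsets). For `W ∈ 𝒲` let `d_W x = infDist x Wᶜ` if `W ≠ univ`
and `1` if `W = univ` (continuous, nonnegative, positive exactly on `W`, as `Wᶜ` is closed and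
nonempty). `f x W = d_W x / ∑ W', d_{W'} x`: the denominator is positive by `hcov`. The support of
`f x` is the set of members containing `x`: it has at most two elements by `hmult`
(`Finset.two_lt_card` for the contrapositive). If `f x = f y` choose `W` with `x ∈ W`; then
`f y W = f x W > 0`, so `y ∈ W` and `dist x y ≤ D`, `edist x y ≤ ENNReal.ofReal D`
(`edist_dist`). Conclude with `sInf_le`. (If `X` is empty everything is trivial as well: the same
proof works.)

PROOF of `uwfin_of_annuli`. For `k : ℕ` put `U k = {y | (k - 1) L < dist x₀ y < (k + 1) L}` (real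
numbers). Every `y` lies in `U k` for `k = ⌊dist x₀ y / L⌋₊`. The family
`{connectedComponentIn (U k) y | k, y ∈ U k}` is an open cover (`X` locally connected:
`IsOpen.connectedComponentIn`); take a finite subfamily `𝒲` covering `X`
(`isCompact_univ.elim_finite_subcover` or similar). Members are preconnected and contained in
`U k`, so their diameter is `≤ D` by `h` with `t = (k - 1) L`. Multiplicity: a point `x` in three
members `connectedComponentIn (U k_i) y_i`, `i = 1, 2, 3`: `|dist x₀ x - k_i L| < L`, so two of the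
`k_i` agree (three distinct integers in an open interval of length `2`: impossible), and then the
two members are both equal to `connectedComponentIn (U k) x` (`connectedComponentIn_eq`).
Conclude with `uwfin_of_cover`.
-/

open Set Metric

namespace UW1

universe u

/-- The distance to the complement. -/
private noncomputable def Nerve_d {X : Type u} [MetricSpace X] (W : Set X) (x : X) : ℝ :=
  open Classical in if W = univ then 1 else infDist x Wᶜ

private theorem Nerve_d_cont {X : Type u} [MetricSpace X] (W : Set X) :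
    Continuous (Nerve_d W) := by
  classical
  unfold Nerve_d
  split_ifs
  · exact continuous_const
  · exact continuous_infDist_pt _

private theorem Nerve_d_nonneg {X : Type u} [MetricSpace X] (W : Set X) (x : X) :
    0 ≤ Nerve_d W x := by
  classical
  unfold Nerve_d
  split_ifs
  · exact zero_le_one
  · exact infDist_nonneg

private theorem Nerve_d_zero {X : Type u} [MetricSpace X] {W : Set X} {x : X}
    (hx : x ∉ W) : Nerve_d W x = 0 := by
  classical
  unfold Nerve_d
  have hne : W ≠ univ := fun h => hx (by rw [h]; exact mem_univ x)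
  rw [if_neg hne]
  exact infDist_zero_of_mem hx

private theorem Nerve_d_pos {X : Type u} [MetricSpace X] {W : Set X} {x : X}
    (hW : IsOpen W) (hx : x ∈ W) : 0 < Nerve_d W x := by
  classical
  unfold Nerve_d
  split_ifs with h
  · exact zero_lt_one
  · refine lt_of_le_of_ne infDist_nonneg fun h0 => ?_
    have hne : (Wᶜ).Nonempty := by
      rw [nonempty_compl]
      exact h
    have h1 := (hW.isClosed_compl.mem_iff_infDist_zero hne).2 h0.symm
    exact h1 hx

theorem uwfin_of_cover {X : Type u} [MetricSpace X] (D : ℝ) (𝒲 : Set (Set X))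
    (hfin : 𝒲.Finite) (hopen : ∀ W ∈ 𝒲, IsOpen W) (hcov : ∀ x, ∃ W ∈ 𝒲, x ∈ W)
    (hD : ∀ W ∈ 𝒲, ∀ x ∈ W, ∀ y ∈ W, dist x y ≤ D)
    (hmult : ∀ W₁ ∈ 𝒲, ∀ W₂ ∈ 𝒲, ∀ W₃ ∈ 𝒲, ∀ x, x ∈ W₁ → x ∈ W₂ → x ∈ W₃ →
      W₁ = W₂ ∨ W₂ = W₃ ∨ W₁ = W₃) : UWfin 1 X ≤ ENNReal.ofReal D := by
  classical
  have : Finite ↥𝒲 := hfin.to_subtype
  have : Fintype ↥𝒲 := Fintype.ofFinite _
  have hpos : ∀ x : X, 0 < ∑ W : ↥𝒲, Nerve_d (W : Set X) x := by
    intro x
    obtain ⟨W, hW, hx⟩ := hcov x
    exact Finset.sum_pos' (fun _ _ => Nerve_d_nonneg _ _)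
      ⟨⟨W, hW⟩, Finset.mem_univ _, Nerve_d_pos (hopen W hW) hx⟩
  let K : Complex ↥𝒲 :=
    { faces := {F | F.Nonempty ∧ F.card ≤ 2}
      nonempty_of_mem := fun s hs => hs.1
      down_closed := fun s hs t hts ht => ⟨ht, (Finset.card_le_card hts).trans hs.2⟩ }
  refine sInf_le ⟨↥𝒲, inferInstance, K, fun s hs => hs.2,
    fun x W => Nerve_d (W : Set X) x / ∑ W' : ↥𝒲, Nerve_d (W' : Set X) x, ?_, ?_, ?_⟩
  · refine continuous_pi fun W => ?_
    exact (Nerve_d_cont _).div (continuous_finsetSum _ fun W' _ => Nerve_d_cont _)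
      fun x => (hpos x).ne'
  · intro x
    refine ⟨Finset.univ.filter fun W : ↥𝒲 => x ∈ (W : Set X), ⟨?_, ?_⟩, ?_, ?_, ?_⟩
    · obtain ⟨W, hW, hx⟩ := hcov x
      exact ⟨⟨W, hW⟩, by simp [hx]⟩
    · by_contra hcard
      rw [not_le, Finset.two_lt_card] at hcard
      obtain ⟨a, ha, b, hb, c, hc, hab, hac, hbc⟩ := hcard
      have ha' := (Finset.mem_filter.1 ha).2
      have hb' := (Finset.mem_filter.1 hb).2
      have hc' := (Finset.mem_filter.1 hc).2
      rcases hmult a a.2 b b.2 c c.2 x ha' hb' hc' with h | h | h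
      · exact hab (Subtype.ext h)
      · exact hbc (Subtype.ext h)
      · exact hac (Subtype.ext h)
    · intro W _
      exact div_nonneg (Nerve_d_nonneg _ _) (hpos x).le
    · intro W hW
      have hx : x ∉ (W : Set X) := fun h => hW (by simp [h])
      change Nerve_d (W : Set X) x / _ = 0
      rw [Nerve_d_zero hx, zero_div]
    · rw [← Finset.sum_div, Finset.sum_filter_of_ne, div_self (hpos x).ne']
      intro W _ hne
      by_contra hx
      exact hne (Nerve_d_zero hx)
  · intro x y hxy
    obtain ⟨W, hW, hx⟩ := hcov x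
    have h1 := congrFun hxy ⟨W, hW⟩
    change Nerve_d W x / _ = Nerve_d W y / _ at h1
    have hy : y ∈ W := by
      by_contra hy
      rw [Nerve_d_zero hy, zero_div] at h1
      exact (div_pos (Nerve_d_pos (hopen W hW) hx) (hpos x)).ne' h1
    rw [edist_dist]
    exact ENNReal.ofReal_le_ofReal (hD W hW x hx y hy)

theorem uwfin_of_annuli {X : Type u} [MetricSpace X] [CompactSpace X]
    [LocallyConnectedSpace X] (x₀ : X) (L D : ℝ) (hL : 0 < L)
    (h : ∀ (V : Set X) (t : ℝ), IsOpen V → IsPreconnected V → (∀ y ∈ V, t < dist x₀ y) →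
      (∀ y ∈ V, dist x₀ y < t + 2 * L) → ∀ y ∈ V, ∀ z ∈ V, dist y z ≤ D) :
    UWfin 1 X ≤ ENNReal.ofReal D := by
  classical
  let U : ℕ → Set X := fun k => {y | ((k : ℝ) - 1) * L < dist x₀ y ∧ dist x₀ y < (k + 1) * L}
  have hU : ∀ k, IsOpen (U k) := fun k =>
    (isOpen_lt continuous_const (continuous_const.dist continuous_id)).inter
      (isOpen_lt (continuous_const.dist continuous_id) continuous_const)
  let κ : X → ℕ := fun y => ⌊dist x₀ y / L⌋₊
  have hκ : ∀ y, y ∈ U (κ y) := by
    intro y
    have h0 : 0 ≤ dist x₀ y / L := div_nonneg dist_nonneg hL.le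
    have h1 : ((κ y : ℕ) : ℝ) ≤ dist x₀ y / L := Nat.floor_le h0
    have h2 : dist x₀ y / L < (κ y : ℝ) + 1 := Nat.lt_floor_add_one _
    rw [le_div_iff₀ hL] at h1
    rw [div_lt_iff₀ hL] at h2
    refine ⟨?_, h2⟩
    nlinarith
  obtain ⟨t, ht⟩ := isCompact_univ.elim_finite_subcover
    (fun y : X => connectedComponentIn (U (κ y)) y)
    (fun y => (hU _).connectedComponentIn)
    (fun y _ => mem_iUnion.2 ⟨y, mem_connectedComponentIn (hκ y)⟩)
  refine uwfin_of_cover D ((fun y : X => connectedComponentIn (U (κ y)) y) '' (t : Set X))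
    (t.finite_toSet.image _) ?_ ?_ ?_ ?_
  · rintro W ⟨y, _, rfl⟩
    exact (hU _).connectedComponentIn
  · intro x
    obtain ⟨y, hy, hxy⟩ := mem_iUnion₂.1 (ht (mem_univ x))
    exact ⟨_, ⟨y, hy, rfl⟩, hxy⟩
  · rintro W ⟨y, _, rfl⟩ a ha b hb
    refine h (connectedComponentIn (U (κ y)) y) (((κ y : ℝ) - 1) * L)
      (hU _).connectedComponentIn isPreconnected_connectedComponentIn ?_ ?_ a ha b hb
    · intro z hz
      exact (connectedComponentIn_subset _ _ hz).1
    · intro z hz
      have h1 := (connectedComponentIn_subset _ _ hz).2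
      nlinarith
  · rintro W₁ ⟨y₁, _, rfl⟩ W₂ ⟨y₂, _, rfl⟩ W₃ ⟨y₃, _, rfl⟩ x h1 h2 h3
    have e1 := connectedComponentIn_eq h1
    have e2 := connectedComponentIn_eq h2
    have e3 := connectedComponentIn_eq h3
    have m1 := connectedComponentIn_subset _ _ h1
    have m2 := connectedComponentIn_subset _ _ h2
    have m3 := connectedComponentIn_subset _ _ h3
    have key : ∀ k l : ℕ, x ∈ U k → x ∈ U l → k ≤ l + 1 := by
      intro k l hk hl
      have h4 : ((k : ℝ) - 1) * L < (l + 1) * L := hk.1.trans hl.2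
      have h5 : (k : ℝ) - 1 < l + 1 := lt_of_mul_lt_mul_right h4 hL.le
      have h6 : (k : ℝ) < ((l + 2 : ℕ) : ℝ) := by
        push_cast
        linarith
      have h7 : k < l + 2 := by exact_mod_cast h6
      omega
    have k12 := key _ _ m1 m2
    have k21 := key _ _ m2 m1
    have k13 := key _ _ m1 m3
    have k31 := key _ _ m3 m1
    have k23 := key _ _ m2 m3
    have k32 := key _ _ m3 m2
    have hcase : κ y₁ = κ y₂ ∨ κ y₂ = κ y₃ ∨ κ y₁ = κ y₃ := by omega
    rcases hcase with hc | hc | hc
    · left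
      change connectedComponentIn (U (κ y₁)) y₁ = connectedComponentIn (U (κ y₂)) y₂
      rw [e1, e2, hc]
    · right
      left
      change connectedComponentIn (U (κ y₂)) y₂ = connectedComponentIn (U (κ y₃)) y₃
      rw [e2, e3, hc]
    · right
      right
      change connectedComponentIn (U (κ y₁)) y₁ = connectedComponentIn (U (κ y₃)) y₃
      rw [e1, e3, hc]

end UW1
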