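import Pool.Agent.UW1.Indep
import Pool.Agent.UW1.Nerve
import Pool.Agent.UW1.Local
import Pool.Agent.UW1.Bottle

/-!
# UW1 package Core: the theorem for group actions

PROOF of `core`. `X` is geodesic (`IsQuot.geodesic`), so locally path connected (`locPath`) and
locally connected. If `Q` is empty then `X` is empty and `UWfin 1 X = 0` (or use
`uwfin_of_cover` with the empty family). Otherwise fix `x₀ : Q`. Let `ε > 0`. Put
`r = 5 C + ε`, `s = r + 2 C = 7 C + ε`, `L = ε`, `h = 4 s + 5 L` (`> 2 (2 L) + 4 s`). Claim: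
`uwfin_of_annuli (p x₀) L D` applies with `D = (b + 1) h`. Let `V` be open preconnected with
`t < dist (p x₀) y < t + 2 L` on `V`. If `t ≤ 2 s`: `dist y z ≤ 2 (t + 2 L) ≤ 4 s + 4 L ≤ D`.
If `2 s < t` and `dist y z > D = (b+1) h` then `indep` with `t₀ = t`, `t₁ = t + 2 L`,
`N = b + 1` gives a linearly independent family `Fin (b+1) → _`, contradicting `hb`. So
`UWfin 1 X ≤ ofReal ((b + 1) (28 C + 9 ε))` for all `ε > 0`; let `ε → 0`
(`ENNReal.ofReal` is continuous, or `le_of_forall_pos_le_add`).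

PROOF of `core_uw`. If `UW 1 Q = ∞` the right side is `∞`. Otherwise let `w` be a real number with
`UW 1 Q < ofReal w` (`w > 0`), `w < w'`. By definition of the infimum there are `V, K, f` with
fibres of `edist ≤ ε' < ofReal w`, so `dist ≤ w`. `bottleneck_of_map` gives `Bottleneck (3 w'/2) Q`,
and `core` gives `UWfin 1 X ≤ ofReal (28 (3 w'/2) (b+1)) = ofReal (42 (b+1) w')`. Let
`w' → w → UW 1 Q`.
-/

open Set Metric Filter Topology

namespace UW1

universe u

theorem core {X : Type u} [MetricSpace X] [CompactSpace X] {G Q : Type*} [MetricSpace Q]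
    [Group G] [MulAction G Q] [IsIsometricSMul G Q] {p : Q → X} (hQ : Geodesic Q)
    (hL : LocFin G Q) (hp : IsQuot G p) {C : ℝ} (hC : 0 < C) (hB : Bottleneck C Q) (b : ℕ)
    (hb : ∀ φ : Fin (b + 1) → (Additive G →+ ℤ), ¬ LinearIndependent ℤ φ) :
    UWfin 1 X ≤ ENNReal.ofReal (28 * C * (b + 1)) := by
  have hX : Geodesic X := IsQuot.geodesic hQ hp
  haveI : LocallyPathConnectedSpace X := locPath hX
  rcases isEmpty_or_nonempty Q with hE | ⟨⟨x₀⟩⟩
  · haveI : IsEmpty X := ⟨fun x => by obtain ⟨q, -⟩ := hp.surj x; exact hE.elim q⟩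
    exact uwfin_of_cover _ ∅ finite_empty (fun W hW => hW.elim) (fun x => isEmptyElim x)
      (fun W hW => hW.elim) (fun W hW => hW.elim)
  have hε : ∀ ε : ℝ, 0 < ε →
      UWfin 1 X ≤ ENNReal.ofReal ((b + 1) * (4 * (7 * C + ε) + 5 * ε)) := by
    intro ε hε
    have hb0 : (0 : ℝ) ≤ b := Nat.cast_nonneg b
    refine uwfin_of_annuli (p x₀) ε _ hε ?_
    intro V t hV hc hlow hhigh y hy z hz
    by_cases ht : 2 * (7 * C + ε) < t
    · by_contra hlt
      push Not at hlt
      obtain ⟨φ, hφ⟩ := indep (r := 5 * C + ε) (s := 7 * C + ε) (t₀ := t) (t₁ := t + 2 * ε)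
        (h := 4 * (7 * C + ε) + 5 * ε) hQ hL hC (by linarith) (by ring) hB hp x₀ hV hc hlow
        hhigh ht (by linarith) hy hz (b + 1) (by push_cast; exact hlt.le)
      exact hb φ hφ
    · push Not at ht
      have h1 := hhigh y hy
      have h2 := hhigh z hz
      have h3 := dist_triangle_left y z (p x₀)
      have h4 : (4 * (7 * C + ε) + 5 * ε) ≤ (b + 1) * (4 * (7 * C + ε) + 5 * ε) := by
        have h5 : 0 ≤ 4 * (7 * C + ε) + 5 * ε := by positivity
        nlinarith
      linarith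
  have ht : Tendsto (fun ε : ℝ => ENNReal.ofReal ((b + 1) * (4 * (7 * C + ε) + 5 * ε)))
      (𝓝[>] 0) (𝓝 (ENNReal.ofReal ((b + 1) * (4 * (7 * C + 0) + 5 * 0)))) := by
    have h1 : Continuous (fun ε : ℝ =>
        ENNReal.ofReal ((b + 1) * (4 * (7 * C + ε) + 5 * ε))) :=
      ENNReal.continuous_ofReal.comp (by fun_prop)
    exact (h1.tendsto 0).mono_left nhdsWithin_le_nhds
  have h2 := ge_of_tendsto ht (eventually_nhdsWithin_of_forall fun ε hε' => hε ε hε')
  refine h2.trans (le_of_eq ?_)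
  congr 1
  ring

theorem core_uw {X Q : Type u} [MetricSpace X] [CompactSpace X] {G : Type*} [MetricSpace Q]
    [SimplyConnectedSpace Q] [Group G] [MulAction G Q] [IsIsometricSMul G Q] {p : Q → X}
    (hQ : Geodesic Q) (hL : LocFin G Q) (hp : IsQuot G p) (b : ℕ)
    (hb : ∀ φ : Fin (b + 1) → (Additive G →+ ℤ), ¬ LinearIndependent ℤ φ) :
    UWfin 1 X ≤ 42 * (b + 1) * UW 1 Q := by
  by_cases htop : UW 1 Q = ⊤
  · rw [htop, ENNReal.mul_top (by positivity)]
    exact le_top
  set c := (UW 1 Q).toReal with hc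
  have hc0 : 0 ≤ c := ENNReal.toReal_nonneg
  have hUc : UW 1 Q = ENNReal.ofReal c := (ENNReal.ofReal_toReal htop).symm
  have key : ∀ δ : ℝ, 0 < δ → UWfin 1 X ≤ ENNReal.ofReal (42 * (b + 1) * (c + δ)) := by
    intro δ hδ
    have hlt : UW 1 Q < ENNReal.ofReal (c + δ / 2) := by
      rw [hUc, ENNReal.ofReal_lt_ofReal_iff (by linarith)]
      linarith
    obtain ⟨ε, ⟨V, K, hK, f, hf, hfK, hfib⟩, hε⟩ := sInf_lt_iff.1 hlt
    have hB := bottleneck_of_map K hK f hf hfK (c + δ / 2) (c + δ) (by linarith) (by linarith)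
      (by
        intro x y hxy
        have h1 := (hfib x y hxy).trans_lt hε
        rw [edist_dist, ENNReal.ofReal_lt_ofReal_iff (by linarith)] at h1
        exact h1.le)
    have h1 := core hQ hL hp (C := 3 * (c + δ) / 2) (by linarith) hB b hb
    refine h1.trans (le_of_eq ?_)
    congr 1
    ring
  have ht : Tendsto (fun δ : ℝ => ENNReal.ofReal (42 * (b + 1) * (c + δ))) (𝓝[>] 0)
      (𝓝 (ENNReal.ofReal (42 * (b + 1) * (c + 0)))) := by
    have h1 : Continuous (fun δ : ℝ => ENNReal.ofReal (42 * (b + 1) * (c + δ))) :=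
      ENNReal.continuous_ofReal.comp (by fun_prop)
    exact (h1.tendsto 0).mono_left nhdsWithin_le_nhds
  have h2 := ge_of_tendsto ht (eventually_nhdsWithin_of_forall fun δ hδ => key δ hδ)
  refine h2.trans (le_of_eq ?_)
  rw [hUc, add_zero, ENNReal.ofReal_mul (by positivity), ENNReal.ofReal_mul (by norm_num)]
  congr 2
  · simp
  · rw [ENNReal.ofReal_add (by positivity) zero_le_one]
    simp

end UW1
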