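import Pool.Agent.UW1.Proper

/-!
# UW1 package Deck: the deck group of the universal cover

`Deck p` is the group of isometries `g` of `Q` with `p ∘ g = p`; it acts on `Q`.
PROOFS. `deck_trans`: let `p y = p z`. `Q` is simply connected and locally path connected
(`locPath`), so `IsCoveringMap.existsUnique_continuousMap_lifts` (for `f = p`, `A = Q`) gives a
continuous `g : Q → Q`, `g y = z`, `p ∘ g = p`, and `g'` with `g' z = y`, `p ∘ g' = p`; by
uniqueness `g' ∘ g = id` (both lift `p` and fix `y`) and `g ∘ g' = id`. `g` is a local isometry: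
near `w`, `dist (g v) (g v') = dist (p (g v)) (p (g v')) = dist (p v) (p v') = dist v v'` when
`v, v'` are close to `w` (continuity of `g`, `LocIso` at `w` and at `g w`). `LocIso.lip` (with
`p := g`, `X := Q`) shows that `g` and `g'` are `1`-Lipschitz, so `g` is an isometry.
`deck_free`: `g • y = y` gives `g = 1` by the uniqueness of lifts.
`deck_isQuot`: surjective: `Q` is nonempty (`SimplyConnectedSpace` is path connected) and
`lift_geod` reaches every point of `X`. `le`: `dist (p y) (p z) = dist (p y) (p (g • z)) ≤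
dist y (g • z)` (`LocIso.lip`). `attained`: `lift_geod` gives `z'` with `p z' = p z`,
`dist y z' ≤ dist (p y) (p z)`, and `z' = g • z` by `deck_trans`; equality by `le`.
`deck_locFin`: `Q` is proper (`exists_unif_compact`, `proper_of_unif`). The set
`closedBall z R ∩ p ⁻¹' {p z}` is compact (closed in a compact set) and discrete (fibres of a
covering map are discrete, or: by `LocIso` two points of a fibre inside a small ball coincide), so
it is finite; `g ↦ g • z` is injective by `deck_free`.
`deck_covering`: `IsQuotientCoveringMap p (Deck p)`: quotient map (`hp.isQuotientMap` or open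
continuous surjective), `apply_eq_iff_mem_orbit` from `deck_trans`, `disjoint`: take
`U = ball e r` with `r` from `LocIso`: if `v, g • v ∈ U` then `p (g • v) = p v` gives
`dist (g • v) v = 0`, so `g = 1` by `deck_free`.
-/

open Set Metric

namespace UW1

variable {Q X : Type*} [MetricSpace Q] [MetricSpace X]

/-- The deck group: isometries of `Q` which commute with `p`. -/
def Deck (p : Q → X) : Subgroup (Q ≃ᵢ Q) where
  carrier := {g | ∀ z, p (g z) = p z}
  mul_mem' := by
    intro a b ha hb z
    simp only [Set.mem_ofPred_eq] at ha hb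
    rw [IsometryEquiv.mul_apply, ha, hb]
  one_mem' := by
    intro z
    rfl
  inv_mem' := by
    intro a ha z
    simp only [Set.mem_ofPred_eq] at ha
    rw [← ha, IsometryEquiv.apply_inv_self]

instance (p : Q → X) : MulAction (Deck p) Q where
  smul g z := g.1 z
  one_smul _ := rfl
  mul_smul _ _ _ := rfl

theorem deck_smul_def {p : Q → X} (g : Deck p) (z : Q) : g • z = g.1 z := rfl

instance (p : Q → X) : IsIsometricSMul (Deck p) Q where
  isometry_smul g := g.1.isometry

variable {p : Q → X}

theorem deck_map (g : Deck p) (z : Q) : p (g • z) = p z := g.2 z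

theorem deck_trans [SimplyConnectedSpace Q] (hQ : Geodesic Q) (hp : IsCoveringMap p)
    (hl : LocIso p) {y z : Q} (h : p y = p z) : ∃ g : Deck p, g • y = z := by
  have := locPath hQ
  have key : ∀ y z : Q, p y = p z → ∃ g : C(Q, Q), g y = z ∧ p ∘ g = p := by
    intro y z h
    obtain ⟨g, hg, _⟩ := hp.existsUnique_continuousMap_lifts
      (⟨p, hp.continuous⟩ : C(Q, X)) y z h.symm
    exact ⟨g, hg⟩
  have hloc : ∀ g : C(Q, Q), p ∘ g = p → LocIso (g : Q → Q) := by
    intro g hg w
    obtain ⟨r₁, hr₁, h1⟩ := hl w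
    obtain ⟨r₂, hr₂, h2⟩ := hl (g w)
    obtain ⟨δ, hδ, h3⟩ := Metric.continuousAt_iff.1 (g.continuous.continuousAt (x := w)) r₂ hr₂
    refine ⟨min r₁ δ, lt_min hr₁ hδ, fun v hv v' hv' => ?_⟩
    have e1 := h2 (g v) (h3 (lt_of_lt_of_le hv (min_le_right _ _))) (g v')
      (h3 (lt_of_lt_of_le hv' (min_le_right _ _)))
    have e2 := h1 v (ball_subset_ball (min_le_left _ _) hv) v'
      (ball_subset_ball (min_le_left _ _) hv')
    have e3 : ∀ u, p (g u) = p u := fun u => congrFun hg u
    rw [← e1, e3, e3, e2]
  obtain ⟨g, hg1, hg2⟩ := key y z h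
  obtain ⟨g', hg1', hg2'⟩ := key z y h.symm
  have e3 : ∀ u, p (g u) = p u := fun u => congrFun hg2 u
  have e3' : ∀ u, p (g' u) = p u := fun u => congrFun hg2' u
  have inv1 : ∀ u, g' (g u) = u := by
    have h1 : (fun u => g' (g u)) = fun u => u :=
      hp.eq_of_comp_eq (g'.continuous.comp g.continuous) continuous_id
        (funext fun u => by
          change p (g' (g u)) = p u
          rw [e3', e3]) y (by rw [hg1, hg1'])
    exact fun u => congrFun h1 u
  have inv2 : ∀ u, g (g' u) = u := by
    have h1 : (fun u => g (g' u)) = fun u => u :=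
      hp.eq_of_comp_eq (g.continuous.comp g'.continuous) continuous_id
        (funext fun u => by
          change p (g (g' u)) = p u
          rw [e3, e3']) z (by rw [hg1', hg1])
    exact fun u => congrFun h1 u
  have hiso : Isometry g := by
    refine Isometry.of_dist_eq fun a b => le_antisymm (LocIso.lip hQ (hloc g hg2) a b) ?_
    have h1 := LocIso.lip hQ (hloc g' hg2') (g a) (g b)
    rwa [inv1, inv1] at h1
  exact ⟨⟨IsometryEquiv.mk' g g' inv2 hiso, e3⟩, hg1⟩

theorem deck_free [SimplyConnectedSpace Q] (hp : IsCoveringMap p) {g : Deck p} {y : Q}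
    (h : g • y = y) : g = 1 := by
  have h1 : (fun u => g • u) = fun u => u :=
    hp.eq_of_comp_eq g.1.continuous continuous_id (funext fun u => g.2 u) y h
  refine Subtype.ext (IsometryEquiv.ext fun u => ?_)
  exact congrFun h1 u

theorem deck_isQuot [SimplyConnectedSpace Q] (hX : Geodesic X) (hQ : Geodesic Q)
    (hp : IsCoveringMap p) (hl : LocIso p) : IsQuot (Deck p) p := by
  have hle : ∀ (g : Deck p) (y z : Q), dist (p y) (p z) ≤ dist y (g • z) := by
    intro g y z
    rw [← deck_map g z]
    exact LocIso.lip hQ hl y (g • z)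
  refine ⟨fun b => ?_, hle, fun y z => ?_⟩
  · obtain ⟨y₀⟩ : Nonempty Q := inferInstance
    obtain ⟨z, hz, _⟩ := lift_geod hX hp hl y₀ b
    exact ⟨z, hz⟩
  · obtain ⟨z', hz', hd⟩ := lift_geod hX hp hl y (p z)
    obtain ⟨g, hg⟩ := deck_trans hQ hp hl hz'.symm
    refine ⟨g, le_antisymm ?_ (hle g y z)⟩
    rw [hg]
    exact hd

theorem deck_locFin [SimplyConnectedSpace Q] [CompactSpace X] (hX : Geodesic X)
    (hQ : Geodesic Q) (hp : IsCoveringMap p) (hl : LocIso p) : LocFin (Deck p) Q := by
  intro z R
  obtain ⟨ρ, hρ, hc⟩ := exists_unif_compact hX hQ hp hl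
  have := proper_of_unif hQ hρ hc
  have hcomp : IsCompact (closedBall z R ∩ p ⁻¹' {p z}) :=
    (isCompact_closedBall z R).inter_right (isClosed_singleton.preimage hp.continuous)
  have hfin : (closedBall z R ∩ p ⁻¹' {p z}).Finite := by
    by_contra hinf
    have hinf' : (closedBall z R ∩ p ⁻¹' {p z}).Infinite := hinf
    obtain ⟨a, ha, hacc⟩ := hinf'.exists_accPt_of_subset_isCompact hcomp subset_rfl
    obtain ⟨r, hr, h1⟩ := hl a
    rw [accPt_iff_nhds] at hacc
    obtain ⟨b, hb, hne⟩ := hacc (ball a r) (ball_mem_nhds a hr)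
    have h2 := h1 b hb.1 a (mem_ball_self hr)
    have hpb : p b = p z := hb.2.2
    have hpa : p a = p z := ha.2
    rw [hpb, hpa, dist_self] at h2
    exact hne (dist_eq_zero.1 h2.symm)
  have hinj : Function.Injective fun g : Deck p => g • z := by
    intro g g' hgg'
    have h1 : (g'⁻¹ * g) • z = z := by
      rw [mul_smul]
      change g'⁻¹ • (g • z) = z
      have h2 : g • z = g' • z := hgg'
      rw [h2, inv_smul_smul]
    have h3 := deck_free hp h1
    exact (inv_mul_eq_one.1 h3).symm
  refine (hfin.preimage (hinj.injOn (s := _))).subset ?_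
  intro g hg
  exact ⟨hg, deck_map g z⟩

theorem deck_covering [SimplyConnectedSpace Q] (hX : Geodesic X) (hQ : Geodesic Q)
    (hp : IsCoveringMap p) (hl : LocIso p) : IsQuotientCoveringMap p (Deck p) := by
  have hcs : ContinuousConstSMul (Deck p) Q := inferInstance
  refine
    { toIsQuotientMap := hp.isQuotientMap (deck_isQuot hX hQ hp hl).surj
      toContinuousConstSMul := hcs
      apply_eq_iff_mem_orbit := ?_
      disjoint := ?_ }
  · intro e₁ e₂
    constructor
    · intro h
      obtain ⟨g, hg⟩ := deck_trans hQ hp hl h.symm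
      exact ⟨g, hg⟩
    · rintro ⟨g, rfl⟩
      exact deck_map g e₂
  · intro e
    obtain ⟨r, hr, h1⟩ := hl e
    refine ⟨ball e r, ball_mem_nhds e hr, ?_⟩
    rintro g ⟨v', ⟨v, hv, rfl⟩, hv'⟩
    have h2 := h1 (g • v) hv' v hv
    have h3 : p (g • v) = p v := deck_map g v
    rw [h3, dist_self] at h2
    exact deck_free hp (dist_eq_zero.1 h2.symm)

end UW1
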