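import Mathlib

/-!
# One-dimensional Uryson width of a space and of its universal cover: definitions

* `Complex V`: simplicial complexes with vertex set `V`; `Complex.real K`: the geometric
  realization in barycentric coordinates, a subset of `V → ℝ`, with the coordinatewise topology
  (the coarsest of the usual topologies; all of them agree for finite complexes).
* `UW k X`: the `k`-dimensional Uryson width; `UWfin k X`: the same with finite complexes only.
* `IsGeod γ ℓ a b`: `γ` restricted to `[0, ℓ]` is an isometric path from `a` to `b`.
* `Geodesic X`: geodesic metric spaces.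
* `Bottleneck C Q`: every set which joins the endpoints of a geodesic meets the closed
  `C`-ball around each point of the geodesic.
* `LocFin G Q`, `IsQuot G p`: isometric actions with locally finite orbits; quotient metric.
-/

open Set Metric Topology
open scoped ENNReal

namespace UW1

universe u

/-- A simplicial complex with vertex set `V`: a family of nonempty finite sets of vertices,
closed under passing to nonempty subsets. -/
structure Complex (V : Type u) where
  /-- the simplices -/
  faces : Set (Finset V)
  /-- simplices are nonempty -/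
  nonempty_of_mem : ∀ s ∈ faces, s.Nonempty
  /-- a nonempty subset of a simplex is a simplex -/
  down_closed : ∀ s ∈ faces, ∀ t : Finset V, t ⊆ s → t.Nonempty → t ∈ faces

/-- The geometric realization: barycentric coordinates `c : V → ℝ`, nonnegative, supported in
a simplex, with sum `1`. -/
def Complex.real {V : Type u} (K : Complex V) : Set (V → ℝ) :=
  {c | ∃ s ∈ K.faces, (∀ v ∈ s, 0 ≤ c v) ∧ (∀ v, v ∉ s → c v = 0) ∧ ∑ v ∈ s, c v = 1}

/-- The complex `K` has dimension at most `k`. -/
def Complex.DimLe {V : Type u} (K : Complex V) (k : ℕ) : Prop :=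
  ∀ s ∈ K.faces, s.card ≤ k + 1

/-- The `k`-dimensional Uryson width of `X`: the infimum of all `ε` such that some continuous
map from `X` to a simplicial complex of dimension at most `k` has all its fibres of diameter
at most `ε`. -/
noncomputable def UW (k : ℕ) (X : Type u) [MetricSpace X] : ℝ≥0∞ :=
  sInf {ε | ∃ (V : Type u) (K : Complex V), K.DimLe k ∧ ∃ f : X → V → ℝ, Continuous f ∧
    (∀ x, f x ∈ K.real) ∧ ∀ x y, f x = f y → edist x y ≤ ε}

/-- The same number, computed with finite simplicial complexes only (so `UW k X ≤ UWfin k X`;
for a finite complex all the usual topologies of the realization coincide). -/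
noncomputable def UWfin (k : ℕ) (X : Type u) [MetricSpace X] : ℝ≥0∞ :=
  sInf {ε | ∃ (V : Type u) (_ : Finite V) (K : Complex V), K.DimLe k ∧
    ∃ f : X → V → ℝ, Continuous f ∧ (∀ x, f x ∈ K.real) ∧ ∀ x y, f x = f y → edist x y ≤ ε}

/-- `γ` restricted to `[0, ℓ]` is a geodesic (an isometric path) from `a` to `b`. -/
structure IsGeod {X : Type*} [MetricSpace X] (γ : ℝ → X) (ℓ : ℝ) (a b : X) : Prop where
  nonneg : 0 ≤ ℓ
  start : γ 0 = a
  finish : γ ℓ = b
  isom : ∀ s ∈ Icc 0 ℓ, ∀ t ∈ Icc 0 ℓ, dist (γ s) (γ t) = |s - t|

/-- A geodesic metric space: any two points are joined by a geodesic. -/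
def Geodesic (X : Type*) [MetricSpace X] : Prop :=
  ∀ a b : X, ∃ γ : ℝ → X, IsGeod γ (dist a b) a b

/-- The bottleneck property with constant `C`: if the endpoints of a geodesic are joined by a
path inside the set `F`, then every point of the geodesic is within `C` of a point of `F`. -/
def Bottleneck (C : ℝ) (Q : Type*) [MetricSpace Q] : Prop :=
  ∀ (a b : Q) (γ : ℝ → Q) (ℓ : ℝ), IsGeod γ ℓ a b → ∀ F : Set Q, JoinedIn F a b →
    ∀ t ∈ Icc 0 ℓ, ∃ z ∈ F, dist (γ t) z ≤ C

/-- Orbits are locally finite (with multiplicity): metrically proper actions of discrete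
groups. -/
def LocFin (G Q : Type*) [MetricSpace Q] [Group G] [MulAction G Q] : Prop :=
  ∀ (z : Q) (R : ℝ), {g : G | dist (g • z) z ≤ R}.Finite

/-- `p : Q → X` is the quotient map of the action of `G` on `Q`, and the metric of `X` is the
quotient metric (the distance between orbits, which is attained). -/
structure IsQuot (G : Type*) {Q X : Type*} [MetricSpace Q] [MetricSpace X] [Group G]
    [MulAction G Q] (p : Q → X) : Prop where
  surj : Function.Surjective p
  le : ∀ (g : G) (y z : Q), dist (p y) (p z) ≤ dist y (g • z)
  attained : ∀ y z : Q, ∃ g : G, dist y (g • z) = dist (p y) (p z)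

section Orbit

variable (G : Type*) {Q : Type*} [MetricSpace Q] [Group G] [MulAction G Q]

/-- The subgroup generated by the elements which move `x` by less than `2 r`. -/
def Eg (x : Q) (r : ℝ) : Subgroup G := Subgroup.closure {g : G | dist (g • x) x < 2 * r}

/-- The orbit of `x` under the subgroup `Eg G x r`. -/
def Orb (x : Q) (r : ℝ) : Set Q := {z | ∃ g ∈ Eg G x r, z = g • x}

/-- The points at distance at least `s` from the orbit `Orb G x r`. -/
def Out (x : Q) (r s : ℝ) : Set Q := {z | ∀ o ∈ Orb G x r, s ≤ dist z o}

/-- The points at distance exactly `s` from the orbit `Orb G x r`. -/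
def Sph (x : Q) (r s : ℝ) : Set Q := {z | z ∈ Out G x r s ∧ ∃ o ∈ Orb G x r, dist z o = s}

/-- The gate points of a set `A`: translates of points of `A` at distance exactly `s` from
the orbit. -/
def Gate (x : Q) (r s : ℝ) (A : Set Q) : Set Q :=
  {c | c ∈ Sph G x r s ∧ ∃ k : G, ∃ a ∈ A, c = k • a}

open Classical in
/-- The characteristic function of the set of points which are joined, at distance at least
`s` from the orbit, to a gate point of `A`. -/
noncomputable def chi (x : Q) (r s : ℝ) (A : Set Q) (z : Q) : ℤ :=
  if ∃ c ∈ Gate G x r s A, JoinedIn (Out G x r s) c z then 1 else 0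

end Orbit

end UW1
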