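import Pool.Agent.UW1.Defs

/-!
# UW1 package GateLemma: components of the complement have small gates

PROOF of `gate`. Let `σ` be a geodesic from `p` to `q`, `ℓ = dist p q`, `w = σ (ℓ/2)`. The
bottleneck property for the set `F₁ = {v | ∀ o ∈ O, s ≤ dist v o}` gives `z₁ ∈ F₁` with
`dist w z₁ ≤ C`, so `s - C = r + C ≤ dist w o` for all `o ∈ O`. Let `o_p, o_q ∈ O` with
`dist p o_p = s = dist q o_q`, `σ_p` a geodesic from `p` to `o_p`, `σ_q` from `q` to `o_q`, and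
`F₂ = σ_p '' Icc 0 s ∪ {v | ∃ o ∈ O, dist v o < r} ∪ σ_q '' Icc 0 s`; `p` and `q` are joined in
`F₂` (`JoinedIn.trans`, `JoinedIn.mono`). The bottleneck property gives `z₂ ∈ F₂` with
`dist w z₂ ≤ C`. If `dist z₂ o < r` then `dist w o < r + C`, contradiction. If
`z₂ = σ_p u`, `u ∈ [0, s]`: `dist z₂ o_p = s - u` and `dist z₂ o_p ≥ dist w o_p - C ≥ s - 2 C`, so
`dist p z₂ = u ≤ 2 C`, `ℓ/2 = dist p w ≤ 3 C`. The same for `q`. So `ℓ ≤ 6 C`.
(The path along a geodesic: `JoinedIn.ofLine` or the path `u ↦ σ_p (s u)`.)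
-/

open Set

namespace UW1

/-- the points of a geodesic are joined inside it (write it once, use it everywhere) -/
theorem IsGeod.joinedIn {X : Type*} [MetricSpace X] {γ : ℝ → X} {ℓ : ℝ} {a b : X}
    (h : IsGeod γ ℓ a b) {u v : ℝ} (hu : u ∈ Icc 0 ℓ) (hv : v ∈ Icc 0 ℓ) (huv : u ≤ v) :
    JoinedIn (γ '' Icc u v) (γ u) (γ v) := by
  have hc : ContinuousOn γ (Icc 0 ℓ) := by
    have h1 : LipschitzOnWith 1 γ (Icc 0 ℓ) := by
      refine LipschitzOnWith.of_dist_le_mul fun x hx y hy => ?_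
      rw [h.isom x hx y hy, NNReal.coe_one, one_mul, Real.dist_eq]
    exact h1.continuousOn
  have hmem : ∀ t ∈ Icc (0 : ℝ) 1, u + t * (v - u) ∈ Icc u v := by
    intro t ht
    have h1 : 0 ≤ v - u := sub_nonneg.2 huv
    constructor
    · have := mul_nonneg ht.1 h1
      linarith
    · have := mul_le_mul_of_nonneg_right ht.2 h1
      linarith
  refine JoinedIn.ofLine (f := fun t => γ (u + t * (v - u))) ?_ ?_ ?_ ?_
  · refine hc.comp (by fun_prop) fun t ht => ?_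
    have h1 := hmem t ht
    exact ⟨hu.1.trans h1.1, h1.2.trans hv.2⟩
  · simp
  · simp
  · rintro _ ⟨t, ht, rfl⟩
    exact ⟨_, hmem t ht, rfl⟩

/-- a point of the leg from `p` to the orbit which is close to `w` is close to `p` -/
private theorem gate_leg {Q : Type*} [MetricSpace Q] {C : ℝ} {p o w : Q} {τ : ℝ → Q}
    (hτ : IsGeod τ (dist p o) p o) {u : ℝ} (hu : u ∈ Icc 0 (dist p o))
    (hw : dist w (τ u) ≤ C) (hwo : dist p o - C ≤ dist w o) : dist p w ≤ 3 * C := by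
  have h1 := hτ.isom 0 ⟨le_refl _, dist_nonneg⟩ u hu
  rw [hτ.start, zero_sub, abs_neg, abs_of_nonneg hu.1] at h1
  have h2 := hτ.isom u hu (dist p o) ⟨dist_nonneg, le_refl _⟩
  rw [hτ.finish, abs_sub_comm, abs_of_nonneg (sub_nonneg.2 hu.2)] at h2
  have h3 := dist_triangle w (τ u) o
  have h4 := dist_triangle p (τ u) w
  rw [dist_comm (τ u) w] at h4
  linarith

theorem gate {Q : Type*} [MetricSpace Q] (hQ : Geodesic Q) {C r s : ℝ} (hC : 0 ≤ C)
    (hr : 0 < r) (hs : s = r + 2 * C) (hB : Bottleneck C Q) (O : Set Q)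
    (hO : ∀ o ∈ O, ∀ o' ∈ O, JoinedIn {v | ∃ o ∈ O, dist v o < r} o o') {p q : Q}
    (hp : ∃ o ∈ O, dist p o = s) (hq : ∃ o ∈ O, dist q o = s)
    (hj : JoinedIn {v | ∀ o ∈ O, s ≤ dist v o} p q) : dist p q ≤ 6 * C := by
  obtain ⟨σ, hσ⟩ := hQ p q
  have hℓ : 0 ≤ dist p q := dist_nonneg
  have hm : dist p q / 2 ∈ Icc 0 (dist p q) := ⟨by linarith, by linarith⟩
  have hpw : dist p (σ (dist p q / 2)) = dist p q / 2 := by
    have h1 := hσ.isom 0 ⟨le_refl _, hℓ⟩ _ hm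
    rw [hσ.start] at h1
    rw [h1, zero_sub, abs_neg, abs_of_nonneg hm.1]
  have hqw : dist q (σ (dist p q / 2)) = dist p q / 2 := by
    have h1 := hσ.isom _ ⟨hℓ, le_refl _⟩ _ hm
    rw [hσ.finish] at h1
    rw [h1, abs_of_nonneg (by linarith)]
    ring
  obtain ⟨z₁, hz₁, hwz₁⟩ := hB p q σ _ hσ _ hj _ hm
  generalize hmid : σ (dist p q / 2) = w at hpw hqw hwz₁
  have hfar : ∀ o ∈ O, s - C ≤ dist w o := by
    intro o ho
    have h1 : s ≤ dist z₁ o := hz₁ o ho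
    have h2 := dist_triangle z₁ w o
    rw [dist_comm z₁ w] at h2
    linarith
  obtain ⟨op, hop, hpo⟩ := hp
  obtain ⟨oq, hoq, hqo⟩ := hq
  obtain ⟨τp, hτp⟩ := hQ p op
  obtain ⟨τq, hτq⟩ := hQ q oq
  have hjp : JoinedIn (τp '' Icc 0 (dist p op)) p op := by
    have h1 := hτp.joinedIn (u := 0) (v := dist p op) ⟨le_refl _, dist_nonneg⟩
      ⟨dist_nonneg, le_refl _⟩ dist_nonneg
    rwa [hτp.start, hτp.finish] at h1
  have hjq : JoinedIn (τq '' Icc 0 (dist q oq)) q oq := by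
    have h1 := hτq.joinedIn (u := 0) (v := dist q oq) ⟨le_refl _, dist_nonneg⟩
      ⟨dist_nonneg, le_refl _⟩ dist_nonneg
    rwa [hτq.start, hτq.finish] at h1
  have hj2 : JoinedIn (τp '' Icc 0 (dist p op) ∪
      ({v | ∃ o ∈ O, dist v o < r} ∪ τq '' Icc 0 (dist q oq))) p q := by
    refine (hjp.mono subset_union_left).trans ((((hO op hop oq hoq).mono ?_)).trans
      ((hjq.symm).mono ?_))
    · exact subset_union_left.trans subset_union_right
    · exact subset_union_right.trans subset_union_right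
  obtain ⟨z₂, hz₂, hwz₂⟩ := hB p q σ _ hσ _ hj2 _ hm
  rw [hmid] at hwz₂
  rcases hz₂ with ⟨u, hu, rfl⟩ | ⟨o, ho, hzo⟩ | ⟨u, hu, rfl⟩
  · have h1 := hfar op hop
    rw [← hpo] at h1
    have h2 := gate_leg hτp hu hwz₂ h1
    linarith
  · have h1 := hfar o ho
    have h2 := dist_triangle w z₂ o
    exfalso
    linarith
  · have h1 := hfar oq hoq
    rw [← hqo] at h1
    have h2 := gate_leg hτq hu hwz₂ h1
    linarith

end UW1
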