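import Pool.Agent.UW1.LocalClass
import Pool.Agent.UW1.Conn

/-!
# UW1 package Indep: independent classes along a long connected piece of a sphere

PROOF of `indep`. If `N = 0` nothing to prove. Choose `ε > 0` with `2 s + ε < t₀` and
`2 (t₁ - t₀) + 4 s + 2 ε < h`, put `τ = t₀ - s - ε` (`> s`). The function `dist y ·` is continuous
on the preconnected set `V`, takes the value `0` at `y` and a value `≥ N h` at `z`
(`IsPreconnected.intermediate_value`): choose `y_i ∈ V`, `i = 0, …, N`, with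
`dist y y_i = i h`, so `dist y_i y_l ≥ h` for `i ≠ l`. Choose lifts `b_i : Q` of `y_i` with
`dist x₀ b_i = dist (p x₀) y_i =: ρ_i` (`attained`), geodesics `γ_i` of `Q` from `x₀` to `b_i` on
`[0, ρ_i]`; `t₀ < ρ_i < t₁`. For `u, t ∈ [0, ρ_i]`, `g : G`:
`|u - t| ≤ dist (p (γ_i u)) (p (γ_i t)) ≤ dist (γ_i u) (g • γ_i t)` (for `u ≤ t`:
`ρ_i = dist (p x₀) y_i ≤ u + dist (p (γ_i u)) (p (γ_i t)) + (ρ_i - t)`). So
`Cross G γ_i ρ_i τ s v_i` with `v_i = γ_i τ` (`s < τ`, `ρ_i - τ > t₀ - τ = s + ε`).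
`local_class` gives `S_i`. Claims, for all `i, l ≤ N`:
(1) `S_i x₀ b_i = 1`.
(2) `S_l x₀ b_i = 0` for `i ≠ l`: the geodesic `γ_i` stays in `{z | ∀ g, s ≤ dist z (g • v_l)}`.
Otherwise `dist (γ_i u) (g • v_l) < s`, so with `w = p (γ_i u)`, `dist w (p v_l) < s`,
`u = dist (p x₀) w > τ - s`, `dist w y_i = ρ_i - u < t₁ - τ + s`, `dist (p v_l) y_l = ρ_l - τ
< t₁ - τ`, hence `dist y_i y_l < 2 (t₁ - τ) + 2 s = 2 (t₁ - t₀) + 4 s + 2 ε < h`, contradiction.
(3) `joined_lift` gives `g_i : G` with `b_i` and `g_i • b_{i+1}` joined in `p ⁻¹' V`; for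
`z ∈ p ⁻¹' V`, `g : G`: `dist z (g • v_l) ≥ dist (p z) (p v_l) ≥ dist (p x₀) (p z) - τ
> t₀ - τ = s + ε`. So `S_l b_i (g_i • b_{i+1}) = 0`.
Let `φ_l : Additive G →+ ℤ`, `φ_l g = S_l x₀ (g • x₀)`: additive because
`S_l x₀ (g h • x₀) = S_l x₀ (g • x₀) + S_l (g • x₀) (g • h • x₀)` and invariance. Then
`φ_l g_i = S_l x₀ b_i + S_l b_i (g_i • b_{i+1}) + S_l (g_i • b_{i+1}) (g_i • x₀)
= S_l x₀ b_i - S_l x₀ b_{i+1} = δ_{l,i} - δ_{l,i+1}` for `i < N`, `l ≤ N` (`S u u = 0`,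
`S u v = - S v u`). Take `φ_0, …, φ_{N-1}`. If `∑ c_l φ_l = 0` then evaluating at `g_i`:
`c_i - c_{i+1} = 0` for `i < N - 1` and `c_{N-1} = 0`; so all `c_l = 0`
(`Fintype.linearIndependent_iff`).
-/

open Set Metric

namespace UW1

variable {G Q X : Type*} [MetricSpace Q] [MetricSpace X] [Group G] [MulAction G Q]
  [IsIsometricSMul G Q] {p : Q → X} {r s C : ℝ}

private theorem Indep_proj (hp : IsQuot G p) {x₀ b : Q} {γ : ℝ → Q} {ρ : ℝ}
    (hγ : IsGeod γ ρ x₀ b) (hρ : dist (p x₀) (p b) = ρ) {u t : ℝ} (hu : u ∈ Icc 0 ρ)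
    (ht : t ∈ Icc 0 ρ) : dist (p (γ u)) (p (γ t)) = |u - t| := by
  have hle : ∀ u ∈ Icc 0 ρ, ∀ t ∈ Icc 0 ρ, dist (p (γ u)) (p (γ t)) ≤ |u - t| := by
    intro u hu t ht
    rw [← hγ.isom u hu t ht]
    exact hp.lip _ _
  have hge : ∀ u ∈ Icc 0 ρ, ∀ t ∈ Icc 0 ρ, u ≤ t → t - u ≤ dist (p (γ u)) (p (γ t)) := by
    intro u hu t ht hut
    have h0 : (0 : ℝ) ∈ Icc 0 ρ := ⟨le_rfl, hγ.nonneg⟩
    have h1 : ρ ∈ Icc 0 ρ := ⟨hγ.nonneg, le_rfl⟩
    have e1 := hle 0 h0 u hu
    have e2 := hle t ht ρ h1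
    rw [hγ.start] at e1
    rw [hγ.finish] at e2
    have e3 := dist_triangle (p x₀) (p (γ u)) (p b)
    have e4 := dist_triangle (p (γ u)) (p (γ t)) (p b)
    rw [abs_of_nonpos (by linarith [hu.1])] at e1
    rw [abs_of_nonpos (by linarith [ht.2])] at e2
    linarith
  refine le_antisymm (hle u hu t ht) ?_
  rcases le_total u t with h | h
  · rw [abs_of_nonpos (by linarith)]
    have := hge u hu t ht h
    linarith
  · rw [abs_of_nonneg (by linarith), dist_comm]
    exact hge t ht u hu h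

theorem indep (hQ : Geodesic Q) (hL : LocFin G Q) (hC : 0 < C) (hr : 5 * C < r)
    (hs : s = r + 2 * C) (hB : Bottleneck C Q) (hp : IsQuot G p) (x₀ : Q) {t₀ t₁ h : ℝ}
    {V : Set X} (hV : IsOpen V) (hc : IsPreconnected V) (hlow : ∀ y ∈ V, t₀ < dist (p x₀) y)
    (hhigh : ∀ y ∈ V, dist (p x₀) y < t₁) (ht : 2 * s < t₀) (hh : 2 * (t₁ - t₀) + 4 * s < h)
    {y z : X} (hy : y ∈ V) (hz : z ∈ V) (N : ℕ) (hN : N * h ≤ dist y z) :
    ∃ φ : Fin N → (Additive G →+ ℤ), LinearIndependent ℤ φ := by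
  classical
  have hs0 : 0 < s := by rw [hs]; linarith
  have hvt : t₀ < t₁ := (hlow y hy).trans (hhigh y hy)
  have hh0 : 0 < h := by linarith
  obtain ⟨ε, hε, hε1, hε2⟩ : ∃ ε : ℝ, 0 < ε ∧ 2 * s + ε < t₀ ∧
      2 * (t₁ - t₀) + 4 * s + 2 * ε < h := by
    refine ⟨min ((t₀ - 2 * s) / 2) ((h - (2 * (t₁ - t₀) + 4 * s)) / 4), ?_, ?_, ?_⟩
    · exact lt_min (by linarith) (by linarith)
    · have := min_le_left ((t₀ - 2 * s) / 2) ((h - (2 * (t₁ - t₀) + 4 * s)) / 4)
      linarith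
    · have := min_le_right ((t₀ - 2 * s) / 2) ((h - (2 * (t₁ - t₀) + 4 * s)) / 4)
      linarith
  obtain ⟨τ, hτ⟩ : ∃ τ, τ = t₀ - s - ε := ⟨_, rfl⟩
  -- the points
  have hY : ∀ i : Fin (N + 1), ∃ v ∈ V, dist y v = (i : ℕ) * h := by
    intro i
    have h1 := hc.intermediate_value hy hz
      ((continuous_const.dist continuous_id).continuousOn (s := V)
        : ContinuousOn (fun v => dist y v) V)
    have h2 : ((i : ℕ) : ℝ) * h ∈ Icc (dist y y) (dist y z) := by
      rw [dist_self]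
      refine ⟨by positivity, le_trans ?_ hN⟩
      have : ((i : ℕ) : ℝ) ≤ N := by exact_mod_cast Nat.lt_succ_iff.mp i.2
      exact mul_le_mul_of_nonneg_right this hh0.le
    obtain ⟨v, hv, hv1⟩ := h1 h2
    exact ⟨v, hv, hv1⟩
  choose Y hYV hYd using hY
  have hsep : ∀ i l : Fin (N + 1), i ≠ l → h ≤ dist (Y i) (Y l) := by
    intro i l hil
    have e1 := dist_triangle y (Y i) (Y l)
    have e2 := dist_triangle y (Y l) (Y i)
    rw [dist_comm (Y l) (Y i)] at e2
    rw [hYd, hYd] at e1 e2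
    have hne : (i : ℕ) ≠ l := fun h => hil (Fin.ext h)
    rcases Nat.lt_or_gt_of_ne hne with h3 | h3
    · have h4 : ((i : ℕ) : ℝ) + 1 ≤ (l : ℕ) := by exact_mod_cast h3
      nlinarith
    · have h4 : ((l : ℕ) : ℝ) + 1 ≤ (i : ℕ) := by exact_mod_cast h3
      nlinarith
  -- the lifts
  have hb : ∀ i, ∃ b : Q, p b = Y i ∧ dist x₀ b = dist (p x₀) (Y i) := by
    intro i
    obtain ⟨q, hq⟩ := hp.surj (Y i)
    obtain ⟨g, hg⟩ := hp.attained x₀ q
    exact ⟨g • q, by rw [hp.map_smul, hq], by rw [hg, hq]⟩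
  choose b hpb hdb using hb
  have hγ : ∀ i, ∃ γ : ℝ → Q, IsGeod γ (dist x₀ (b i)) x₀ (b i) := fun i => hQ _ _
  choose γ hγ using hγ
  have hρ : ∀ i, dist (p x₀) (p (b i)) = dist x₀ (b i) := fun i => by rw [hpb, hdb]
  have hρ0 : ∀ i, t₀ < dist x₀ (b i) := fun i => by
    rw [hdb]
    exact hlow _ (hYV i)
  have hρ1 : ∀ i, dist x₀ (b i) < t₁ := fun i => by
    rw [hdb]
    exact hhigh _ (hYV i)
  have hτm : ∀ i, τ ∈ Icc 0 (dist x₀ (b i)) := fun i => by
    have := hρ0 i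
    exact ⟨by rw [hτ]; linarith, by rw [hτ]; linarith⟩
  have h0m : ∀ i, (0 : ℝ) ∈ Icc 0 (dist x₀ (b i)) := fun i => ⟨le_rfl, dist_nonneg⟩
  have h1m : ∀ i, dist x₀ (b i) ∈ Icc 0 (dist x₀ (b i)) := fun i => ⟨dist_nonneg, le_rfl⟩
  have hproj : ∀ i, ∀ u ∈ Icc 0 (dist x₀ (b i)), ∀ t ∈ Icc 0 (dist x₀ (b i)),
      dist (p (γ i u)) (p (γ i t)) = |u - t| := fun i u hu t ht =>
    Indep_proj hp (hγ i) (hρ i) hu ht
  have hpx : ∀ i, ∀ u ∈ Icc 0 (dist x₀ (b i)), dist (p x₀) (p (γ i u)) = u := by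
    intro i u hu
    have h1 := hproj i 0 (h0m i) u hu
    rw [(hγ i).start] at h1
    rw [h1, zero_sub, abs_neg, abs_of_nonneg hu.1]
  have hpy : ∀ i, ∀ u ∈ Icc 0 (dist x₀ (b i)), dist (p (γ i u)) (Y i) = dist x₀ (b i) - u := by
    intro i u hu
    have h1 := hproj i u hu _ (h1m i)
    rw [(hγ i).finish, hpb] at h1
    rw [h1, abs_of_nonpos (by linarith [hu.2])]
    ring
  have hcross : ∀ i, Cross G (γ i) (dist x₀ (b i)) τ s (γ i τ) := by
    intro i
    refine ⟨?_, ?_, ?_, rfl, ?_⟩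
    · have h1 := hγ i
      refine ⟨h1.nonneg, rfl, rfl, h1.isom⟩
    · rw [hτ]
      linarith
    · have := hρ0 i
      rw [hτ]
      linarith
    · intro u hu t ht g
      rw [← hproj i u hu t ht]
      exact hp.le g _ _
  have hS : ∀ i, ∃ S : Q → Q → ℤ, (∀ u v w, S u w = S u v + S v w) ∧
      (∀ (g : G) (u v : Q), S (g • u) (g • v) = S u v) ∧
      (∀ u v, JoinedIn {z | ∀ g : G, s ≤ dist z (g • γ i τ)} u v → S u v = 0) ∧
      S (γ i 0) (γ i (dist x₀ (b i))) = 1 := fun i =>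
    local_class hQ hL hC hr hs hB (hcross i)
  choose S hS1 hS2 hS3 hS4 using hS
  have hself : ∀ i u, S i u u = 0 := fun i u => by
    have := hS1 i u u u
    omega
  have hanti : ∀ i u v, S i v u = - S i u v := fun i u v => by
    have h1 := hS1 i u v u
    rw [hself] at h1
    omega
  -- the first two claims
  have hclaim : ∀ l i, S l x₀ (b i) = if l = i then 1 else 0 := by
    intro l i
    split_ifs with hli
    · subst hli
      have h1 := hS4 l
      rwa [(hγ l).start, (hγ l).finish] at h1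
    · apply hS3
      have h1 := (hγ i).joinedIn (h0m i) (h1m i) dist_nonneg
      rw [(hγ i).start, (hγ i).finish] at h1
      refine h1.mono ?_
      rintro _ ⟨u, hu, rfl⟩ g
      by_contra hcon
      push Not at hcon
      have e1 : dist (p (γ i u)) (p (γ l τ)) < s := (hp.le g _ _).trans_lt hcon
      have e2 := hpx i u hu
      have e3 := hpx l τ (hτm l)
      have e4 := hpy i u hu
      have e5 := hpy l τ (hτm l)
      have e6 := hsep i l (fun h => hli h.symm)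
      have e7 := dist_triangle (p x₀) (p (γ i u)) (p (γ l τ))
      have e8 := dist_triangle (Y i) (p (γ i u)) (Y l)
      have e9 := dist_triangle (p (γ i u)) (p (γ l τ)) (Y l)
      rw [dist_comm (Y i) (p (γ i u))] at e8
      have e10 := hρ1 i
      have e11 := hρ1 l
      rw [e2, e3] at e7
      rw [e4] at e8
      rw [e5] at e9
      linarith
  -- the third claim
  have hg : ∀ i : Fin N, ∃ g : G, JoinedIn (p ⁻¹' V) (b i.castSucc) (g • b i.succ) := by
    intro i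
    refine joined_lift hQ hp hV hc ?_ ?_
    · rw [hpb]
      exact hYV _
    · rw [hpb]
      exact hYV _
  choose g hg using hg
  have hclaim3 : ∀ l (i : Fin N), S l (b i.castSucc) (g i • b i.succ) = 0 := by
    intro l i
    apply hS3
    refine (hg i).mono ?_
    intro z hz k
    have e1 := hp.le k z (γ l τ)
    have e2 := dist_triangle (p x₀) (p (γ l τ)) (p z)
    rw [hpx l τ (hτm l), dist_comm (p (γ l τ)) (p z)] at e2
    have e3 := hlow _ hz
    linarith
  -- the homomorphisms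
  let φ : Fin (N + 1) → (Additive G →+ ℤ) := fun l =>
    AddMonoidHom.mk' (fun k => S l x₀ (k.toMul • x₀)) (by
      intro a c
      change S l x₀ ((a.toMul * c.toMul) • x₀) = _
      rw [hS1 l x₀ (a.toMul • x₀), mul_smul, hS2])
  have hφ : ∀ l (i : Fin N), φ l (Additive.ofMul (g i)) =
      (if l = i.castSucc then 1 else 0) - (if l = i.succ then 1 else 0) := by
    intro l i
    change S l x₀ (g i • x₀) = _
    rw [hS1 l x₀ (b i.castSucc) (g i • x₀), hS1 l (b i.castSucc) (g i • b i.succ) (g i • x₀),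
      hclaim3, hS2, hanti l x₀ (b i.succ), hclaim, hclaim]
    ring
  refine ⟨fun j => φ j.castSucc, ?_⟩
  rw [Fintype.linearIndependent_iff]
  intro c hcz i
  induction i using WellFounded.induction (wellFounded_gt (α := Fin N)) with
  | _ i ih =>
    have h1 := DFunLike.congr_fun hcz (Additive.ofMul (g i))
    rw [AddMonoidHom.finsetSum_apply, AddMonoidHom.zero_apply, Finset.sum_eq_single i] at h1
    · rw [AddMonoidHom.smul_apply, hφ, if_pos rfl, if_neg (Fin.castSucc_lt_succ (i := i)).ne,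
        sub_zero, smul_eq_mul, mul_one] at h1
      exact h1
    · intro j _ hji
      rw [AddMonoidHom.smul_apply, hφ]
      by_cases h2 : j.castSucc = i.succ
      · have h3 : i < j := by
          have := congrArg Fin.val h2
          rw [Fin.val_castSucc, Fin.val_succ] at this
          exact Fin.lt_def.mpr (by omega)
        rw [ih j h3, zero_smul]
      · rw [if_neg (fun h => hji (Fin.castSucc_injective _ h)), if_neg h2, sub_zero, smul_zero]
    · intro h2
      exact absurd (Finset.mem_univ i) h2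

end UW1
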