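import Pool.Agent.UW1.Defs

/-!
# UW1 package Transfer: the transfer of an invariant function (pure algebra)

PROOF. Define `hat q z : ℤ` for `q : G ⧸ E`, `z : Q` by `hat q z = χ (k⁻¹ • z)` for any `k` with
`(k : G ⧸ E) = q` (`Quotient.out`; well defined: another representative is `k * e`, `e ∈ E`, and
`χ ((k * e)⁻¹ • z) = χ (e⁻¹ • (k⁻¹ • z)) = χ (k⁻¹ • z)`). Then
`hat (h • q) (h • z) = hat q z` for `h : G` (`G` acts on `G ⧸ E`). Put
`S u v = ∑ᶠ q, (hat q v - hat q u)`; by `hfin` the summand has finite support. Additivity: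
`hat q w - hat q u = (hat q v - hat q u) + (hat q w - hat q v)` and `finsum_add_distrib`.
Invariance: `S (g • u) (g • v) = ∑ᶠ q, (hat (g⁻¹ • q) v - hat (g⁻¹ • q) u) = S u v` (reindexing by
the permutation `g⁻¹ • ·` of `G ⧸ E`, `finsum_comp_equiv`). Third: all summands are `0`
(`k⁻¹` runs through `G`). Fourth: only the summand of the trivial coset survives (for `q` different
from it a representative `k` is not in `E`, so `k⁻¹ ∉ E`), use `finsum_eq_single`; for the trivial
coset the representative `k` is in `E` and invariance gives `χ v - χ u`.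
-/

namespace UW1

theorem transfer {G Q : Type*} [Group G] [MulAction G Q] (E : Subgroup G) (χ : Q → ℤ)
    (hinv : ∀ e ∈ E, ∀ z, χ (e • z) = χ z)
    (hfin : ∀ u v : Q, {q : G ⧸ E | ∃ k : G, (k : G ⧸ E) = q ∧
      χ (k⁻¹ • u) ≠ χ (k⁻¹ • v)}.Finite) :
    ∃ S : Q → Q → ℤ, (∀ u v w, S u w = S u v + S v w) ∧
      (∀ (g : G) (u v : Q), S (g • u) (g • v) = S u v) ∧
      (∀ u v, (∀ k : G, χ (k • u) = χ (k • v)) → S u v = 0) ∧
      (∀ u v, (∀ k : G, k ∉ E → χ (k • u) = χ (k • v)) → S u v = χ v - χ u) := by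
  classical
  obtain ⟨hat, hhat⟩ : ∃ hat : G ⧸ E → Q → ℤ, ∀ q z, hat q z = χ ((q.out)⁻¹ • z) :=
    ⟨_, fun _ _ => rfl⟩
  have hmk : ∀ (k : G) (z : Q), hat (k : G ⧸ E) z = χ (k⁻¹ • z) := by
    intro k z
    obtain ⟨h, hh⟩ := QuotientGroup.mk_out_eq_mul E k
    rw [hhat, hh, mul_inv_rev, mul_smul]
    exact hinv _ (E.inv_mem h.2) _
  have hsupp : ∀ u v : Q, (Function.support fun q : G ⧸ E => hat q v - hat q u).Finite := by
    intro u v
    refine (hfin u v).subset fun q hq => ⟨q.out, QuotientGroup.out_eq' q, fun h => hq ?_⟩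
    change hat q v - hat q u = 0
    rw [hhat, hhat, h, sub_self]
  refine ⟨fun u v => ∑ᶠ q : G ⧸ E, (hat q v - hat q u), fun u v w => ?_, fun g u v => ?_,
    fun u v h => ?_, fun u v h => ?_⟩
  · rw [← finsum_add_distrib (hsupp u v) (hsupp v w)]
    refine finsum_congr fun q => ?_
    ring
  · have h1 : ∀ (q : G ⧸ E) (z : Q), hat q (g • z) = hat (g⁻¹ • q) z := by
      intro q z
      induction q using QuotientGroup.induction_on with
      | H k =>
        have h2 : g⁻¹ • (k : G ⧸ E) = ((g⁻¹ * k : G) : G ⧸ E) := rfl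
        rw [h2, hmk, hmk, mul_inv_rev, inv_inv, mul_smul]
    have h2 : ∀ q : G ⧸ E, hat q (g • v) - hat q (g • u) =
        (fun q' : G ⧸ E => hat q' v - hat q' u) (MulAction.toPerm g⁻¹ q) := by
      intro q
      rw [h1, h1]
      rfl
    change ∑ᶠ q : G ⧸ E, (hat q (g • v) - hat q (g • u)) = ∑ᶠ q : G ⧸ E, (hat q v - hat q u)
    rw [finsum_congr h2]
    exact finsum_comp_equiv (f := fun q' : G ⧸ E => hat q' v - hat q' u)
      (MulAction.toPerm g⁻¹ : Equiv.Perm (G ⧸ E))
  · have h1 : ∀ q : G ⧸ E, hat q v - hat q u = 0 := by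
      intro q
      rw [hhat, hhat, h, sub_self]
    change ∑ᶠ q : G ⧸ E, (hat q v - hat q u) = 0
    rw [finsum_congr h1, finsum_zero]
  · change ∑ᶠ q : G ⧸ E, (hat q v - hat q u) = χ v - χ u
    rw [finsum_eq_single _ ((1 : G) : G ⧸ E) fun q hq => ?_]
    · rw [hmk, hmk, inv_one, one_smul, one_smul]
    · have h1 : (q.out)⁻¹ ∉ E := by
        intro h2
        refine hq ?_
        rw [← QuotientGroup.out_eq' q, QuotientGroup.eq, mul_one]
        exact h2
      rw [hhat, hhat, h _ h1, sub_self]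

end UW1
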