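import Pool.Agent.UW1.Chi
import Pool.Agent.UW1.Transfer

/-!
# UW1 package LocalClass: the class supported in a ball

PROOF of `chi_finite`. Let `η` be a geodesic from `u` to `v` of length `ℓ`. Let `k : G` with
`chi (k⁻¹ • u) ≠ chi (k⁻¹ • v)`. By `chi_eq_of_joined` the translated geodesic `k⁻¹ • η` is not
contained in `Out G x r s`: there are `t ∈ [0, ℓ]` and `e ∈ Eg G x r` with
`dist (k⁻¹ • η t) (e • x) < s`, so `dist (η t) ((k * e) • x) < s`,
`dist ((k * e) • x) x < s + ℓ + dist u x`: the element `k * e` lies in a finite set `B` (`LocFin`)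
and `(k : G ⧸ Eg G x r) = ((k * e : G) : G ⧸ Eg G x r)` lies in the image of `B`.

PROOF of `local_class`. Apply `transfer` with `E = Eg G x r` and
`χ = chi G x r s (γ '' Icc τ ℓ)` (`chi_smul`, `chi_finite`). Third property: if `u` and `v` are
joined in `{z | ∀ g, s ≤ dist z (g • x)}` then for every `k : G` the points `k • u`, `k • v` are
joined in `Out G x r s` (as `dist (k • z) (e • x) = dist z ((k⁻¹ * e) • x) ≥ s`), so
`chi_eq_of_joined` applies. Fourth: `foreign` and `own` (with `k = 1`): `S (γ 0) (γ ℓ) = 1 - 0`.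
-/

open Set Metric

namespace UW1

variable {G Q : Type*} [MetricSpace Q] [Group G] [MulAction G Q] [IsIsometricSMul G Q]
  {x : Q} {r s C : ℝ}

private theorem lc_joined {F F' : Set Q} {u v : Q} (k : G) (h : JoinedIn F u v)
    (hF : ∀ z ∈ F, k • z ∈ F') : JoinedIn F' (k • u) (k • v) := by
  obtain ⟨p, hp⟩ := h
  exact ⟨p.map (continuous_const_smul k), fun t => hF _ (hp t)⟩

theorem chi_finite (hQ : Geodesic Q) (hL : LocFin G Q) (A : Set Q) (u v : Q) :
    {q : G ⧸ Eg G x r | ∃ k : G, (k : G ⧸ Eg G x r) = q ∧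
      chi G x r s A (k⁻¹ • u) ≠ chi G x r s A (k⁻¹ • v)}.Finite := by
  obtain ⟨η, hη⟩ := hQ u v
  refine ((hL x (s + dist u v + dist u x)).image
    (fun g : G => (g : G ⧸ Eg G x r))).subset ?_
  rintro q ⟨k, rfl, hk⟩
  have h0 : (0 : ℝ) ∈ Icc (0 : ℝ) (dist u v) := ⟨le_rfl, hη.nonneg⟩
  have h1 : dist u v ∈ Icc (0 : ℝ) (dist u v) := ⟨hη.nonneg, le_rfl⟩
  have h2 := hη.joinedIn h0 h1 hη.nonneg
  rw [hη.start, hη.finish] at h2
  have h3 : ∃ t ∈ Icc (0 : ℝ) (dist u v), k⁻¹ • η t ∉ Out G x r s := by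
    by_contra hcon
    push Not at hcon
    refine hk (chi_eq_of_joined (lc_joined k⁻¹ h2 ?_))
    rintro _ ⟨t, ht, rfl⟩
    exact hcon t ht
  obtain ⟨t, ht, hto⟩ := h3
  have h4 : ∃ o ∈ Orb G x r, dist (k⁻¹ • η t) o < s := by
    by_contra hcon
    push Not at hcon
    exact hto hcon
  obtain ⟨o, ⟨e, he, rfl⟩, ho⟩ := h4
  have h5 : dist (η t) ((k * e) • x) < s := by
    have h6 : dist (k⁻¹ • η t) (e • x) = dist (k • k⁻¹ • η t) (k • e • x) :=
      (dist_smul k _ _).symm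
    rw [h6, smul_inv_smul, ← mul_smul] at ho
    exact ho
  have h7 : dist (η t) u = t := by
    have h8 := hη.isom t ht 0 h0
    rw [hη.start, sub_zero, abs_of_nonneg ht.1] at h8
    exact h8
  refine ⟨k * e, ?_, ?_⟩
  · change dist ((k * e) • x) x ≤ s + dist u v + dist u x
    have h9 := dist_triangle ((k * e) • x) (η t) x
    have h10 := dist_triangle (η t) u x
    rw [dist_comm ((k * e) • x) (η t)] at h9
    have h11 := ht.2
    linarith
  · change ((k * e : G) : G ⧸ Eg G x r) = (k : G ⧸ Eg G x r)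
    rw [QuotientGroup.eq]
    have h12 : (k * e)⁻¹ * k = e⁻¹ := by group
    rw [h12]
    exact inv_mem he

theorem local_class (hQ : Geodesic Q) (hL : LocFin G Q) (hC : 0 < C) (hr : 5 * C < r)
    (hs : s = r + 2 * C) (hB : Bottleneck C Q) {γ : ℝ → Q} {ℓ τ : ℝ}
    (hX : Cross G γ ℓ τ s x) :
    ∃ S : Q → Q → ℤ, (∀ u v w, S u w = S u v + S v w) ∧
      (∀ (g : G) (u v : Q), S (g • u) (g • v) = S u v) ∧
      (∀ u v, JoinedIn {z | ∀ g : G, s ≤ dist z (g • x)} u v → S u v = 0) ∧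
      S (γ 0) (γ ℓ) = 1 := by
  obtain ⟨S, hS1, hS2, hS3, hS4⟩ := transfer (Eg G x r) (chi G x r s (γ '' Icc τ ℓ))
    (fun e he z => chi_smul he z) (chi_finite hQ hL _)
  refine ⟨S, hS1, hS2, fun u v huv => hS3 u v fun k => ?_, ?_⟩
  · refine chi_eq_of_joined (lc_joined k huv ?_)
    rintro z hz o ⟨e, he, rfl⟩
    have h1 : dist (k • z) (e • x) = dist z ((k⁻¹ * e) • x) := by
      rw [← dist_smul k⁻¹ (k • z) (e • x), inv_smul_smul, ← mul_smul]
    rw [h1]
    exact hz _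
  · rw [hS4 _ _ fun k hk => (foreign hQ hL hC hr hs hB hX hk).symm]
    have h1 := own hQ hL hC hr hs hB hX (one_mem (Eg G x r))
    rw [one_smul, one_smul] at h1
    rw [h1.1, h1.2, sub_zero]

end UW1
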