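import Pool.Agent.UW1.Deck

/-!
# UW1 package Rank: first Betti number and homomorphisms of the deck group

PROOF of `not_linearIndependent`. `IsQuotientCoveringMap.fundamentalGroupEquiv` (Mathlib,
`Topology/Homotopy/Lifting`) gives `FundamentalGroup X x₀ ≃* (Deck p)ᵐᵒᵖ`. A homomorphism
`φ : Additive (Deck p) →+ ℤ` gives the homomorphism `γ ↦ φ (unop (equiv γ))` of
`Additive (FundamentalGroup X x₀)` (the target is commutative, so the order of multiplication does
not matter). This is an injective `ℤ`-linear map
`(Additive (Deck p) →+ ℤ) →ₗ[ℤ] (Additive (FundamentalGroup X x₀) →+ ℤ)`, so a linearly independent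
family `Fin (b+1) → (Additive (Deck p) →+ ℤ)` gives a linearly independent family of `b + 1`
elements and `b + 1 ≤ Module.rank ≤ b` (`LinearIndependent.cardinal_le_rank`), contradiction.
-/

namespace UW1

variable {Q X : Type*} [MetricSpace Q] [MetricSpace X] {p : Q → X}

theorem not_linearIndependent [SimplyConnectedSpace Q] (hX : Geodesic X) (hQ : Geodesic Q)
    (hp : IsCoveringMap p) (hl : LocIso p) (x₀ : X) (b : ℕ)
    (hb : Module.rank ℤ (Additive (FundamentalGroup X x₀) →+ ℤ) ≤ b)
    (φ : Fin (b + 1) → (Additive (Deck p) →+ ℤ)) : ¬ LinearIndependent ℤ φ := by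
  intro hli
  have hq := deck_covering hX hQ hp hl
  obtain ⟨y, hy⟩ := (deck_isQuot hX hQ hp hl).surj x₀
  let e : FundamentalGroup X x₀ ≃* (Deck p)ᵐᵒᵖ :=
    hq.fundamentalGroupEquiv (⟨y, hy⟩ : p ⁻¹' {x₀})
  let T : (Additive (Deck p) →+ ℤ) →ₗ[ℤ] (Additive (FundamentalGroup X x₀) →+ ℤ) :=
    AddMonoidHom.toIntLinearMap
      { toFun := fun f =>
          { toFun := fun γ => f (Additive.ofMul (MulOpposite.unop (e (Additive.toMul γ))))
            map_zero' := by
              rw [toMul_zero, map_one, MulOpposite.unop_one, ofMul_one, map_zero]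
            map_add' := fun a b => by
              rw [toMul_add, map_mul, MulOpposite.unop_mul, ofMul_mul, map_add, add_comm] }
        map_zero' := rfl
        map_add' := fun _ _ => rfl }
  have hT : Function.Injective T := by
    intro f f' h
    refine DFunLike.ext _ _ fun g => ?_
    have h1 := DFunLike.congr_fun h
      (Additive.ofMul (e.symm (MulOpposite.op (Additive.toMul g))))
    have h2 : ∀ f₁ : Additive (Deck p) →+ ℤ,
        T f₁ (Additive.ofMul (e.symm (MulOpposite.op (Additive.toMul g)))) = f₁ g := by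
      intro f₁
      change f₁ (Additive.ofMul (MulOpposite.unop (e (Additive.toMul
        (Additive.ofMul (e.symm (MulOpposite.op (Additive.toMul g)))))))) = f₁ g
      rw [toMul_ofMul, MulEquiv.apply_symm_apply, MulOpposite.unop_op, ofMul_toMul]
    rw [h2, h2] at h1
    exact h1
  have h1 := (hli.map' T (LinearMap.ker_eq_bot.2 hT)).cardinal_lift_le_rank
  have h2 := h1.trans (Cardinal.lift_le.2 hb)
  simp only [Cardinal.mk_fin, Cardinal.lift_natCast] at h2
  have h3 : b + 1 ≤ b := by exact_mod_cast h2
  omega

end UW1
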