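import Pool.Agent.UW1.Core
import Pool.Agent.UW1.Rank

/-!
# UW1: the main theorem (assembly)
-/

namespace UW1

universe u

theorem main {X Q : Type u} [MetricSpace X] [CompactSpace X] [MetricSpace Q]
    [SimplyConnectedSpace Q] (hX : Geodesic X) (hQ : Geodesic Q) (p : Q → X)
    (hp : IsCoveringMap p) (hl : LocIso p) (x₀ : X) (b : ℕ)
    (hb : Module.rank ℤ (Additive (FundamentalGroup X x₀) →+ ℤ) ≤ b) :
    UWfin 1 X ≤ 42 * (b + 1) * UW 1 Q :=
  core_uw (G := Deck p) hQ (deck_locFin hX hQ hp hl) (deck_isQuot hX hQ hp hl) b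
    (not_linearIndependent hX hQ hp hl x₀ b hb)

end UW1
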