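import Pool.Agent.UW1.GateLemma

/-!
# UW1 package Orbit: elementary facts on the orbit `Orb G x r` and the set `Out G x r s`

PROOFS. `self_mem_orb`: `g = 1`. `smul_mem_orb`: subgroup. `smul_mem_out_iff`: for `e ∈ Eg G x r`
the map `o ↦ e • o` permutes `Orb G x r` and preserves distances (`dist_smul`,
`dist (e • z) o = dist z (e⁻¹ • o)`). `far`: `o = e • x`; if `dist (k • x) (e • x) < 2 r` then
`dist ((e⁻¹ * k) • x) x < 2 r`, so `e⁻¹ * k ∈ Eg G x r` (generator) and `k ∈ Eg G x r`.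
`orb_joined`: it is enough to join `x` to `g • x` for every `g ∈ Eg G x r` inside
`N = {v | ∃ o ∈ Orb G x r, dist v o < r}` (then `e • x` and `e' • x` are joined by translating: `N`
is invariant under `Eg G x r` and `JoinedIn` can be mapped by the isometry `e • ·`). Closure
induction (`Subgroup.closure_induction`): generator `g`: a geodesic from `x` to `g • x` has length
`ℓ < 2 r`; its points at parameter `< r` are within `r` of `x`, the points at parameter `t ≥ ℓ - t`,
i.e. with `ℓ - t < r`, within `r` of `g • x`. Product: `x → g • x → g • (h • x)`. Inverse: translate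
the path from `x` to `g • x` by `g⁻¹`. `exists_nearest`: by `LocFin` only finitely many `g : G` have
`dist (g • x) z ≤ dist x z` (as `dist (g • x) x ≤ dist (g • x) z + dist z x`), minimise over the
finite nonempty set. `mem_out_iff`: `Metric.infDist`, `le_infDist`. `mem_sph_iff`: with
`exists_nearest`. `continuous_infDist` is in Mathlib (`Metric.continuous_infDist_pt`).
-/

open Set Metric

namespace UW1

variable {G Q : Type*} [MetricSpace Q] [Group G] [MulAction G Q] [IsIsometricSMul G Q]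
  {x : Q} {r s : ℝ}

theorem self_mem_orb : x ∈ Orb G x r :=
  ⟨1, one_mem _, (one_smul _ _).symm⟩

theorem smul_mem_orb {e : G} (he : e ∈ Eg G x r) {z : Q} (hz : z ∈ Orb G x r) :
    e • z ∈ Orb G x r := by
  obtain ⟨g, hg, rfl⟩ := hz
  exact ⟨e * g, mul_mem he hg, (mul_smul _ _ _).symm⟩

private theorem Orbit_dist (e : G) (z o : Q) : dist (e • z) o = dist z (e⁻¹ • o) := by
  conv_lhs => rw [← smul_inv_smul e o]
  rw [dist_smul]

private theorem Orbit_out {e : G} (he : e ∈ Eg G x r) {z : Q} (hz : z ∈ Out G x r s) :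
    e • z ∈ Out G x r s := by
  intro o ho
  rw [Orbit_dist]
  exact hz _ (smul_mem_orb (inv_mem he) ho)

private theorem Orbit_sph {e : G} (he : e ∈ Eg G x r) {z : Q} (hz : z ∈ Sph G x r s) :
    e • z ∈ Sph G x r s := by
  obtain ⟨h1, o, ho, h2⟩ := hz
  refine ⟨Orbit_out he h1, e • o, smul_mem_orb he ho, ?_⟩
  rw [dist_smul]
  exact h2

theorem smul_mem_out_iff {e : G} (he : e ∈ Eg G x r) {z : Q} :
    e • z ∈ Out G x r s ↔ z ∈ Out G x r s := by
  refine ⟨fun h => ?_, Orbit_out he⟩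
  have h1 := Orbit_out (inv_mem he) h
  rwa [inv_smul_smul] at h1

theorem smul_mem_sph_iff {e : G} (he : e ∈ Eg G x r) {z : Q} :
    e • z ∈ Sph G x r s ↔ z ∈ Sph G x r s := by
  refine ⟨fun h => ?_, Orbit_sph he⟩
  have h1 := Orbit_sph (inv_mem he) h
  rwa [inv_smul_smul] at h1

theorem far {k : G} (hk : k ∉ Eg G x r) {o : Q} (ho : o ∈ Orb G x r) :
    2 * r ≤ dist (k • x) o := by
  obtain ⟨e, he, rfl⟩ := ho
  by_contra hlt
  push Not at hlt
  apply hk
  have h1 : dist ((e⁻¹ * k) • x) x < 2 * r := by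
    rw [mul_smul, Orbit_dist, inv_inv]
    exact hlt
  have h2 : e⁻¹ * k ∈ Eg G x r := Subgroup.subset_closure h1
  have h3 := mul_mem he h2
  rwa [mul_inv_cancel_left] at h3

private theorem Orbit_nbhd {e : G} (he : e ∈ Eg G x r) {v : Q}
    (hv : v ∈ {v | ∃ o ∈ Orb G x r, dist v o < r}) :
    e • v ∈ {v | ∃ o ∈ Orb G x r, dist v o < r} := by
  obtain ⟨o, ho, h⟩ := hv
  refine ⟨e • o, smul_mem_orb he ho, ?_⟩
  rw [dist_smul]
  exact h

private theorem Orbit_map {e : G} (he : e ∈ Eg G x r) {a b : Q}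
    (h : JoinedIn {v | ∃ o ∈ Orb G x r, dist v o < r} a b) :
    JoinedIn {v | ∃ o ∈ Orb G x r, dist v o < r} (e • a) (e • b) := by
  obtain ⟨γ, hγ⟩ := h
  exact ⟨γ.map (isometry_smul Q e).continuous, fun t => Orbit_nbhd he (hγ t)⟩

private theorem Orbit_geod {a b : Q} {γ : ℝ → Q} {ℓ : ℝ} (h : IsGeod γ ℓ a b) {F : Set Q}
    (hF : ∀ t ∈ Icc 0 ℓ, γ t ∈ F) : JoinedIn F a b := by
  have hm : ∀ t : unitInterval, (t : ℝ) * ℓ ∈ Icc 0 ℓ := fun t =>
    ⟨mul_nonneg t.2.1 h.nonneg, mul_le_of_le_one_left h.nonneg t.2.2⟩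
  have hc : ContinuousOn γ (Icc 0 ℓ) := by
    intro s hs
    rw [Metric.continuousWithinAt_iff]
    intro ε hε
    refine ⟨ε, hε, fun t ht hd => ?_⟩
    rw [h.isom t ht s hs, ← Real.dist_eq]
    exact hd
  have hc2 : Continuous fun t : unitInterval => γ ((t : ℝ) * ℓ) :=
    hc.comp_continuous (continuous_subtype_val.mul continuous_const) hm
  refine ⟨⟨⟨fun t => γ ((t : ℝ) * ℓ), hc2⟩, ?_, ?_⟩, fun t => hF _ (hm t)⟩
  · change γ ((0 : ℝ) * ℓ) = a
    rw [zero_mul, h.start]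
  · change γ ((1 : ℝ) * ℓ) = b
    rw [one_mul, h.finish]

private theorem Orbit_join (hQ : Geodesic Q) (hr : 0 < r) {g : G} (hg : g ∈ Eg G x r) :
    JoinedIn {v | ∃ o ∈ Orb G x r, dist v o < r} x (g • x) := by
  have hx : x ∈ {v | ∃ o ∈ Orb G x r, dist v o < r} :=
    ⟨x, self_mem_orb, by rw [dist_self]; exact hr⟩
  unfold Eg at hg
  induction hg using Subgroup.closure_induction with
  | mem g hg =>
    obtain ⟨γ, hγ⟩ := hQ x (g • x)
    have hlt : dist x (g • x) < 2 * r := by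
      rw [dist_comm]
      exact hg
    refine Orbit_geod hγ fun t ht => ?_
    have h0 : (0 : ℝ) ∈ Icc 0 (dist x (g • x)) := ⟨le_rfl, hγ.nonneg⟩
    have h1 : dist x (g • x) ∈ Icc 0 (dist x (g • x)) := ⟨hγ.nonneg, le_rfl⟩
    rcases lt_or_ge t r with h | h
    · refine ⟨x, self_mem_orb, ?_⟩
      have h2 := hγ.isom t ht 0 h0
      rw [hγ.start, sub_zero, abs_of_nonneg ht.1] at h2
      rw [h2]
      exact h
    · refine ⟨g • x, smul_mem_orb (Subgroup.subset_closure hg) self_mem_orb, ?_⟩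
      have h2 := hγ.isom t ht _ h1
      rw [hγ.finish, abs_sub_comm, abs_of_nonneg (sub_nonneg.2 ht.2)] at h2
      rw [h2]
      linarith
  | one =>
    rw [one_smul]
    exact JoinedIn.refl hx
  | mul a b ha _ iha ihb =>
    rw [mul_smul]
    exact iha.trans (Orbit_map ha ihb)
  | inv a ha iha =>
    have ha' : a⁻¹ ∈ Eg G x r := inv_mem ha
    have h := Orbit_map ha' iha
    rw [inv_smul_smul] at h
    exact h.symm

theorem orb_joined (hQ : Geodesic Q) (hr : 0 < r) :
    ∀ o ∈ Orb G x r, ∀ o' ∈ Orb G x r,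
      JoinedIn {v | ∃ o ∈ Orb G x r, dist v o < r} o o' := by
  rintro o ⟨e, he, rfl⟩ o' ⟨e', he', rfl⟩
  exact (Orbit_join hQ hr he).symm.trans (Orbit_join hQ hr he')

theorem exists_nearest (hL : LocFin G Q) (z : Q) :
    ∃ o ∈ Orb G x r, infDist z (Orb G x r) = dist z o := by
  have hfin : {g : G | g ∈ Eg G x r ∧ dist (g • x) z ≤ dist x z}.Finite := by
    refine (hL x (dist x z + dist z x)).subset ?_
    rintro g ⟨-, hg⟩
    exact (dist_triangle _ z _).trans (by linarith)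
  obtain ⟨g0, ⟨hg0, hg1⟩, hmin⟩ := Set.exists_min_image _ (fun g : G => dist (g • x) z) hfin
    ⟨1, one_mem _, by rw [one_smul]⟩
  refine ⟨g0 • x, ⟨g0, hg0, rfl⟩, le_antisymm (infDist_le_dist_of_mem ⟨g0, hg0, rfl⟩) ?_⟩
  rw [le_infDist ⟨x, self_mem_orb⟩]
  rintro y ⟨g, hg, rfl⟩
  rw [dist_comm z, dist_comm z]
  rcases le_or_gt (dist (g • x) z) (dist x z) with h | h
  · exact hmin g ⟨hg, h⟩
  · exact hg1.trans h.le

theorem mem_out_iff {z : Q} : z ∈ Out G x r s ↔ s ≤ infDist z (Orb G x r) := by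
  rw [le_infDist ⟨x, self_mem_orb⟩]
  rfl

theorem mem_sph_iff (hL : LocFin G Q) {z : Q} :
    z ∈ Sph G x r s ↔ infDist z (Orb G x r) = s := by
  constructor
  · rintro ⟨h1, o, ho, h2⟩
    exact le_antisymm ((infDist_le_dist_of_mem ho).trans h2.le) (mem_out_iff.1 h1)
  · intro h
    obtain ⟨o, ho, h1⟩ := exists_nearest (x := x) (r := r) hL z
    exact ⟨mem_out_iff.2 h.ge, o, ho, by rw [← h1, h]⟩

end UW1
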