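import Pool.Agent.UW1.Local

/-!
# UW1 package Proper: the universal cover of a compact geodesic space is proper

PROOF of `exists_unif_compact`. For `x : X` take an evenly covered open neighbourhood `U`
(a trivialization `e` of `p` over `U`, discrete fibre) and `R > 0` with `ball x R ⊆ U`. Let
`z ∈ p ⁻¹' {x}`. The sheet of `z`: the section `σ : U → Q`,
`σ b = e.symm (b, (e z).2)`, continuous on `U`, `p (σ b) = b`, `σ x = z`. If `z' ∈ ball z R` then
the geodesic of `Q` from `z` to `z'` projects into `ball x R ⊆ U` (`LocIso.lip`), so the second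
component of `e` is constant along it (a continuous map from an interval to a discrete space),
hence `σ (p z') = z'`. So `closedBall z (R/2)` is a closed subset of the compact set
`σ '' closedBall x (R/2)`: compact, for all `z` over `x`, with `R = R x` depending only on `x`.
Cover `X` by finitely many balls `ball x_i (R_i / 4)` and put `ρ = min R_i / 4`. For `z : Q` choose
`i` with `p z ∈ ball x_i (R_i/4)`; `lift_geod` gives `z_i` with `p z_i = x_i`,
`dist z z_i ≤ dist (p z) x_i < R_i/4`, so `closedBall z ρ ⊆ closedBall z_i (R_i/2)`, a closed subset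
of a compact set. (`X` empty: then `Q` is empty.)

PROOF of `proper_of_unif`. Show by induction on `n` that `closedBall z (n ρ / 2)` is compact for
all `z`. Step: `closedBall z (R + ρ/2)` with `K = closedBall z R` compact: cover `K` by finitely
many balls `ball a_i (ρ/2)`, `a_i ∈ K`. If `dist z b ≤ R + ρ/2` then a geodesic from `z` to `b`
contains a point `a ∈ K` with `dist a b ≤ ρ/2` (`a = γ (min R (dist z b))`), and `a ∈ ball a_i
(ρ/2)` gives `b ∈ closedBall a_i ρ`. So `closedBall z (R + ρ/2)` is a closed subset of a finite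
union of compact sets. Then `ProperSpace` (every closed ball is contained in one of these, closed).
-/

open Set Metric

namespace UW1

variable {Q X : Type*} [MetricSpace Q] [MetricSpace X] {p : Q → X}

private theorem proper_sheet [CompactSpace X] (hQ : Geodesic Q)
    (hp : IsCoveringMap p) (hl : LocIso p) (x : X) :
    ∃ R > 0, ∀ z : Q, p z = x → IsCompact (closedBall z R) := by
  obtain ⟨hI, U, hxU, hU, -, H, hH⟩ := hp x
  obtain ⟨R, hR, hRU⟩ := Metric.isOpen_iff.1 hU x hxU
  refine ⟨R / 2, by positivity, fun z hz => ?_⟩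
  have hKU : ∀ b ∈ closedBall x (R / 2), b ∈ U := fun b hb =>
    hRU (mem_ball.2 (lt_of_le_of_lt (mem_closedBall.1 hb) (by linarith)))
  have hzU : z ∈ p ⁻¹' U := by
    rw [mem_preimage, hz]
    exact hxU
  set i₀ := (H ⟨z, hzU⟩).2 with hi₀
  let g : closedBall x (R / 2) → Q := fun b => (H.symm (⟨b.1, hKU b.1 b.2⟩, i₀)).1
  have hg : Continuous g := by
    refine continuous_subtype_val.comp (H.symm.continuous.comp ?_)
    exact Continuous.prodMk (continuous_subtype_val.subtype_mk _) continuous_const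
  have : CompactSpace (closedBall x (R / 2)) :=
    isCompact_iff_compactSpace.1 isClosed_closedBall.isCompact
  refine (isCompact_range hg).of_isClosed_subset isClosed_closedBall ?_
  intro z' hz'
  have hd : dist z z' ≤ R / 2 := by
    rw [dist_comm]
    exact hz'
  obtain ⟨γ, hγ⟩ := hQ z z'
  have hmem : ∀ t : Icc (0 : ℝ) (dist z z'), γ t ∈ p ⁻¹' U := by
    intro t
    refine hKU _ ?_
    rw [mem_closedBall, dist_comm, ← hz]
    refine (hl.lip hQ z (γ t)).trans ?_
    have h1 := hγ.isom 0 ⟨le_refl _, hγ.nonneg⟩ t t.2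
    rw [hγ.start] at h1
    rw [h1, zero_sub, abs_neg, abs_of_nonneg t.2.1]
    exact t.2.2.trans hd
  let c : Icc (0 : ℝ) (dist z z') → p ⁻¹' U := fun t => ⟨γ t, hmem t⟩
  have hc : Continuous c := by
    refine Continuous.subtype_mk ?_ _
    refine (Isometry.of_dist_eq fun s t => ?_).continuous
    rw [hγ.isom s s.2 t t.2]
    rfl
  have : PreconnectedSpace (Icc (0 : ℝ) (dist z z')) :=
    Subtype.preconnectedSpace isPreconnected_Icc
  have hcon : Continuous fun t => (H (c t)).2 := continuous_snd.comp (H.continuous.comp hc)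
  have h2 : (H (c ⟨dist z z', hγ.nonneg, le_refl _⟩)).2 =
      (H (c ⟨0, le_refl _, hγ.nonneg⟩)).2 :=
    PreconnectedSpace.constant inferInstance hcon
  have hz'K : p z' ∈ closedBall x (R / 2) := by
    rw [mem_closedBall, dist_comm, ← hz]
    exact (hl.lip hQ z z').trans hd
  have hz'U : z' ∈ p ⁻¹' U := hKU _ hz'K
  have e1 : c ⟨dist z z', hγ.nonneg, le_refl _⟩ = ⟨z', hz'U⟩ := Subtype.ext hγ.finish
  have e2 : c ⟨0, le_refl _, hγ.nonneg⟩ = ⟨z, hzU⟩ := Subtype.ext hγ.start
  rw [e1, e2] at h2
  refine ⟨⟨p z', hz'K⟩, ?_⟩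
  have h3 : H ⟨z', hz'U⟩ = (⟨p z', hKU _ hz'K⟩, i₀) :=
    Prod.ext (Subtype.ext (hH _)) h2
  change (H.symm (⟨p z', hKU _ hz'K⟩, i₀)).1 = z'
  rw [← h3, H.symm_apply_apply]

theorem exists_unif_compact [CompactSpace X] (hX : Geodesic X) (hQ : Geodesic Q)
    (hp : IsCoveringMap p) (hl : LocIso p) :
    ∃ ρ > 0, ∀ z : Q, IsCompact (closedBall z ρ) := by
  classical
  choose R hR hRc using fun x => proper_sheet hQ hp hl x
  obtain ⟨t, -, ht⟩ := (isCompact_univ (X := X)).elim_nhds_subcover (fun x => ball x (R x / 2))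
    fun x _ => ball_mem_nhds x (half_pos (hR x))
  have hmin : ∀ t : Finset X, ∃ ρ : ℝ, 0 < ρ ∧ ∀ x ∈ t, ρ ≤ R x / 2 := by
    intro t
    induction t using Finset.induction_on with
    | empty => exact ⟨1, one_pos, fun x hx => absurd hx (Finset.notMem_empty x)⟩
    | insert a t _ ih =>
      obtain ⟨ρ, h1, h2⟩ := ih
      refine ⟨min ρ (R a / 2), lt_min h1 (half_pos (hR a)), fun x hx => ?_⟩
      rcases Finset.mem_insert.1 hx with rfl | hx
      · exact min_le_right _ _
      · exact (min_le_left _ _).trans (h2 x hx)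
  obtain ⟨ρ, hρ, hρt⟩ := hmin t
  refine ⟨ρ, hρ, fun z => ?_⟩
  obtain ⟨x, hx, hzx⟩ := mem_iUnion₂.1 (ht (mem_univ (p z)))
  obtain ⟨z', hz', hd⟩ := lift_geod hX hp hl z x
  have h1 : ρ ≤ R x / 2 := hρt x hx
  refine (hRc x z' hz').of_isClosed_subset isClosed_closedBall fun w hw => ?_
  rw [mem_closedBall] at hw ⊢
  have h2 := dist_triangle w z z'
  have h3 : dist (p z) x < R x / 2 := hzx
  linarith

theorem proper_of_unif (hQ : Geodesic Q) {ρ : ℝ} (hρ : 0 < ρ)
    (h : ∀ z : Q, IsCompact (closedBall z ρ)) : ProperSpace Q := by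
  have key : ∀ (n : ℕ) (z : Q), IsCompact (closedBall z (n * (ρ / 2))) := by
    intro n
    induction n with
    | zero =>
      intro z
      rw [Nat.cast_zero, zero_mul, closedBall_zero]
      exact isCompact_singleton
    | succ n ih =>
      intro z
      obtain ⟨t, htK, htf, ht⟩ := (ih z).finite_cover_balls (half_pos hρ)
      refine (htf.isCompact_biUnion fun x _ => h x).of_isClosed_subset isClosed_closedBall ?_
      intro b hb
      rw [mem_closedBall, dist_comm] at hb
      push_cast at hb
      obtain ⟨γ, hγ⟩ := hQ z b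
      have hR : 0 ≤ (n : ℝ) * (ρ / 2) := by positivity
      set s := min ((n : ℝ) * (ρ / 2)) (dist z b) with hs
      have hs0 : 0 ≤ s := le_min hR hγ.nonneg
      have hs1 : s ≤ dist z b := min_le_right _ _
      have h1 := hγ.isom 0 ⟨le_refl _, hγ.nonneg⟩ s ⟨hs0, hs1⟩
      rw [hγ.start, zero_sub, abs_neg, abs_of_nonneg hs0] at h1
      have h2 := hγ.isom (dist z b) ⟨hγ.nonneg, le_refl _⟩ s ⟨hs0, hs1⟩
      rw [hγ.finish, abs_of_nonneg (by linarith)] at h2
      have haK : γ s ∈ closedBall z ((n : ℝ) * (ρ / 2)) := by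
        rw [mem_closedBall, dist_comm, h1]
        exact min_le_left _ _
      obtain ⟨x, hx, hax⟩ := mem_iUnion₂.1 (ht haK)
      refine mem_iUnion₂.2 ⟨x, hx, ?_⟩
      rw [mem_ball] at hax
      rw [mem_closedBall]
      have h3 := dist_triangle b (γ s) x
      have h4 : dist z b - s ≤ ρ / 2 := by
        rcases min_choice ((n : ℝ) * (ρ / 2)) (dist z b) with h5 | h5
        · rw [hs, h5]
          linarith
        · rw [hs, h5]
          linarith
      linarith
  refine ⟨fun z r => ?_⟩
  obtain ⟨n, hn⟩ := exists_nat_ge (r / (ρ / 2))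
  refine (key n z).of_isClosed_subset isClosed_closedBall (closedBall_subset_closedBall ?_)
  rwa [div_le_iff₀ (half_pos hρ)] at hn

end UW1
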