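import Pool.Agent.UW1.Defs

/-!
# UW1 package Sperner: a Sperner lemma on the square grid

PROOF of `sperner_square` (parity). Let `e a b : ZMod 2` be `1` if `{a, b} = {0, 1}` (as a set of
labels in `Fin 3`) and `0` otherwise. Suppose that no cell contains all three labels. Then for
the two triangles of each cell (diagonal from `(i, j)` to `(i+1, j+1)`)
`e (L a) (L b) + e (L b) (L c) + e (L a) (L c) = 0` (a case check in `Fin 3`: the sum is `1` iff
the three labels are distinct), hence for each cell
`e (bottom edge) + e (right edge) + e (top edge) + e (left edge) = 0`. Summing over the cells of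
a row (`Finset.sum_range_succ` induction, telescoping) and then over all rows:
`sum of e over the bottom row + over the top row + over the left column + right column = 0`.
Left column: all labels are `1`, so `0`; right column: all labels are `0`, so `0`; bottom row:
edges `[i, i+1]` with `i + 1 ≤ m` have labels `≠ 0`, those with `m ≤ i` have labels `≠ 1`, so `0`.
Top row: labels in `{0, 1}`, starting with `L 0 n = 1` and ending with `L n n = 0`; for labels in
`{0, 1}` one has `e a b = (a : ZMod 2) - (b : ZMod 2)` (numerically), so the sum telescopes to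
`L 0 n - L n n = 1`. Contradiction. (For `n = 0`: `L 0 0 = 1` and `L 0 0 = 0`, contradiction.)
-/

namespace UW1

private def spE (a b : Fin 3) : ZMod 2 := if (a = 0 ∧ b = 1) ∨ (a = 1 ∧ b = 0) then 1 else 0

private def spF (a : Fin 3) : ZMod 2 := if a = 1 then 1 else 0

private theorem spE_cell : ∀ p q r s : Fin 3, (∀ c, c = p ∨ c = q ∨ c = r ∨ c = s) ∨
    spE p q + spE s r + (spE q r - spE p s) = 0 := by
  decide

private theorem spE_zero : ∀ a b : Fin 3, (a ≠ 0 ∧ b ≠ 0) ∨ (a ≠ 1 ∧ b ≠ 1) → spE a b = 0 := by
  decide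

private theorem spE_sub : ∀ a b : Fin 3, a ≠ 2 → b ≠ 2 → spE a b = spF b - spF a := by
  decide

private theorem spE_self : ∀ a : Fin 3, spE a a = 0 := by
  decide

private theorem sp_two (a b : ZMod 2) (h : a + b = 0) : a = b := by
  revert a b
  decide

theorem sperner_square (n m : ℕ) (hm : m ≤ n) (L : ℕ → ℕ → Fin 3)
    (hleft : ∀ j ≤ n, L 0 j = 1) (hright : ∀ j ≤ n, L n j = 0)
    (htop : ∀ i ≤ n, L i n ≠ 2) (hbl : ∀ i ≤ m, L i 0 ≠ 0)
    (hbr : ∀ i, m ≤ i → i ≤ n → L i 0 ≠ 1) :
    ∃ i < n, ∃ j < n, ∀ c : Fin 3, ∃ a b : ℕ, a ≤ 1 ∧ b ≤ 1 ∧ L (i + a) (j + b) = c := by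
  by_contra hno
  -- the relation of a cell
  have hcell : ∀ i < n, ∀ j < n, spE (L i j) (L (i + 1) j) +
      spE (L i (j + 1)) (L (i + 1) (j + 1)) +
      (spE (L (i + 1) j) (L (i + 1) (j + 1)) - spE (L i j) (L i (j + 1))) = 0 := by
    intro i hi j hj
    rcases spE_cell (L i j) (L (i + 1) j) (L (i + 1) (j + 1)) (L i (j + 1)) with h | h
    · exfalso
      apply hno
      refine ⟨i, hi, j, hj, fun c => ?_⟩
      rcases h c with h1 | h1 | h1 | h1
      · exact ⟨0, 0, by omega, by omega, h1.symm⟩
      · exact ⟨1, 0, by omega, by omega, h1.symm⟩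
      · exact ⟨1, 1, by omega, by omega, h1.symm⟩
      · exact ⟨0, 1, by omega, by omega, h1.symm⟩
    · exact h
  -- the rows
  have hrow : ∀ j < n, ∑ i ∈ Finset.range n, spE (L i j) (L (i + 1) j) =
      ∑ i ∈ Finset.range n, spE (L i (j + 1)) (L (i + 1) (j + 1)) := by
    intro j hj
    apply sp_two
    have h1 : ∑ i ∈ Finset.range n, (spE (L i j) (L (i + 1) j) +
        spE (L i (j + 1)) (L (i + 1) (j + 1)) +
        (spE (L (i + 1) j) (L (i + 1) (j + 1)) - spE (L i j) (L i (j + 1)))) = 0 :=
      Finset.sum_eq_zero fun i hi => hcell i (Finset.mem_range.1 hi) j hj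
    rw [Finset.sum_add_distrib, Finset.sum_add_distrib,
      Finset.sum_range_sub (fun i => spE (L i j) (L i (j + 1))), hright j hj.le,
      hright (j + 1) hj, hleft j hj.le, hleft (j + 1) hj, spE_self, spE_self, sub_zero,
      add_zero] at h1
    exact h1
  have hall : ∀ j ≤ n, ∑ i ∈ Finset.range n, spE (L i j) (L (i + 1) j) = 0 := by
    intro j
    induction j with
    | zero =>
      intro _
      refine Finset.sum_eq_zero fun i hi => ?_
      have hi' := Finset.mem_range.1 hi
      apply spE_zero
      by_cases him : i + 1 ≤ m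
      · left
        exact ⟨hbl i (by omega), hbl (i + 1) him⟩
      · right
        exact ⟨hbr i (by omega) (by omega), hbr (i + 1) (by omega) (by omega)⟩
    | succ j ih =>
      intro hj
      rw [← hrow j hj]
      exact ih (by omega)
  have htel : ∑ i ∈ Finset.range n, spE (L i n) (L (i + 1) n) =
      ∑ i ∈ Finset.range n, (spF (L (i + 1) n) - spF (L i n)) := by
    refine Finset.sum_congr rfl fun i hi => ?_
    have hi' := Finset.mem_range.1 hi
    exact spE_sub _ _ (htop i hi'.le) (htop (i + 1) hi')
  rw [hall n le_rfl, Finset.sum_range_sub (fun i => spF (L i n)), hright n le_rfl,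
    hleft n le_rfl] at htel
  revert htel
  decide

end UW1
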